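import Pool.Agent.R353.LM.Stm

/-!
# MP_4d0c5f_nt, part K: the estimates for one step of the construction of the slopes
-/

set_option autoImplicit false

open Finset

namespace Pool.Agent.R353.LM

/-- `lin X G w` satisfies the lower bound with constant `c` -/
def DioC (c X G : ℝ) : Prop := ∀ w : Fin 4 → ℤ, w ≠ 0 → c / ‖w‖ ^ 24 ≤ |lin X G w|

lemma abs_le_norm (w : Fin 4 → ℤ) (i : Fin 4) : |((w i : ℤ) : ℝ)| ≤ ‖w‖ := by
  have h := norm_le_pi_norm w i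
  rwa [Int.norm_eq_abs] at h

lemma one_le_norm {w : Fin 4 → ℤ} (hw : w ≠ 0) : 1 ≤ ‖w‖ := by
  obtain ⟨i, hi⟩ := Function.ne_iff.1 hw
  refine le_trans ?_ (abs_le_norm w i)
  have : (1 : ℤ) ≤ |w i| := Int.one_le_abs hi
  exact_mod_cast this

lemma norm_le_of {w : Fin 4 → ℤ} {B : ℝ} (hB : 0 ≤ B) (h0 : |((w 0 : ℤ) : ℝ)| ≤ B) (h1 : |((w 1 : ℤ) : ℝ)| ≤ B)
    (h2 : |((w 2 : ℤ) : ℝ)| ≤ B) (h3 : |((w 3 : ℤ) : ℝ)| ≤ B) : ‖w‖ ≤ B := by
  rw [pi_norm_le_iff_of_nonneg hB]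
  intro i
  rw [Int.norm_eq_abs]
  fin_cases i
  · exact h0
  · exact h1
  · exact h2
  · exact h3

/-- the transformed vector -/
def tr (Q a b : ℤ) (w : Fin 4 → ℤ) : Fin 4 → ℤ := ![b * w 0 + a * w 1, -Q * w 1, b * w 2 + a * w 3, -Q * w 3]

lemma lin_tr (X G : ℝ) {Q a b : ℤ} (hb : b ≠ 0) (w : Fin 4 → ℤ) :
    lin ((a - Q * X) / b) G w = lin X G (tr Q a b w) / b := by
  have hb' : (b : ℝ) ≠ 0 := by exact_mod_cast hb
  unfold lin tr
  simp only [Matrix.cons_val_zero, Matrix.cons_val_one, Matrix.cons_val]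
  push_cast
  field_simp
  ring

lemma tr_ne {Q a b : ℤ} (hQ : Q ≠ 0) (hb : b ≠ 0) {w : Fin 4 → ℤ} (hw : w ≠ 0) : tr Q a b w ≠ 0 := by
  intro h
  apply hw
  have h0 := congrFun h 0
  have h1 := congrFun h 1
  have h2 := congrFun h 2
  have h3 := congrFun h 3
  simp only [tr, Matrix.cons_val_zero, Matrix.cons_val_one, Matrix.cons_val, Pi.zero_apply, neg_mul, neg_eq_zero,
    mul_eq_zero] at h0 h1 h2 h3
  have w1 : w 1 = 0 := h1.resolve_left hQ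
  have w3 : w 3 = 0 := h3.resolve_left hQ
  rw [w1, mul_zero, add_zero] at h0
  rw [w3, mul_zero, add_zero] at h2
  have w0 : w 0 = 0 := (mul_eq_zero.1 h0).resolve_left hb
  have w2 : w 2 = 0 := (mul_eq_zero.1 h2).resolve_left hb
  funext i
  fin_cases i
  · exact w0
  · exact w1
  · exact w2
  · exact w3

lemma norm_tr_le {Q a b : ℤ} {C q : ℝ} (hC : 1 ≤ C) (hq : 0 ≤ q) (hQ : |(Q : ℝ)| ≤ q) (ha : |(a : ℝ)| ≤ C * q)
    (hb : |(b : ℝ)| ≤ C * q) (w : Fin 4 → ℤ) : ‖tr Q a b w‖ ≤ 2 * C * q * ‖w‖ := by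
  have hn := norm_nonneg w
  have e0 := abs_le_norm w 0
  have e1 := abs_le_norm w 1
  have e2 := abs_le_norm w 2
  have e3 := abs_le_norm w 3
  have hCq : 0 ≤ C * q := by positivity
  have hqC : q ≤ C * q := by nlinarith
  have two : ∀ x y : ℤ, |(x : ℝ)| ≤ ‖w‖ → |(y : ℝ)| ≤ ‖w‖ → |((b * x + a * y : ℤ) : ℝ)| ≤ 2 * C * q * ‖w‖ := by
    intro x y hx hy
    push_cast
    calc |(b : ℝ) * x + a * y| ≤ |(b : ℝ) * x| + |(a : ℝ) * y| := abs_add_le _ _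
      _ = |(b : ℝ)| * |(x : ℝ)| + |(a : ℝ)| * |(y : ℝ)| := by rw [abs_mul, abs_mul]
      _ ≤ (C * q) * ‖w‖ + (C * q) * ‖w‖ :=
          add_le_add (mul_le_mul hb hx (abs_nonneg _) hCq) (mul_le_mul ha hy (abs_nonneg _) hCq)
      _ = 2 * C * q * ‖w‖ := by ring
  have one : ∀ x : ℤ, |(x : ℝ)| ≤ ‖w‖ → |((-Q * x : ℤ) : ℝ)| ≤ 2 * C * q * ‖w‖ := by
    intro x hx
    push_cast
    rw [abs_mul, abs_neg]
    calc |(Q : ℝ)| * |(x : ℝ)| ≤ q * ‖w‖ := mul_le_mul hQ hx (abs_nonneg _) hq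
      _ ≤ 2 * C * q * ‖w‖ := by nlinarith [mul_nonneg hq hn]
  refine norm_le_of (by positivity) ?_ ?_ ?_ ?_
  · simpa [tr] using two _ _ e0 e1
  · simpa [tr] using one _ e1
  · simpa [tr] using two _ _ e2 e3
  · simpa [tr] using one _ e3

/-- Step S1: at a special slope the lower bound with exponent `150` holds for the vectors of norm at least `S`. -/
lemma step_large {c X G C : ℝ} (hc : 0 < c) (hD : DioC c X G) (hC : 1 ≤ C) {S : ℕ} (hS : 1 ≤ S) {a b : ℤ} (hb0 : b ≠ 0)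
    (ha : |(a : ℝ)| ≤ C * (S : ℝ) ^ 5) (hb : |(b : ℝ)| ≤ C * (S : ℝ) ^ 5)
    (hbig : (2 * C) ^ 24 * C / c ≤ S) (w : Fin 4 → ℤ) (hw : (S : ℝ) ≤ ‖w‖) :
    1 / ‖w‖ ^ 150 ≤ |lin ((a - (S : ℝ) ^ 5 * X) / b) G w| := by
  have hS' : (1 : ℝ) ≤ S := by exact_mod_cast hS
  have hn : 1 ≤ ‖w‖ := hS'.trans hw
  have hw0 : w ≠ 0 := by
    rintro rfl
    simp at hn
    linarith
  have hQ0 : ((S : ℤ) ^ 5) ≠ 0 := pow_ne_zero _ (by positivity)
  have key := lin_tr X G (Q := (S : ℤ) ^ 5) (a := a) hb0 w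
  push_cast at key
  rw [key, abs_div]
  have hb' : 0 < |(b : ℝ)| := abs_pos.2 (by exact_mod_cast hb0)
  have h1 := hD _ (tr_ne (a := a) hQ0 hb0 hw0)
  have h2 : ‖tr ((S : ℤ) ^ 5) a b w‖ ≤ 2 * C * (S : ℝ) ^ 5 * ‖w‖ :=
    norm_tr_le hC (by positivity) (by push_cast; rw [abs_of_nonneg (by positivity)]) ha hb w
  have h3 : 0 < ‖tr ((S : ℤ) ^ 5) a b w‖ := lt_of_lt_of_le one_pos (one_le_norm (tr_ne (a := a) hQ0 hb0 hw0))
  have h4 : c / (2 * C * (S : ℝ) ^ 5 * ‖w‖) ^ 24 ≤ |lin X G (tr ((S : ℤ) ^ 5) a b w)| :=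
    (div_le_div_of_nonneg_left hc.le (by positivity) (pow_le_pow_left₀ h3.le h2 24)).trans h1
  have h5 : c / (2 * C * (S : ℝ) ^ 5 * ‖w‖) ^ 24 / (C * (S : ℝ) ^ 5) ≤
      |lin X G (tr ((S : ℤ) ^ 5) a b w)| / |(b : ℝ)| :=
    div_le_div₀ (abs_nonneg _) h4 hb' hb
  refine le_trans ?_ h5
  rw [div_div, div_le_div_iff₀ (by positivity) (by positivity), one_mul]
  have h6 : (S : ℝ) ^ 5 ≤ ‖w‖ ^ 5 := pow_le_pow_left₀ (by positivity) hw 5
  have h7 : (2 * C) ^ 24 * C ≤ c * ‖w‖ := by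
    have := hbig.trans hw
    rw [div_le_iff₀ hc] at this
    linarith
  calc (2 * C * (S : ℝ) ^ 5 * ‖w‖) ^ 24 * (C * (S : ℝ) ^ 5)
      = ((2 * C) ^ 24 * C) * ((S : ℝ) ^ 5) ^ 25 * ‖w‖ ^ 24 := by ring
    _ ≤ (c * ‖w‖) * (‖w‖ ^ 5) ^ 25 * ‖w‖ ^ 24 := by gcongr
    _ = c * ‖w‖ ^ 150 := by ring

/-- Separation of the special slopes. -/
lemma slopes_sep {c X G C : ℝ} (hc : 0 < c) (hD : DioC c X G) (hC : 1 ≤ C) {S : ℕ} (hS : 1 ≤ S) {a b a' b' : ℤ}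
    (hb0 : b ≠ 0) (hb0' : b' ≠ 0) (hbb : b ≠ b')
    (ha : |(a : ℝ)| ≤ C * (S : ℝ) ^ 5) (hb : |(b : ℝ)| ≤ C * (S : ℝ) ^ 5)
    (ha' : |(a' : ℝ)| ≤ C * (S : ℝ) ^ 5) (hb' : |(b' : ℝ)| ≤ C * (S : ℝ) ^ 5) :
    c / ((2 * C ^ 2) ^ 24 * C ^ 2 * (S : ℝ) ^ 250) ≤
      |(a - (S : ℝ) ^ 5 * X) / b - (a' - (S : ℝ) ^ 5 * X) / b'| := by
  have hS' : (1 : ℝ) ≤ S := by exact_mod_cast hS
  have hq : (0 : ℝ) < (S : ℝ) ^ 5 := by positivity
  set q : ℝ := (S : ℝ) ^ 5 with hqd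
  have hq1 : 1 ≤ q := one_le_pow₀ hS'
  have hbr : (b : ℝ) ≠ 0 := by exact_mod_cast hb0
  have hbr' : (b' : ℝ) ≠ 0 := by exact_mod_cast hb0'
  set v : Fin 4 → ℤ := ![a * b' - a' * b, -(S : ℤ) ^ 5 * (b' - b), 0, 0] with hv
  have hv0 : v ≠ 0 := by
    intro h
    have h1 := congrFun h 1
    simp only [hv, Matrix.cons_val_one, Matrix.cons_val_zero, Pi.zero_apply, neg_mul, neg_eq_zero, mul_eq_zero,
      sub_eq_zero] at h1
    rcases h1 with h1 | h1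
    · exact absurd h1 (pow_ne_zero _ (by positivity))
    · exact hbb h1.symm
  have hlin : lin X G v = (a * b' - a' * b : ℝ) - q * (b' - b) * X := by
    unfold lin
    simp only [hv, Matrix.cons_val_zero, Matrix.cons_val_one, Matrix.cons_val]
    push_cast
    ring
  have hdiff : (a - q * X) / b - (a' - q * X) / b' = lin X G v / (b * b') := by
    rw [hlin]
    field_simp
    ring
  have hCq : 0 ≤ C * q := by positivity
  have habs : ∀ x y : ℝ, |x| ≤ C * q → |y| ≤ C * q → |x * y| ≤ (C * q) ^ 2 := by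
    intro x y hx hy
    rw [abs_mul, sq]
    exact mul_le_mul hx hy (abs_nonneg _) hCq
  have hnv : ‖v‖ ≤ 2 * C ^ 2 * q ^ 2 := by
    refine norm_le_of (by positivity) ?_ ?_ ?_ ?_
    · simp only [hv, Matrix.cons_val_zero]
      push_cast
      calc |(a : ℝ) * b' - a' * b| ≤ |(a : ℝ) * b'| + |(a' : ℝ) * b| := abs_sub _ _
        _ ≤ (C * q) ^ 2 + (C * q) ^ 2 := add_le_add (habs _ _ ha hb') (habs _ _ ha' hb)
        _ = 2 * C ^ 2 * q ^ 2 := by ring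
    · simp only [hv, Matrix.cons_val_one, Matrix.cons_val_zero]
      push_cast
      rw [abs_mul, abs_neg, ← hqd, abs_of_pos hq]
      have h1 : |(b' : ℝ) - b| ≤ 2 * (C * q) := by
        calc |(b' : ℝ) - b| ≤ |(b' : ℝ)| + |(b : ℝ)| := abs_sub _ _
          _ ≤ 2 * (C * q) := by linarith
      calc q * |(b' : ℝ) - b| ≤ q * (2 * (C * q)) := by gcongr
        _ = 2 * (C * 1) * q ^ 2 := by ring
        _ ≤ 2 * (C * C) * q ^ 2 := by gcongr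
        _ = 2 * C ^ 2 * q ^ 2 := by ring
    · simp only [hv, Matrix.cons_val]
      simp
      positivity
    · simp only [hv, Matrix.cons_val]
      simp
      positivity
  have h1 := hD v hv0
  have hv1 : 0 < ‖v‖ := lt_of_lt_of_le one_pos (one_le_norm hv0)
  have h2 : c / (2 * C ^ 2 * q ^ 2) ^ 24 ≤ |lin X G v| :=
    (div_le_div_of_nonneg_left hc.le (by positivity) (pow_le_pow_left₀ hv1.le hnv 24)).trans h1
  have h3 : |(b : ℝ) * b'| ≤ (C * q) ^ 2 := habs _ _ hb hb'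
  rw [hdiff, abs_div]
  have h4 : c / (2 * C ^ 2 * q ^ 2) ^ 24 / (C * q) ^ 2 ≤ |lin X G v| / |(b : ℝ) * b'| :=
    div_le_div₀ (abs_nonneg _) h2 (abs_pos.2 (mul_ne_zero hbr hbr')) h3
  refine le_trans (le_of_eq ?_) h4
  rw [div_div]
  congr 1
  rw [hqd]
  ring

/-- the integer vectors of norm at most `S` -/
noncomputable def box (S : ℕ) : Finset (Fin 4 → ℤ) := Fintype.piFinset fun _ => Finset.Icc (-(S : ℤ)) S

lemma card_box (S : ℕ) : (box S).card = (2 * S + 1) ^ 4 := by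
  unfold box
  rw [Fintype.card_piFinset]
  simp only [Int.card_Icc, Finset.prod_const, Finset.card_univ, Fintype.card_fin]
  congr 1
  omega

lemma mem_box {S : ℕ} {w : Fin 4 → ℤ} (h : ‖w‖ ≤ S) : w ∈ box S := by
  unfold box
  rw [Fintype.mem_piFinset]
  intro i
  have h1 := (abs_le_norm w i).trans h
  rw [abs_le] at h1
  rw [Finset.mem_Icc]
  constructor
  · exact_mod_cast h1.1
  · exact_mod_cast h1.2

lemma lin_sub (L L' G : ℝ) (w : Fin 4 → ℤ) : lin L' G w - lin L G w = (L' - L) * (w 1 + w 3 * G) := by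
  unfold lin; ring

lemma coef_le (G : ℝ) (w : Fin 4 → ℤ) : |(w 1 : ℝ) + w 3 * G| ≤ (1 + |G|) * ‖w‖ := by
  have h1 := abs_le_norm w 1
  have h3 := abs_le_norm w 3
  calc |(w 1 : ℝ) + w 3 * G| ≤ |(w 1 : ℝ)| + |(w 3 : ℝ) * G| := abs_add_le _ _
    _ = |(w 1 : ℝ)| + |(w 3 : ℝ)| * |G| := by rw [abs_mul]
    _ ≤ ‖w‖ + ‖w‖ * |G| := by gcongr
    _ = (1 + |G|) * ‖w‖ := by ring

/-- if `(w 1, w 3) ≠ 0` the coefficient of the slope is not small -/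
lemma coef_ge {c X G : ℝ} (hc : 0 < c) (hD : DioC c X G) {w : Fin 4 → ℤ} (hw : w 1 ≠ 0 ∨ w 3 ≠ 0) :
    c / ‖w‖ ^ 24 ≤ |(w 1 : ℝ) + w 3 * G| := by
  set v : Fin 4 → ℤ := ![w 1, 0, w 3, 0] with hv
  have hv0 : v ≠ 0 := by
    intro h
    have h0 := congrFun h 0
    have h2 := congrFun h 2
    simp only [hv, Matrix.cons_val_zero, Matrix.cons_val, Pi.zero_apply] at h0 h2
    rcases hw with hw | hw
    · exact hw h0
    · exact hw h2
  have h1 := hD v hv0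
  have h2 : lin X G v = (w 1 : ℝ) + w 3 * G := by
    unfold lin
    simp only [hv, Matrix.cons_val_zero, Matrix.cons_val_one, Matrix.cons_val]
    push_cast
    ring
  rw [h2] at h1
  refine le_trans ?_ h1
  have h3 : ‖v‖ ≤ ‖w‖ := by
    refine norm_le_of (norm_nonneg _) ?_ ?_ ?_ ?_
    · simpa [hv] using abs_le_norm w 1
    · simp [hv]
    · simpa [hv] using abs_le_norm w 3
    · simp [hv]
  have h4 : 0 < ‖v‖ := lt_of_lt_of_le one_pos (one_le_norm hv0)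
  exact div_le_div_of_nonneg_left hc.le (by positivity) (pow_le_pow_left₀ h4.le h3 24)

/-- if `(w 1, w 3) = 0` the form does not depend on the slope -/
lemma lin_ge_of_coef_zero {c X G L : ℝ} (hD : DioC c X G) {w : Fin 4 → ℤ} (hw : w ≠ 0) (h1 : w 1 = 0)
    (h3 : w 3 = 0) : c / ‖w‖ ^ 24 ≤ |lin L G w| := by
  have h := hD w hw
  have : lin L G w = lin X G w := by
    unfold lin
    rw [h1, h3]
    push_cast
    ring
  rwa [this]

end Pool.Agent.R353.LM
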