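import Pool.Agent.R353.LM.K2

/-!
# MP_4d0c5f_nt, part K: the construction of the slopes
-/

set_option autoImplicit false

open Finset Filter Topology

namespace Pool.Agent.R353.LM

/-- a state of the construction: the slopes, the threshold for the vectors, the radius of the ball of all further
slopes -/
structure State where
  L : ℝ
  M : ℝ
  T : ℕ
  r : ℝ

/-- the state is good -/
def Good (G : ℕ → ℝ) (J : ℕ) (s : State) : Prop :=
  (∀ i < J, ∀ w : Fin 4 → ℤ, (s.T : ℝ) ≤ ‖w‖ → 1 / ‖w‖ ^ 150 ≤ |lin s.L (G i) w|) ∧ s.L ≠ s.M ∧ 2 ≤ s.T ∧ 0 < s.r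

/-- the relation between consecutive states -/
def Next (X Y : ℝ) (G : ℕ → ℝ) (β : ℝ) (J : ℕ) (s s' : State) : Prop :=
  s.T < s'.T ∧ |s'.L - s.L| + s'.r ≤ s.r ∧ |s'.M - s.M| + s'.r ≤ s.r ∧
    (∀ L'' : ℝ, |L'' - s'.L| ≤ s'.r → L'' ≠ β ∧ ∀ i < J, ∀ w : Fin 4 → ℤ, (s.T : ℝ) ≤ ‖w‖ → ‖w‖ < s'.T →
      1 / ‖w‖ ^ 8500 < |lin L'' (G i) w|) ∧
    ∃ Q a b : ℤ, 2 ≤ Q ∧ (∀ L'' : ℝ, |L'' - s'.L| ≤ s'.r → |X * Q - a + L'' * b| < 1 / (Q : ℝ) ^ J) ∧
      (∀ M'' : ℝ, |M'' - s'.M| ≤ s'.r → |Y * Q - a + M'' * b| < 1 / (Q : ℝ) ^ J)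

lemma continuous_lin (G : ℝ) (w : Fin 4 → ℤ) : Continuous fun L : ℝ => lin L G w := by
  unfold lin
  fun_prop

theorem next_exists {X Y : ℝ} (hXY : X ≠ Y) {G : ℕ → ℝ} (hD : ∀ i, Dio X (G i)) (β : ℝ) (J : ℕ) (s : State)
    (hs : Good G J s) : ∃ s', Good G (J + 1) s' ∧ Next X Y G β J s s' := by
  obtain ⟨h1, h2, h3, h4⟩ := hs
  obtain ⟨S, a, b, L', M', hTS, hb, hL', hM', hLc, hMc, hLβ, hlarge, hall⟩ :=
    stage hXY hD J h2 h3 h1 (half_pos h4) β
  have hbr : (b : ℝ) ≠ 0 := by exact_mod_cast hb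
  have hS2 : 2 ≤ S := by omega
  have hS0 : (0 : ℝ) < (S : ℝ) ^ 5 := by positivity
  have hQ2 : (2 : ℤ) ≤ (S : ℤ) ^ 5 := by
    have h5 : (2 : ℤ) ≤ S := by exact_mod_cast hS2
    calc (2 : ℤ) ≤ S := h5
      _ = (S : ℤ) ^ 1 := (pow_one _).symm
      _ ≤ (S : ℤ) ^ 5 := pow_le_pow_right₀ (by omega) (by norm_num)
  have hQc : (((S : ℤ) ^ 5 : ℤ) : ℝ) = (S : ℝ) ^ 5 := by push_cast; ring
  have eL : X * (S : ℝ) ^ 5 - a + L' * b = 0 := by
    rw [hL', div_mul_cancel₀ _ hbr]; ring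
  have eM : Y * (S : ℝ) ^ 5 - a + M' * b = 0 := by
    rw [hM', div_mul_cancel₀ _ hbr]; ring
  have hpos : 0 < 1 / ((S : ℝ) ^ 5) ^ J := by positivity
  -- eventually
  have e1 : ∀ᶠ L'' in 𝓝 L', L'' ≠ β := eventually_ne_nhds hLβ
  have e2 : ∀ᶠ L'' in 𝓝 L', ∀ p ∈ Finset.range J ×ˢ box S, (s.T : ℝ) ≤ ‖p.2‖ →
      1 / ‖p.2‖ ^ 8500 < |lin L'' (G p.1) p.2| := by
    rw [Filter.eventually_all_finset]
    intro p hp
    by_cases hT : (s.T : ℝ) ≤ ‖p.2‖
    · have h5 := hall p.1 (Finset.mem_range.1 (Finset.mem_product.1 hp).1) p.2 hT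
      have h6 : ContinuousAt (fun L : ℝ => |lin L (G p.1) p.2|) L' :=
        ((continuous_lin _ _).abs).continuousAt
      filter_upwards [h6.eventually (lt_mem_nhds h5)] with L'' h7 _ using h7
    · exact Eventually.of_forall fun L'' h => absurd h hT
  have e3 : ∀ᶠ L'' in 𝓝 L', |X * (S : ℝ) ^ 5 - a + L'' * b| < 1 / ((S : ℝ) ^ 5) ^ J := by
    have h6 : ContinuousAt (fun L : ℝ => |X * (S : ℝ) ^ 5 - a + L * b|) L' := by fun_prop
    refine h6.eventually (gt_mem_nhds ?_)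
    show |X * (S : ℝ) ^ 5 - a + L' * b| < 1 / ((S : ℝ) ^ 5) ^ J
    rw [eL, abs_zero]
    exact hpos
  have e4 : ∀ᶠ M'' in 𝓝 M', |Y * (S : ℝ) ^ 5 - a + M'' * b| < 1 / ((S : ℝ) ^ 5) ^ J := by
    have h6 : ContinuousAt (fun L : ℝ => |Y * (S : ℝ) ^ 5 - a + L * b|) M' := by fun_prop
    refine h6.eventually (gt_mem_nhds ?_)
    show |Y * (S : ℝ) ^ 5 - a + M' * b| < 1 / ((S : ℝ) ^ 5) ^ J
    rw [eM, abs_zero]
    exact hpos
  obtain ⟨δ, hδ, hδP⟩ := Metric.eventually_nhds_iff.1 (e1.and (e2.and e3))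
  obtain ⟨δ', hδ', hδP'⟩ := Metric.eventually_nhds_iff.1 e4
  refine ⟨⟨L', M', S, min (min (δ / 2) (δ' / 2)) (s.r / 2)⟩, ⟨?_, ?_, hS2, by positivity⟩, hTS, ?_, ?_, ?_,
    (S : ℤ) ^ 5, a, b, hQ2, ?_, ?_⟩
  · intro i hi w hw
    exact hlarge i (by omega) w hw
  · intro h
    have h5 : (L' - M') * b = 0 := by
      have : L' = M' := h
      rw [this]; ring
    have h6 : (L' - M') * b = (Y - X) * (S : ℝ) ^ 5 := by linear_combination eL - eM
    rw [h6] at h5
    rcases mul_eq_zero.1 h5 with h7 | h7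
    · exact hXY (sub_eq_zero.1 h7).symm
    · exact hS0.ne' h7
  · have := min_le_right (min (δ / 2) (δ' / 2)) (s.r / 2)
    simp only
    linarith
  · have := min_le_right (min (δ / 2) (δ' / 2)) (s.r / 2)
    simp only
    linarith
  · intro L'' hL''
    simp only at hL''
    have h5 : dist L'' L' < δ := by
      rw [Real.dist_eq]
      have := (hL''.trans (min_le_left _ _)).trans (min_le_left _ _)
      linarith
    obtain ⟨k1, k2, _⟩ := hδP h5
    refine ⟨k1, fun i hi w hw1 hw2 => ?_⟩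
    exact k2 (i, w) (Finset.mk_mem_product (Finset.mem_range.2 hi) (mem_box hw2.le)) hw1
  · intro L'' hL''
    simp only at hL''
    have h5 : dist L'' L' < δ := by
      rw [Real.dist_eq]
      have := (hL''.trans (min_le_left _ _)).trans (min_le_left _ _)
      linarith
    rw [hQc]
    exact (hδP h5).2.2
  · intro M'' hM''
    simp only at hM''
    have h5 : dist M'' M' < δ' := by
      rw [Real.dist_eq]
      have := (hM''.trans (min_le_left _ _)).trans (min_le_right _ _)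
      linarith
    rw [hQc]
    exact hδP' h5

/-- no nonzero integer combination of `1`, `Z` vanishes -/
def Irr (Z : ℝ) : Prop := ∀ u v : ℤ, (u : ℝ) + v * Z = 0 → u = 0 ∧ v = 0

lemma irr_left {X G : ℝ} (h : Dio X G) : Irr X := by
  obtain ⟨c, hc, h⟩ := h
  intro u v huv
  by_contra hne
  have hv : (![u, v, 0, 0] : Fin 4 → ℤ) ≠ 0 := by
    intro h0
    have a0 := congrFun h0 0
    have a1 := congrFun h0 1
    simp only [Matrix.cons_val_zero, Matrix.cons_val_one, Pi.zero_apply] at a0 a1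
    exact hne ⟨a0, a1⟩
  have h1 := h _ hv
  have h2 : lin X G ![u, v, 0, 0] = 0 := by
    unfold lin
    simp only [Matrix.cons_val_zero, Matrix.cons_val_one, Matrix.cons_val]
    push_cast
    linear_combination huv
  rw [h2, abs_zero] at h1
  have h3 : 0 < ‖(![u, v, 0, 0] : Fin 4 → ℤ)‖ := lt_of_lt_of_le one_pos (one_le_norm hv)
  exact absurd h1 (not_le.2 (by positivity))

lemma irr_right {X G : ℝ} (h : Dio X G) : Irr G := by
  obtain ⟨c, hc, h⟩ := h
  intro u v huv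
  by_contra hne
  have hv : (![u, 0, v, 0] : Fin 4 → ℤ) ≠ 0 := by
    intro h0
    have a0 := congrFun h0 0
    have a1 := congrFun h0 2
    simp only [Matrix.cons_val_zero, Matrix.cons_val, Pi.zero_apply] at a0 a1
    exact hne ⟨a0, a1⟩
  have h1 := h _ hv
  have h2 : lin X G ![u, 0, v, 0] = 0 := by
    unfold lin
    simp only [Matrix.cons_val_zero, Matrix.cons_val_one, Matrix.cons_val]
    push_cast
    linear_combination huv
  rw [h2, abs_zero] at h1
  have h3 : 0 < ‖(![u, 0, v, 0] : Fin 4 → ℤ)‖ := lt_of_lt_of_le one_pos (one_le_norm hv)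
  exact absurd h1 (not_le.2 (by positivity))

lemma countable_bad {Z : ℝ} (hZ : Irr Z) : {L : ℝ | ∃ w : Fin 4 → ℤ, w ≠ 0 ∧ lin L Z w = 0}.Countable := by
  have : {L : ℝ | ∃ w : Fin 4 → ℤ, w ≠ 0 ∧ lin L Z w = 0} =
      ⋃ w : Fin 4 → ℤ, {L : ℝ | w ≠ 0 ∧ lin L Z w = 0} := by
    ext L; simp
  rw [this]
  refine Set.countable_iUnion fun w => Set.Subsingleton.countable ?_
  rintro L ⟨hw, hL⟩ L' ⟨_, hL'⟩
  have h1 : (L' - L) * ((w 1 : ℝ) + w 3 * Z) = 0 := by
    rw [← lin_sub, hL, hL', sub_self]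
  rcases mul_eq_zero.1 h1 with h2 | h2
  · linarith
  · exfalso
    obtain ⟨a1, a3⟩ := hZ _ _ h2
    have h3 : (w 0 : ℝ) + w 2 * Z = 0 := by
      unfold lin at hL
      rw [a1, a3] at hL
      push_cast at hL
      linear_combination hL
    obtain ⟨a0, a2⟩ := hZ _ _ h3
    apply hw
    funext i
    fin_cases i
    · exact a0
    · exact a1
    · exact a2
    · exact a3

/-- **Part K.** -/
theorem k : St_K := by
  intro X Y G hXY hD
  -- the values to avoid
  set Bad : Set ℝ := (⋃ k, {L : ℝ | ∃ w : Fin 4 → ℤ, w ≠ 0 ∧ lin L (X k) w = 0}) ∪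
    ⋃ i, {L : ℝ | ∃ w : Fin 4 → ℤ, w ≠ 0 ∧ lin L (G i) w = 0} with hBad
  have hBc : Bad.Countable := (Set.countable_iUnion fun k => countable_bad (irr_left (hD k 0))).union
    (Set.countable_iUnion fun i => countable_bad (irr_right (hD 0 i)))
  obtain ⟨β, hβ⟩ := Set.countable_iff_exists_subset_range.1 hBc
  -- the sequence of states
  have hstep : ∀ (J : ℕ) (s : State), ∃ s', Good G J s →
      Good G (J + 1) s' ∧ Next (X J.unpair.1) (Y J.unpair.1) G (β J) J s s' := by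
    intro J s
    by_cases hs : Good G J s
    · obtain ⟨s', h⟩ := next_exists (hXY J.unpair.1) (hD J.unpair.1) (β J) J s hs
      exact ⟨s', fun _ => h⟩
    · exact ⟨s, fun h => absurd h hs⟩
  choose nx hnx using hstep
  let s : ℕ → State := fun n => Nat.rec ⟨0, 1, 2, 1 / 4⟩ (fun J t => nx J t) n
  have hs0 : s 0 = ⟨0, 1, 2, 1 / 4⟩ := rfl
  have hsucc : ∀ J, s (J + 1) = nx J (s J) := fun J => rfl
  have hgood : ∀ J, Good G J (s J) := by
    intro J
    induction J with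
    | zero =>
      rw [hs0]
      exact ⟨fun i hi => absurd hi (Nat.not_lt_zero _), by norm_num, le_rfl, by norm_num⟩
    | succ J ih =>
      rw [hsucc]
      exact (hnx J (s J) ih).1
  have hnext : ∀ J, Next (X J.unpair.1) (Y J.unpair.1) G (β J) J (s J) (s (J + 1)) := by
    intro J
    rw [hsucc]
    exact (hnx J (s J) (hgood J)).2
  have hrpos : ∀ J, 0 < (s J).r := fun J => (hgood J).2.2.2
  -- the limit points
  have hlim : ∀ c : State → ℝ, (∀ J, |c (s (J + 1)) - c (s J)| + (s (J + 1)).r ≤ (s J).r) →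
      ∃ l : ℝ, ∀ J, |l - c (s J)| ≤ (s J).r := by
    intro c hc
    have h := IsCompact.nonempty_iInter_of_sequence_nonempty_isCompact_isClosed
      (fun J => Metric.closedBall (c (s J)) (s J).r) ?_ ?_ ?_ ?_
    · obtain ⟨l, hl⟩ := h
      refine ⟨l, fun J => ?_⟩
      have := Set.mem_iInter.1 hl J
      rwa [Metric.mem_closedBall, Real.dist_eq] at this
    · intro J x hx
      rw [Metric.mem_closedBall, Real.dist_eq] at hx ⊢
      have h1 := hc J
      have h2 : |x - c (s J)| ≤ |x - c (s (J + 1))| + |c (s (J + 1)) - c (s J)| := abs_sub_le _ _ _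
      linarith
    · intro J
      exact ⟨_, Metric.mem_closedBall_self (hrpos J).le⟩
    · exact isCompact_closedBall _ _
    · intro J
      exact Metric.isClosed_closedBall
  obtain ⟨L, hL⟩ := hlim State.L (fun J => (hnext J).2.1)
  obtain ⟨M, hM⟩ := hlim State.M (fun J => (hnext J).2.2.1)
  have hLbad : L ∉ Bad := by
    intro h
    obtain ⟨J, hJ⟩ := hβ h
    have h1 := (hnext J).2.2.2.1 L (hL (J + 1))
    exact h1.1 hJ.symm
  have hX0 : ∀ k, ∀ w : Fin 4 → ℤ, w ≠ 0 → lin L (X k) w ≠ 0 := by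
    intro k w hw h
    exact hLbad (Or.inl (Set.mem_iUnion.2 ⟨k, w, hw, h⟩))
  have hG0 : ∀ k, ∀ w : Fin 4 → ℤ, w ≠ 0 → lin L (G k) w ≠ 0 := by
    intro k w hw h
    exact hLbad (Or.inr (Set.mem_iUnion.2 ⟨k, w, hw, h⟩))
  refine ⟨L, M, ?_, ?_, hX0, ?_⟩
  · intro h
    have h1 := hL 0
    have h2 := hM 0
    rw [hs0] at h1 h2
    simp only at h1 h2
    rw [h] at h1
    rw [abs_le] at h1 h2
    linarith [h1.2, h2.1]
  · intro k N
    obtain ⟨Q, a, b, hQ, h1, h2⟩ := (hnext (Nat.pair k N)).2.2.2.2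
    have h3 := h1 L (hL (Nat.pair k N + 1))
    have h4 := h2 M (hM (Nat.pair k N + 1))
    rw [Nat.unpair_pair] at h3 h4
    have hQ1 : (1 : ℝ) ≤ Q := by exact_mod_cast (by omega : (1 : ℤ) ≤ Q)
    have h5 : (1 : ℝ) / (Q : ℝ) ^ (Nat.pair k N) ≤ 1 / (Q : ℝ) ^ N :=
      one_div_le_one_div_of_le (by positivity) (pow_le_pow_right₀ hQ1 (Nat.right_le_pair k N))
    exact ⟨Q, a, b, hQ, lt_of_lt_of_le h3 h5, lt_of_lt_of_le h4 h5⟩
  · intro i
    have hTmono : StrictMono fun J => (s J).T := strictMono_nat_of_lt_succ fun J => (hnext J).1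
    have hbig : ∀ w : Fin 4 → ℤ, ((s (i + 1)).T : ℝ) ≤ ‖w‖ → 1 / ‖w‖ ^ 8500 < |lin L (G i) w| := by
      intro w hw
      -- the last `J` with `T_J ≤ ‖w‖`
      have hex : ∃ J, ‖w‖ < (s J).T := by
        obtain ⟨n, hn⟩ := exists_nat_gt ‖w‖
        refine ⟨n, lt_of_lt_of_le hn ?_⟩
        exact_mod_cast hTmono.id_le n
      classical
      set J := Nat.find hex with hJ
      have hJ1 : ‖w‖ < (s J).T := Nat.find_spec hex
      have hJ0 : i + 1 < J := by
        by_contra h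
        push Not at h
        have h1 : ((s J).T : ℝ) ≤ (s (i + 1)).T := by exact_mod_cast hTmono.monotone h
        linarith
      obtain ⟨J', hJ'⟩ : ∃ J', J = J' + 1 := ⟨J - 1, by omega⟩
      have hJ2 : ((s J').T : ℝ) ≤ ‖w‖ := by
        by_contra h
        push Not at h
        have := Nat.find_min' hex h
        omega
      rw [hJ'] at hJ1
      exact ((hnext J').2.2.2.1 L (hL (J' + 1))).2 i (by omega) w hJ2 hJ1
    have hsmall : ∀ F : Finset (Fin 4 → ℤ), ∃ c : ℝ, 0 < c ∧ ∀ w ∈ F, w ≠ 0 → c ≤ |lin L (G i) w| := by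
      intro F
      classical
      induction F using Finset.induction_on with
      | empty => exact ⟨1, one_pos, fun w hw => absurd hw (Finset.notMem_empty w)⟩
      | insert w F hwF ih =>
        obtain ⟨c, hc, h⟩ := ih
        by_cases hw : w = 0
        · refine ⟨c, hc, fun v hv hv0 => ?_⟩
          rcases Finset.mem_insert.1 hv with rfl | hv
          · exact absurd hw hv0
          · exact h v hv hv0
        · refine ⟨min c |lin L (G i) w|, lt_min hc (abs_pos.2 (hG0 i w hw)), fun v hv hv0 => ?_⟩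
          rcases Finset.mem_insert.1 hv with rfl | hv
          · exact min_le_right _ _
          · exact (min_le_left _ _).trans (h v hv hv0)
    obtain ⟨c, hc, hcF⟩ := hsmall (box (s (i + 1)).T)
    refine ⟨min c 1, 8500, by positivity, fun w hw => ?_⟩
    have hn1 : 1 ≤ ‖w‖ := one_le_norm hw
    have hn2 : 1 ≤ ‖w‖ ^ 8500 := one_le_pow₀ hn1
    have hm0 : 0 < min c 1 := by positivity
    rcases le_or_gt ((s (i + 1)).T : ℝ) ‖w‖ with h1 | h1
    · refine le_trans ?_ (hbig w h1).le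
      exact div_le_div_of_nonneg_right (min_le_right _ _) (by linarith)
    · refine le_trans ?_ (hcF w (mem_box h1.le) hw)
      exact (div_le_self hm0.le hn2).trans (min_le_left _ _)

end Pool.Agent.R353.LM
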