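import Mathlib

/-!
# Analytic matrix functions separating Liouville matrices (MP_4d0c5f_nt): definitions and statements of the parts
-/

set_option autoImplicit false

open MeasureTheory

namespace Pool.Agent.R353.LM

/-- an integer vector as a real vector -/
def toReal {n : ℕ} (y : Fin n → ℤ) : Fin n → ℝ := fun i => (y i : ℝ)

/-- Liouville matrices (sup-norms): `A q ≠ p` for all integer vectors `q`, `p`, not both zero, and for every `N > 0`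
there are integer vectors `q`, `p` with `‖q‖ > 1` and `‖A q - p‖ < ‖q‖ ^ (-N)`. -/
def IsLiouville {n : ℕ} (A : Matrix (Fin n) (Fin n) ℝ) : Prop :=
  (∀ q p : Fin n → ℤ, (q ≠ 0 ∨ p ≠ 0) → A.mulVec (toReal q) ≠ toReal p) ∧
    ∀ N : ℝ, 0 < N → ∃ q p : Fin n → ℤ, 1 < ‖toReal q‖ ∧
      ‖A.mulVec (toReal q) - toReal p‖ < ‖toReal q‖ ^ (-N)

/-- `B` is the value `f(A)` of the matrix extension of `f`: the Taylor series of `f` at `0` converges at `A` to `B`. -/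
def IsValue {n : ℕ} (f : ℝ → ℝ) (A B : Matrix (Fin n) (Fin n) ℝ) : Prop :=
  HasSum (fun j : ℕ => (iteratedDeriv j f 0 / (j.factorial : ℝ)) • A ^ j) B

/-- `f` coincides on `I` with `(a h + b) / (c h + d)` for some real `a, b, c, d` with `(c, d) ≠ (0, 0)`. -/
def Moebius (I : Set ℝ) (f h : ℝ → ℝ) : Prop :=
  ∃ a b c d : ℝ, (c ≠ 0 ∨ d ≠ 0) ∧ ∀ z ∈ I, c * h z + d ≠ 0 ∧ f z = (a * h z + b) / (c * h z + d)

/-! ### numbers -/

/-- `w 0 + w 1 X + w 2 G + w 3 X G` -/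
def lin (X G : ℝ) (w : Fin 4 → ℤ) : ℝ := w 0 + w 1 * X + w 2 * G + w 3 * (X * G)

/-- `1, X, G, X G` are linearly independent over `ℤ`, with a measure: `|lin X G w| ≥ c ‖w‖ ^ (-24)`. -/
def Dio (X G : ℝ) : Prop :=
  ∃ c : ℝ, 0 < c ∧ ∀ w : Fin 4 → ℤ, w ≠ 0 → c / ‖w‖ ^ 24 ≤ |lin X G w|

/-- `1, f, g, f g` have nonzero Wronskian at `x`: no nonzero real combination vanishes to order four at `x`. -/
def Reg (f g : ℝ → ℝ) (x : ℝ) : Prop :=
  ∀ w : Fin 4 → ℝ, (∀ j ≤ 3, iteratedDeriv j (fun t => w 0 + w 1 * f t + w 2 * g t + w 3 * (f t * g t)) x = 0) → w = 0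

/-- Part D2: near a regular point almost all points are Diophantine. -/
def St_D2 : Prop :=
  ∀ (I : Set ℝ) (f g : ℝ → ℝ), IsOpen I → AnalyticOnNhd ℝ f I → AnalyticOnNhd ℝ g I → ∀ x₀ ∈ I, Reg f g x₀ →
    ∃ r : ℝ, 0 < r ∧ ∀ᵐ x : ℝ, |x - x₀| < r → Dio (f x) (g x)

/-- Part D3: if `1, f, g, f g` are linearly independent over `ℝ` on the interval `I`, almost all points are
regular. -/
def St_D3 : Prop :=
  ∀ (I : Set ℝ) (f g : ℝ → ℝ), IsOpen I → IsPreconnected I → AnalyticOnNhd ℝ f I → AnalyticOnNhd ℝ g I →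
    (∀ w : Fin 4 → ℝ, (∀ t ∈ I, w 0 + w 1 * f t + w 2 * g t + w 3 * (f t * g t) = 0) → w = 0) →
    ∀ᵐ x : ℝ, x ∈ I → Reg f g x

/-- Part T: the Taylor series at `0` of an analytic function on an interval around `0` represents the function as
far as it converges. -/
def St_T : Prop :=
  ∀ (I : Set ℝ) (f : ℝ → ℝ), IsOpen I → IsPreconnected I → (0 : ℝ) ∈ I → AnalyticOnNhd ℝ f I →
    ∀ ρ : ℝ, 0 < ρ → (∀ z : ℝ, |z| < ρ → Summable fun j : ℕ => iteratedDeriv j f 0 / (j.factorial : ℝ) * z ^ j) →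
    ∀ z ∈ I, |z| < ρ → HasSum (fun j : ℕ => iteratedDeriv j f 0 / (j.factorial : ℝ) * z ^ j) (f z)

/-- Part N: for sequences of functions with radii of convergence tending to `0` the literal statement fails: only
nilpotent matrices are in the domain of all functions. -/
def St_N : Prop :=
  ∀ n : ℕ, ∃ f g : ℕ → ℝ → ℝ, (∀ k, AnalyticOnNhd ℝ (f k) Set.univ) ∧ (∀ k, AnalyticOnNhd ℝ (g k) Set.univ) ∧
    (∀ k, ¬ Moebius Set.univ (g k) id) ∧ (∀ k₁ k₂, ¬ Moebius Set.univ (f k₁) (g k₂)) ∧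
    ∀ A : Matrix (Fin n) (Fin n) ℝ, (∀ k, ∃ B, IsValue (f k) A B) → ∀ k B, IsValue (g k) A B → B = A

/-- Part K: the construction of the slopes. -/
def St_K : Prop :=
  ∀ (X Y G : ℕ → ℝ), (∀ k, X k ≠ Y k) → (∀ k i, Dio (X k) (G i)) →
    ∃ L M : ℝ, L ≠ M ∧
      (∀ k, ∀ N : ℕ, ∃ Q a b : ℤ, 2 ≤ Q ∧ |X k * Q - a + L * b| < 1 / (Q : ℝ) ^ N ∧
        |Y k * Q - a + M * b| < 1 / (Q : ℝ) ^ N) ∧
      (∀ k, ∀ w : Fin 4 → ℤ, w ≠ 0 → lin L (X k) w ≠ 0) ∧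
      (∀ i, ∃ (c : ℝ) (N : ℕ), 0 < c ∧ ∀ w : Fin 4 → ℤ, w ≠ 0 → c / ‖w‖ ^ N ≤ |lin L (G i) w|)

end Pool.Agent.R353.LM
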