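import Mathlib
import Pool.Agent.R353.LM.Stm
import Pool.Agent.R353.LM.K1
import Pool.Agent.R353.LM.K3

/-!
# MP_4d0c5f_nt: matrices with prescribed slopes and their values (helper353)
-/

set_option autoImplicit false

open Finset

namespace Pool.Agent.R353.LM

/-- the left eigenvectors -/
def SM (m : ℕ) (L M : ℝ) : Matrix (Fin (m + 2)) (Fin (m + 2)) ℝ := fun i j =>
  if i = 0 then (if j = 0 then 1 else if j = 1 then -L else 0)
  else if i = 1 then (if j = 0 then 1 else if j = 1 then -M else 0)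
  else if i = j then 1 else 0

/-- the diagonal -/
def dg (m : ℕ) (X Y : ℝ) : Fin (m + 2) → ℝ := fun i => if i = 1 then Y else X

lemma SM_mulVec0 {m : ℕ} {L M : ℝ} (u : Fin (m + 2) → ℝ) : (SM m L M).mulVec u 0 = u 0 - L * u 1 := by
  simp only [Matrix.mulVec, dotProduct, SM, if_true]
  rw [Fin.sum_univ_succ, Fin.sum_univ_succ]
  have h : ∀ i : Fin m, (if (i.succ.succ : Fin (m + 2)) = 0 then (1 : ℝ) else if (i.succ.succ : Fin (m + 2)) = 1 then -L else 0) *
      u i.succ.succ = 0 := by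
    intro i
    have h1 : (i.succ.succ : Fin (m + 2)) ≠ 0 := Fin.succ_ne_zero _
    have h2 : (i.succ.succ : Fin (m + 2)) ≠ 1 := by
      intro h
      have := Fin.ext_iff.1 h
      simp at this
    rw [if_neg h1, if_neg h2, zero_mul]
  rw [Finset.sum_eq_zero fun i _ => h i]
  have h3 : (Fin.succ 0 : Fin (m + 2)) = 1 := rfl
  have h4 : (1 : Fin (m + 2)) ≠ 0 := by
    intro h
    have := Fin.ext_iff.1 h
    simp at this
  rw [h3, if_neg h4]
  simp
  ring

lemma SM_mulVec1 {m : ℕ} {L M : ℝ} (u : Fin (m + 2) → ℝ) : (SM m L M).mulVec u 1 = u 0 - M * u 1 := by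
  have h4 : (1 : Fin (m + 2)) ≠ 0 := by
    intro h
    have := Fin.ext_iff.1 h
    simp at this
  simp only [Matrix.mulVec, dotProduct, SM, if_true, if_neg h4]
  rw [Fin.sum_univ_succ, Fin.sum_univ_succ]
  have h : ∀ i : Fin m, (if (i.succ.succ : Fin (m + 2)) = 0 then (1 : ℝ) else if (i.succ.succ : Fin (m + 2)) = 1 then -M else 0) *
      u i.succ.succ = 0 := by
    intro i
    have h1 : (i.succ.succ : Fin (m + 2)) ≠ 0 := Fin.succ_ne_zero _
    have h2 : (i.succ.succ : Fin (m + 2)) ≠ 1 := by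
      intro h
      have := Fin.ext_iff.1 h
      simp at this
    rw [if_neg h1, if_neg h2, zero_mul]
  rw [Finset.sum_eq_zero fun i _ => h i]
  have h3 : (Fin.succ 0 : Fin (m + 2)) = 1 := rfl
  rw [h3, if_neg h4]
  simp
  ring

lemma SM_mulVec2 {m : ℕ} {L M : ℝ} (u : Fin (m + 2) → ℝ) {i : Fin (m + 2)} (h0 : i ≠ 0) (h1 : i ≠ 1) :
    (SM m L M).mulVec u i = u i := by
  simp only [Matrix.mulVec, dotProduct, SM, if_neg h0, if_neg h1]
  simp

lemma SM_unit {m : ℕ} {L M : ℝ} (h : L ≠ M) : IsUnit (SM m L M) := by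
  rw [← Matrix.mulVec_injective_iff_isUnit]
  have h4 : (1 : Fin (m + 2)) ≠ 0 := by
    intro h
    have := Fin.ext_iff.1 h
    simp at this
  intro u v huv
  have e0 := congrFun huv 0
  have e1 := congrFun huv 1
  rw [SM_mulVec0, SM_mulVec0] at e0
  rw [SM_mulVec1, SM_mulVec1] at e1
  have h1 : u 1 = v 1 := by
    have : (M - L) * (u 1 - v 1) = 0 := by linear_combination e0 - e1
    rcases mul_eq_zero.1 this with h' | h'
    · exact absurd (by linarith) h
    · linarith
  have h0 : u 0 = v 0 := by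
    rw [h1] at e0
    linarith
  ext i
  by_cases hi0 : i = 0
  · rw [hi0, h0]
  · by_cases hi1 : i = 1
    · rw [hi1, h1]
    · have := congrFun huv i
      rwa [SM_mulVec2 u hi0 hi1, SM_mulVec2 v hi0 hi1] at this

/-- the matrix with left eigenvectors `(1, -L, 0..)`, `(1, -M, 0..)`, `e_i` and eigenvalues `d i` -/
noncomputable def mt (m : ℕ) (L M : ℝ) (d : Fin (m + 2) → ℝ) : Matrix (Fin (m + 2)) (Fin (m + 2)) ℝ :=
  (SM m L M)⁻¹ * Matrix.diagonal d * SM m L M

lemma mt_pow {m : ℕ} {L M : ℝ} (h : L ≠ M) (d : Fin (m + 2) → ℝ) (j : ℕ) :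
    mt m L M d ^ j = (SM m L M)⁻¹ * Matrix.diagonal (fun i => d i ^ j) * SM m L M := by
  have hu := SM_unit (m := m) h
  have hdet := (Matrix.isUnit_iff_isUnit_det _).1 hu
  induction j with
  | zero =>
    simp only [pow_zero]
    rw [Matrix.diagonal_one, Matrix.mul_one, Matrix.nonsing_inv_mul _ hdet]
  | succ j ih =>
    rw [pow_succ, ih, mt]
    calc (SM m L M)⁻¹ * Matrix.diagonal (fun i => d i ^ j) * SM m L M * ((SM m L M)⁻¹ * Matrix.diagonal d * SM m L M)
        = (SM m L M)⁻¹ * Matrix.diagonal (fun i => d i ^ j) * (SM m L M * (SM m L M)⁻¹) * Matrix.diagonal d * SM m L M := by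
          simp only [Matrix.mul_assoc]
      _ = (SM m L M)⁻¹ * (Matrix.diagonal (fun i => d i ^ j) * Matrix.diagonal d) * SM m L M := by
          rw [Matrix.mul_nonsing_inv _ hdet]
          simp only [Matrix.mul_one, Matrix.mul_assoc]
      _ = _ := by
          rw [Matrix.diagonal_mul_diagonal]
          simp only [pow_succ]

/-- the value of a power series at `mt` -/
lemma mt_hasSum {m : ℕ} {L M : ℝ} (h : L ≠ M) (d e : Fin (m + 2) → ℝ) (c : ℕ → ℝ)
    (hs : ∀ i, HasSum (fun j => c j * d i ^ j) (e i)) :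
    HasSum (fun j : ℕ => c j • mt m L M d ^ j) (mt m L M e) := by
  have h1 : HasSum (fun j : ℕ => (fun i => c j * d i ^ j)) e := Pi.hasSum.2 hs
  have h2 := h1.matrix_diagonal
  have h3 := (h2.mul_left ((SM m L M)⁻¹)).mul_right (SM m L M)
  have h4 : (fun j : ℕ => c j • mt m L M d ^ j) =
      fun j => (SM m L M)⁻¹ * Matrix.diagonal (fun i => c j * d i ^ j) * SM m L M := by
    ext1 j
    rw [mt_pow h]
    have : Matrix.diagonal (fun i => c j * d i ^ j) = c j • Matrix.diagonal (fun i => d i ^ j) := by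
      rw [← Matrix.diagonal_smul]
      rfl
    rw [this, Matrix.mul_smul, Matrix.smul_mul]
  rw [h4]
  exact h3

/-- the defect in eigencoordinates -/
lemma mt_rows {m : ℕ} {L M : ℝ} (h : L ≠ M) (d : Fin (m + 2) → ℝ) (q p : Fin (m + 2) → ℝ) :
    (SM m L M).mulVec ((mt m L M d).mulVec q - p) =
      fun i => d i * (SM m L M).mulVec q i - (SM m L M).mulVec p i := by
  have hdet := (Matrix.isUnit_iff_isUnit_det _).1 (SM_unit (m := m) h)
  rw [Matrix.mulVec_sub, mt, Matrix.mulVec_mulVec, ← Matrix.mul_assoc, ← Matrix.mul_assoc,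
    Matrix.mul_nonsing_inv _ hdet, Matrix.one_mul, ← Matrix.mulVec_mulVec]
  ext i
  rw [Pi.sub_apply, Matrix.mulVec_diagonal]

/-- matrices are bounded operators for the sup-norm -/
lemma exists_op {n : ℕ} (A : Matrix (Fin n) (Fin n) ℝ) :
    ∃ C : ℝ, 1 ≤ C ∧ ∀ u : Fin n → ℝ, ‖A.mulVec u‖ ≤ C * ‖u‖ := by
  have := (Matrix.toLin' A).toContinuousLinearMap.le_opNorm
  refine ⟨max 1 ‖(Matrix.toLin' A).toContinuousLinearMap‖, le_max_left _ _, fun u => ?_⟩
  have h1 := this u
  simp only [LinearMap.coe_toContinuousLinearMap', Matrix.toLin'_apply] at h1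
  exact h1.trans (mul_le_mul_of_nonneg_right (le_max_right _ _) (norm_nonneg _))

end Pool.Agent.R353.LM
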