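import Mathlib
import Pool.Agent.R353.LM.Asm1

/-!
# MP_4d0c5f_nt: Liouville and non-Liouville values (helper353)
-/

set_option autoImplicit false

open Finset

namespace Pool.Agent.R353.LM

lemma fin_one_ne_zero (m : ℕ) : (1 : Fin (m + 2)) ≠ 0 := by
  intro h
  have := Fin.ext_iff.1 h
  simp at this

lemma vec4_ne_zero {a b c d : ℤ} (h : a ≠ 0 ∨ b ≠ 0 ∨ c ≠ 0 ∨ d ≠ 0) : (![a, b, c, d] : Fin 4 → ℤ) ≠ 0 := by
  intro h0
  have a0 := congrFun h0 0
  have a1 := congrFun h0 1
  have a2 := congrFun h0 2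
  have a3 := congrFun h0 3
  simp only [Matrix.cons_val_zero, Matrix.cons_val_one, Matrix.cons_val, Pi.zero_apply] at a0 a1 a2 a3
  rcases h with h | h | h | h <;> contradiction

lemma lin_vec (L X : ℝ) (a b c d : ℤ) : lin L X ![a, b, c, d] = a + b * L + c * X + d * (L * X) := by
  unfold lin
  simp only [Matrix.cons_val_zero, Matrix.cons_val_one, Matrix.cons_val]

lemma mt_row0 {m : ℕ} {L M : ℝ} (h : L ≠ M) (d : Fin (m + 2) → ℝ) (q p : Fin (m + 2) → ℤ) :
    (SM m L M).mulVec ((mt m L M d).mulVec (toReal q) - toReal p) 0 = lin L (d 0) ![-p 0, p 1, q 0, -q 1] := by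
  rw [mt_rows h, lin_vec]
  simp only
  rw [SM_mulVec0, SM_mulVec0]
  simp only [toReal]
  push_cast
  ring

lemma mt_row1 {m : ℕ} {L M : ℝ} (h : L ≠ M) (d : Fin (m + 2) → ℝ) (q p : Fin (m + 2) → ℤ) :
    (SM m L M).mulVec ((mt m L M d).mulVec (toReal q) - toReal p) 1 = lin M (d 1) ![-p 0, p 1, q 0, -q 1] := by
  rw [mt_rows h, lin_vec]
  simp only
  rw [SM_mulVec1, SM_mulVec1]
  simp only [toReal]
  push_cast
  ring

lemma mt_row2 {m : ℕ} {L M : ℝ} (h : L ≠ M) (d : Fin (m + 2) → ℝ) (q p : Fin (m + 2) → ℤ) {i : Fin (m + 2)}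
    (h0 : i ≠ 0) (h1 : i ≠ 1) :
    (SM m L M).mulVec ((mt m L M d).mulVec (toReal q) - toReal p) i = lin L (d i) ![-p i, 0, q i, 0] := by
  rw [mt_rows h, lin_vec]
  simp only
  rw [SM_mulVec2 _ h0 h1, SM_mulVec2 _ h0 h1]
  simp only [toReal]
  push_cast
  ring

lemma mt_liouville {m : ℕ} {L M X Y : ℝ} (hLM : L ≠ M) (hX : Irr X)
    (h1 : ∀ w : Fin 4 → ℤ, w ≠ 0 → lin L X w ≠ 0)
    (h2 : ∀ N : ℕ, ∃ Q a b : ℤ, 2 ≤ Q ∧ |X * Q - a + L * b| < 1 / (Q : ℝ) ^ N ∧
      |Y * Q - a + M * b| < 1 / (Q : ℝ) ^ N) :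
    IsLiouville (mt m L M (dg m X Y)) := by
  have h10 := fin_one_ne_zero m
  have hd0 : dg m X Y 0 = X := if_neg h10.symm
  have hd1 : dg m X Y 1 = Y := if_pos rfl
  have hd2 : ∀ i : Fin (m + 2), i ≠ 1 → dg m X Y i = X := fun i hi => if_neg hi
  have hdet := (Matrix.isUnit_iff_isUnit_det _).1 (SM_unit (m := m) hLM)
  constructor
  · intro q p hqp heq
    have hz : (SM m L M).mulVec ((mt m L M (dg m X Y)).mulVec (toReal q) - toReal p) = 0 := by
      rw [heq, sub_self, Matrix.mulVec_zero]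
    have r0 := mt_row0 hLM (dg m X Y) q p
    rw [hz, hd0] at r0
    have hw : (![-p 0, p 1, q 0, -q 1] : Fin 4 → ℤ) = 0 := by
      by_contra hne
      exact h1 _ hne r0.symm
    have a0 := congrFun hw 0
    have a1 := congrFun hw 1
    have a2 := congrFun hw 2
    have a3 := congrFun hw 3
    simp only [Matrix.cons_val_zero, Matrix.cons_val_one, Matrix.cons_val, Pi.zero_apply, neg_eq_zero] at a0 a1 a2 a3
    have hall : ∀ i, q i = 0 ∧ p i = 0 := by
      intro i
      by_cases hi0 : i = 0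
      · rw [hi0]; exact ⟨a2, a0⟩
      · by_cases hi1 : i = 1
        · rw [hi1]; exact ⟨a3, a1⟩
        · have r := mt_row2 hLM (dg m X Y) q p hi0 hi1
          rw [hz, hd2 i hi1, lin_vec] at r
          have := hX (-p i) (q i) (by
            simp only [Pi.zero_apply] at r
            push_cast at r ⊢
            linarith)
          exact ⟨this.2, by linarith [this.1]⟩
    rcases hqp with h | h
    · exact h (funext fun i => (hall i).1)
    · exact h (funext fun i => (hall i).2)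
  · intro N hN
    obtain ⟨C, hC, hop⟩ := exists_op ((SM m L M)⁻¹)
    obtain ⟨s, hs⟩ := pow_unbounded_of_one_lt C (one_lt_two)
    obtain ⟨Q, a, b, hQ, hr0, hr1⟩ := h2 (⌈N⌉₊ + s)
    have hQR : (2 : ℝ) ≤ Q := by exact_mod_cast hQ
    have hQ0 : (0 : ℝ) < Q := by linarith
    refine ⟨fun i => if i = 0 then Q else 0, fun i => if i = 0 then a else if i = 1 then b else 0, ?_, ?_⟩
    · have := norm_le_pi_norm (toReal (fun i : Fin (m + 2) => if i = 0 then Q else 0)) 0
      simp only [toReal, if_true] at this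
      rw [Real.norm_eq_abs, abs_of_pos hQ0] at this
      exact lt_of_lt_of_le (by linarith) this
    · set q : Fin (m + 2) → ℤ := fun i => if i = 0 then Q else 0 with hq
      set p : Fin (m + 2) → ℤ := fun i => if i = 0 then a else if i = 1 then b else 0 with hp
      have hq0 : q 0 = Q := by simp [hq]
      have hq1 : q 1 = 0 := by simp [hq]
      have hp0 : p 0 = a := by simp [hp]
      have hp1 : p 1 = b := by simp [hp]
      have hqn : ‖toReal q‖ = Q := by
        apply le_antisymm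
        · rw [pi_norm_le_iff_of_nonneg hQ0.le]
          intro i
          simp only [toReal, hq]
          by_cases hi : i = 0
          · rw [if_pos hi, Real.norm_eq_abs, abs_of_pos hQ0]
          · rw [if_neg hi]
            simpa using hQ0.le
        · have := norm_le_pi_norm (toReal q) 0
          simp only [toReal, hq0] at this
          rwa [Real.norm_eq_abs, abs_of_pos hQ0] at this
      rw [hqn]
      set v := (mt m L M (dg m X Y)).mulVec (toReal q) - toReal p with hv
      have hv1 : ‖(SM m L M).mulVec v‖ < 1 / (Q : ℝ) ^ (⌈N⌉₊ + s) := by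
        rw [pi_norm_lt_iff (by positivity)]
        intro i
        by_cases hi0 : i = 0
        · rw [hi0, hv, mt_row0 hLM, hd0, lin_vec, hq0, hq1, hp0, hp1, Real.norm_eq_abs]
          convert hr0 using 2
          push_cast
          ring
        · by_cases hi1 : i = 1
          · rw [hi1, hv, mt_row1 hLM, hd1, lin_vec, hq0, hq1, hp0, hp1, Real.norm_eq_abs]
            convert hr1 using 2
            push_cast
            ring
          · rw [hv, mt_row2 hLM _ _ _ hi0 hi1, lin_vec]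
            have hqi : q i = 0 := by simp [hq, hi0]
            have hpi : p i = 0 := by simp [hp, hi0, hi1]
            rw [hqi, hpi]
            simp only [neg_zero, Int.cast_zero, zero_mul, add_zero, norm_zero]
            positivity
      have hv2 : v = (SM m L M)⁻¹.mulVec ((SM m L M).mulVec v) := by
        rw [Matrix.mulVec_mulVec, Matrix.nonsing_inv_mul _ hdet, Matrix.one_mulVec]
      calc ‖v‖ = ‖(SM m L M)⁻¹.mulVec ((SM m L M).mulVec v)‖ := by rw [← hv2]
        _ ≤ C * ‖(SM m L M).mulVec v‖ := hop _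
        _ < C * (1 / (Q : ℝ) ^ (⌈N⌉₊ + s)) := mul_lt_mul_of_pos_left hv1 (by linarith)
        _ ≤ (Q : ℝ) ^ s * (1 / (Q : ℝ) ^ (⌈N⌉₊ + s)) := by
            refine mul_le_mul_of_nonneg_right (hs.le.trans ?_) (by positivity)
            exact pow_le_pow_left₀ (by norm_num) hQR s
        _ = 1 / (Q : ℝ) ^ ⌈N⌉₊ := by
            rw [pow_add]
            field_simp
        _ = (Q : ℝ) ^ (-(⌈N⌉₊ : ℝ)) := by
            rw [Real.rpow_neg hQ0.le, Real.rpow_natCast, one_div]
        _ ≤ (Q : ℝ) ^ (-N) := by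
            refine Real.rpow_le_rpow_of_exponent_le (by linarith) ?_
            linarith [Nat.le_ceil N]

lemma mt_not_liouville {m : ℕ} {L M G : ℝ} (hLM : L ≠ M) (e : Fin (m + 2) → ℝ) (he : ∀ i, i ≠ 1 → e i = G)
    (h : ∃ (c : ℝ) (N : ℕ), 0 < c ∧ ∀ w : Fin 4 → ℤ, w ≠ 0 → c / ‖w‖ ^ N ≤ |lin L G w|) :
    ¬ IsLiouville (mt m L M e) := by
  rintro ⟨-, hb⟩
  obtain ⟨c, N0, hc, hw⟩ := h
  obtain ⟨CS, hCS, hopS⟩ := exists_op (SM m L M)
  obtain ⟨CB, hCB, hopB⟩ := exists_op (mt m L M e)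
  obtain ⟨s, hs⟩ := pow_unbounded_of_one_lt (CS * (CB + 1) ^ N0 / c) (one_lt_two)
  obtain ⟨q, p, hq, hqp⟩ := hb ((N0 + s + 1 : ℕ) : ℝ) (by positivity)
  set t := ‖toReal q‖ with ht
  have ht0 : 0 < t := by linarith
  have hbig : ∃ i, 1 < |(q i : ℝ)| := by
    by_contra hcon
    push Not at hcon
    have : ‖toReal q‖ ≤ 1 := by
      rw [pi_norm_le_iff_of_nonneg zero_le_one]
      intro i
      rw [Real.norm_eq_abs]
      exact hcon i
    linarith
  have hqi : ∀ i, |(q i : ℝ)| ≤ t := by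
    intro i
    have := norm_le_pi_norm (toReal q) i
    rwa [Real.norm_eq_abs] at this
  obtain ⟨i0, hi0⟩ := hbig
  have ht2 : 2 ≤ t := by
    have h1 : (1 : ℤ) < |q i0| := by
      have : ((1 : ℤ) : ℝ) < ((|q i0| : ℤ) : ℝ) := by push_cast; exact hi0
      exact_mod_cast this
    have h2 : (2 : ℤ) ≤ |q i0| := h1
    have h3 : (2 : ℝ) ≤ |(q i0 : ℝ)| := by
      have : ((2 : ℤ) : ℝ) ≤ ((|q i0| : ℤ) : ℝ) := by exact_mod_cast h2
      push_cast at this
      exact this
    exact h3.trans (hqi i0)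
  set v := (mt m L M e).mulVec (toReal q) - toReal p with hv
  have hvt : ‖v‖ < 1 / t ^ (N0 + s + 1) := by
    have := hqp
    rwa [Real.rpow_neg ht0.le, Real.rpow_natCast, ← one_div] at this
  have hpow1 : (1 : ℝ) ≤ t ^ (N0 + s + 1) := one_le_pow₀ (by linarith)
  have hv1 : ‖v‖ ≤ 1 := hvt.le.trans (by rw [div_le_one (by positivity)]; exact hpow1)
  have hpn : ‖toReal p‖ ≤ (CB + 1) * t := by
    have h1 : toReal p = (mt m L M e).mulVec (toReal q) - v := by rw [hv]; simp
    calc ‖toReal p‖ ≤ ‖(mt m L M e).mulVec (toReal q)‖ + ‖v‖ := by rw [h1]; exact norm_sub_le _ _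
      _ ≤ CB * t + 1 := add_le_add (hopB _) hv1
      _ ≤ (CB + 1) * t := by nlinarith
  have hpi : ∀ i, |(p i : ℝ)| ≤ (CB + 1) * t := by
    intro i
    have := norm_le_pi_norm (toReal p) i
    rw [Real.norm_eq_abs] at this
    exact this.trans hpn
  have hqi' : ∀ i, |(q i : ℝ)| ≤ (CB + 1) * t := fun i => (hqi i).trans (by nlinarith)
  have hSv : ∀ i, |(SM m L M).mulVec v i| ≤ CS * ‖v‖ := by
    intro i
    have := norm_le_pi_norm ((SM m L M).mulVec v) i
    rw [Real.norm_eq_abs] at this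
    exact this.trans (hopS v)
  have hB0 : 0 ≤ (CB + 1) * t := by positivity
  have key : ∃ w : Fin 4 → ℤ, w ≠ 0 ∧ ‖w‖ ≤ (CB + 1) * t ∧ |lin L G w| ≤ CS * ‖v‖ := by
    by_cases hall : (-p 0 ≠ 0 ∨ p 1 ≠ 0 ∨ q 0 ≠ 0 ∨ -q 1 ≠ 0)
    · refine ⟨![-p 0, p 1, q 0, -q 1], vec4_ne_zero hall, ?_, ?_⟩
      · apply norm_le_of hB0
        · simp only [Matrix.cons_val_zero]
          push_cast
          rw [abs_neg]
          exact hpi 0
        · simp only [Matrix.cons_val_one]
          exact hpi 1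
        · simp only [Matrix.cons_val]
          exact hqi' 0
        · simp only [Matrix.cons_val]
          push_cast
          rw [abs_neg]
          exact hqi' 1
      · have := hSv 0
        rwa [hv, mt_row0 hLM, he 0 (fin_one_ne_zero m).symm] at this
    · push Not at hall
      obtain ⟨b0, b1, b2, b3⟩ := hall
      have hi00 : i0 ≠ 0 := by
        intro h
        rw [h, b2] at hi0
        simp at hi0
        linarith
      have hi01 : i0 ≠ 1 := by
        intro h
        rw [h, neg_eq_zero.1 b3] at hi0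
        simp at hi0
        linarith
      have hne : q i0 ≠ 0 := by
        intro h
        rw [h] at hi0
        simp at hi0
        linarith
      refine ⟨![-p i0, 0, q i0, 0], vec4_ne_zero (Or.inr (Or.inr (Or.inl hne))), ?_, ?_⟩
      · apply norm_le_of hB0
        · simp only [Matrix.cons_val_zero]
          push_cast
          rw [abs_neg]
          exact hpi i0
        · simp only [Matrix.cons_val_one]
          simpa using hB0
        · simp only [Matrix.cons_val]
          exact hqi' i0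
        · simp only [Matrix.cons_val]
          simpa using hB0
      · have := hSv i0
        rwa [hv, mt_row2 hLM _ _ _ hi00 hi01, he i0 hi01] at this
  obtain ⟨w, hw0, hwn, hwl⟩ := key
  have hwpos : 0 < ‖w‖ := lt_of_lt_of_le one_pos (one_le_norm hw0)
  have k1 : c / ((CB + 1) * t) ^ N0 ≤ CS * (1 / t ^ (N0 + s + 1)) := by
    calc c / ((CB + 1) * t) ^ N0 ≤ c / ‖w‖ ^ N0 :=
          div_le_div_of_nonneg_left hc.le (by positivity) (pow_le_pow_left₀ hwpos.le hwn N0)
      _ ≤ |lin L G w| := hw w hw0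
      _ ≤ CS * ‖v‖ := hwl
      _ ≤ CS * (1 / t ^ (N0 + s + 1)) := mul_le_mul_of_nonneg_left hvt.le (by linarith)
  have hCB1 : 0 < CB + 1 := by linarith
  have k2 : c * t ^ (s + 1) ≤ CS * (CB + 1) ^ N0 := by
    have h3 : c / ((CB + 1) * t) ^ N0 * (((CB + 1) * t) ^ N0 * t ^ (s + 1)) ≤
        CS * (1 / t ^ (N0 + s + 1)) * (((CB + 1) * t) ^ N0 * t ^ (s + 1)) :=
      mul_le_mul_of_nonneg_right k1 (by positivity)
    have h4 : c / ((CB + 1) * t) ^ N0 * (((CB + 1) * t) ^ N0 * t ^ (s + 1)) = c * t ^ (s + 1) := by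
      field_simp
    have h5 : CS * (1 / t ^ (N0 + s + 1)) * (((CB + 1) * t) ^ N0 * t ^ (s + 1)) = CS * (CB + 1) ^ N0 := by
      rw [mul_pow, show N0 + s + 1 = N0 + (s + 1) by ring, pow_add]
      field_simp
    rwa [h4, h5] at h3
  have k3 : (2 : ℝ) ^ s ≤ t ^ (s + 1) := by
    calc (2 : ℝ) ^ s ≤ t ^ s := pow_le_pow_left₀ (by norm_num) ht2 s
      _ ≤ t ^ (s + 1) := pow_le_pow_right₀ (by linarith) (Nat.le_succ s)
  rw [div_lt_iff₀ hc] at hs
  nlinarith

end Pool.Agent.R353.LM
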