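import Pool.Agent.R353.LM.Stm

/-!
# Part D2 (written by helper209): near a regular point almost all points are Diophantine
The sublevel estimate of van der Corput type is the local version of `Pool.Agent.TH433.MC.vdc`.
-/

set_option autoImplicit false

open Set MeasureTheory

namespace Pool.Agent.R353.LM

namespace D2

/-- A chain of derivatives on `U`. -/
def LChain (U : Set ℝ) (F : ℕ → ℝ → ℝ) : Prop := ∀ j, ∀ x ∈ U, HasDerivAt (F j) (F (j + 1) x) x

theorem LChain.neg {U : Set ℝ} {F : ℕ → ℝ → ℝ} (h : LChain U F) : LChain U (fun j x => - F j x) :=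
  fun j x hx => (h j x hx).neg

theorem vol_diam {T : Set ℝ} {d : ℝ} (h : ∀ x ∈ T, ∀ y ∈ T, |x - y| ≤ d) :
    volume T ≤ ENNReal.ofReal (2 * d) := by
  rcases T.eq_empty_or_nonempty with rfl | ⟨x₀, hx₀⟩
  · simp
  · have hsub : T ⊆ Icc (x₀ - d) (x₀ + d) := by
      intro y hy
      have := abs_le.1 (h x₀ hx₀ y hy)
      exact ⟨by linarith, by linarith⟩
    refine (measure_mono hsub).trans (le_of_eq ?_)
    rw [Real.volume_Icc]
    congr 1
    ring

theorem slope_large {f f' : ℝ → ℝ} {S : Set ℝ} (hS : S.OrdConnected) {c ε : ℝ} (hc : 0 < c)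
    (hf : ∀ x ∈ S, HasDerivAt f (f' x) x) (h : ∀ x ∈ S, c ≤ |f' x|) :
    volume {x | x ∈ S ∧ |f x| ≤ ε} ≤ ENNReal.ofReal (4 * (ε / c)) := by
  have key : ∀ x ∈ {x | x ∈ S ∧ |f x| ≤ ε}, ∀ y ∈ {x | x ∈ S ∧ |f x| ≤ ε}, x < y →
      y - x ≤ 2 * ε / c := by
    rintro x ⟨hx, hfx⟩ y ⟨hy, hfy⟩ hxy
    obtain ⟨z, hz, hzz⟩ := exists_hasDerivAt_eq_slope f f' hxy
      (fun w hw => (hf w (hS.out hx hy hw)).continuousAt.continuousWithinAt)
      (fun w hw => hf w (hS.out hx hy ⟨hw.1.le, hw.2.le⟩))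
    have hzS : z ∈ S := hS.out hx hy ⟨hz.1.le, hz.2.le⟩
    have h1 := h z hzS
    rw [hzz, abs_div, abs_of_pos (sub_pos.2 hxy), le_div_iff₀ (sub_pos.2 hxy)] at h1
    rw [le_div_iff₀ hc]
    have h2 : |f y - f x| ≤ 2 * ε := by
      have h3 := abs_le.1 hfx
      have h4 := abs_le.1 hfy
      rw [abs_le]
      constructor <;> linarith
    linarith
  refine (vol_diam (d := 2 * ε / c) ?_).trans (le_of_eq ?_)
  · intro x hx y hy
    rcases lt_trichotomy x y with hxy | hxy | hxy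
    · rw [abs_sub_comm, abs_of_pos (sub_pos.2 hxy)]
      exact key x hx y hy hxy
    · have hε : 0 ≤ ε := (abs_nonneg _).trans hx.2
      rw [hxy, sub_self, abs_zero]
      positivity
    · rw [abs_of_pos (sub_pos.2 hxy)]
      exact key y hy x hx hxy
  · congr 1
    ring

theorem chain_mono {U : Set ℝ} {F : ℕ → ℝ → ℝ} (hF : LChain U F) {k : ℕ} {S : Set ℝ}
    (hSU : S ⊆ U) (hS : S.OrdConnected)
    {c : ℝ} (hc : 0 < c) (h : ∀ x ∈ S, c ≤ F (k + 1) x) :
    ∀ x ∈ S, ∀ y ∈ S, x ≤ y → F k x ≤ F k y := by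
  intro x hx y hy hxy
  rcases hxy.eq_or_lt with rfl | hlt
  · exact le_rfl
  · obtain ⟨z, hz, hzz⟩ := exists_hasDerivAt_eq_slope (F k) (F (k + 1)) hlt
      (fun w hw => (hF k w (hSU (hS.out hx hy hw))).continuousAt.continuousWithinAt)
      (fun w hw => hF k w (hSU (hS.out hx hy ⟨hw.1.le, hw.2.le⟩)))
    have h1 := h z (hS.out hx hy ⟨hz.1.le, hz.2.le⟩)
    rw [hzz, le_div_iff₀ (sub_pos.2 hlt)] at h1
    nlinarith [mul_pos hc (sub_pos.2 hlt)]

/-- The sublevel estimate of van der Corput type (local version). -/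
theorem vdc (k : ℕ) : ∃ C : ℝ, 0 < C ∧ ∀ (U : Set ℝ) (F : ℕ → ℝ → ℝ), LChain U F → ∀ S : Set ℝ,
    S ⊆ U → S.OrdConnected →
    ∀ c ε : ℝ, 0 < c → 0 < ε → ((∀ x ∈ S, c ≤ F (k + 1) x) ∨ (∀ x ∈ S, F (k + 1) x ≤ -c)) →
      volume {x | x ∈ S ∧ |F 0 x| ≤ ε} ≤
        ENNReal.ofReal (C * (ε / c) ^ ((1 : ℝ) / ((k : ℝ) + 1))) := by
  induction k with
  | zero =>
    refine ⟨4, by norm_num, ?_⟩
    intro U F hF S hSU hS c ε hc hε h
    have h1 := slope_large (ε := ε) hS hc (fun x hx => hF 0 x (hSU hx)) (by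
      intro x hx
      rcases h with h | h
      · exact (h x hx).trans (le_abs_self _)
      · have := h x hx
        exact (by linarith : c ≤ -F (0 + 1) x).trans (neg_le_abs _))
    refine h1.trans (le_of_eq ?_)
    congr 1
    norm_num
  | succ k ih =>
    obtain ⟨C, hC, ih⟩ := ih
    have key : ∀ (U : Set ℝ) (F : ℕ → ℝ → ℝ), LChain U F → ∀ S : Set ℝ, S ⊆ U → S.OrdConnected →
        ∀ c ε : ℝ, 0 < c → 0 < ε → (∀ x ∈ S, c ≤ F (k + 1 + 1) x) →
        volume {x | x ∈ S ∧ |F 0 x| ≤ ε} ≤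
          ENNReal.ofReal ((4 + 2 * C) * (ε / c) ^ ((1 : ℝ) / (((k + 1 : ℕ) : ℝ) + 1))) := by
      intro U F hF S hSU hS c ε hc hε h
      set T : ℝ := (ε / c) ^ ((1 : ℝ) / (((k + 1 : ℕ) : ℝ) + 1)) with hT
      have hεc : 0 < ε / c := div_pos hε hc
      have hT0 : 0 < T := Real.rpow_pos_of_pos hεc _
      set l : ℝ := c * T with hl
      have hl0 : 0 < l := mul_pos hc hT0
      have hmono := chain_mono hF (k := k + 1) hSU hS hc h
      -- the middle part
      have h1 : volume {x | x ∈ S ∧ |F (k + 1) x| ≤ l} ≤ ENNReal.ofReal (4 * T) := by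
        refine (slope_large (ε := l) hS hc (fun x hx => hF (k + 1) x (hSU hx)) (fun x hx =>
          (h x hx).trans (le_abs_self _))).trans (le_of_eq ?_)
        rw [hl, mul_div_cancel_left₀ _ hc.ne']
      have hpow : (ε / l) ^ ((1 : ℝ) / ((k : ℝ) + 1)) = T := by
        have e1 : ε / l = (ε / c) ^ (1 - (1 : ℝ) / (((k + 1 : ℕ) : ℝ) + 1)) := by
          rw [Real.rpow_sub hεc, Real.rpow_one, ← hT, hl]
          field_simp
        rw [e1, ← Real.rpow_mul hεc.le, hT]
        congr 1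
        push_cast
        have : (k : ℝ) + 1 ≠ 0 := by positivity
        have h2 : (k : ℝ) + 1 + 1 ≠ 0 := by positivity
        field_simp
        ring
      -- the upper part
      have h2 : volume {x | x ∈ {x | x ∈ S ∧ l ≤ F (k + 1) x} ∧ |F 0 x| ≤ ε} ≤
          ENNReal.ofReal (C * T) := by
        rw [← hpow]
        refine ih U F hF _ (fun x hx => hSU hx.1) ?_ l ε hl0 hε (Or.inl fun x hx => hx.2)
        refine ⟨fun x hx y hy z hz => ⟨hS.out hx.1 hy.1 hz, ?_⟩⟩
        exact hx.2.trans (hmono x hx.1 z (hS.out hx.1 hy.1 hz) hz.1)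
      -- the lower part
      have h3 : volume {x | x ∈ {x | x ∈ S ∧ F (k + 1) x ≤ -l} ∧ |F 0 x| ≤ ε} ≤
          ENNReal.ofReal (C * T) := by
        rw [← hpow]
        refine ih U F hF _ (fun x hx => hSU hx.1) ?_ l ε hl0 hε (Or.inr fun x hx => hx.2)
        refine ⟨fun x hx y hy z hz => ⟨hS.out hx.1 hy.1 hz, ?_⟩⟩
        exact (hmono z (hS.out hx.1 hy.1 hz) y hy.1 hz.2).trans hy.2
      have hsub : {x | x ∈ S ∧ |F 0 x| ≤ ε} ⊆
          ({x | x ∈ S ∧ |F (k + 1) x| ≤ l} ∪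
            {x | x ∈ {x | x ∈ S ∧ l ≤ F (k + 1) x} ∧ |F 0 x| ≤ ε}) ∪
            {x | x ∈ {x | x ∈ S ∧ F (k + 1) x ≤ -l} ∧ |F 0 x| ≤ ε} := by
        rintro x ⟨hx, hx0⟩
        by_cases ha : |F (k + 1) x| ≤ l
        · exact Or.inl (Or.inl ⟨hx, ha⟩)
        · rw [abs_le, not_and_or] at ha
          push Not at ha
          rcases ha with ha | ha
          · exact Or.inr ⟨⟨hx, ha.le⟩, hx0⟩
          · exact Or.inl (Or.inr ⟨⟨hx, ha.le⟩, hx0⟩)
      calc volume {x | x ∈ S ∧ |F 0 x| ≤ ε}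
          ≤ ENNReal.ofReal (4 * T) + ENNReal.ofReal (C * T) + ENNReal.ofReal (C * T) :=
            (measure_mono hsub).trans ((measure_union_le _ _).trans
              (add_le_add ((measure_union_le _ _).trans (add_le_add h1 h2)) h3))
        _ = ENNReal.ofReal ((4 + 2 * C) * T) := by
            rw [← ENNReal.ofReal_add (by positivity) (by positivity),
              ← ENNReal.ofReal_add (by positivity) (by positivity)]
            congr 1
            ring
    refine ⟨4 + 2 * C, by positivity, ?_⟩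
    intro U F hF S hSU hS c ε hc hε h
    rcases h with h | h
    · exact key U F hF S hSU hS c ε hc hε h
    · have h1 := key U (fun j x => - F j x) hF.neg S hSU hS c ε hc hε (fun x hx => by
        have := h x hx
        linarith)
      simpa only [abs_neg] using h1

/-! ### the chain of an analytic function -/

theorem analytic_iter {I : Set ℝ} {f : ℝ → ℝ} (hf : AnalyticOnNhd ℝ f I) (j : ℕ) :
    AnalyticOnNhd ℝ (iteratedDeriv j f) I := by
  induction j with
  | zero => simpa [iteratedDeriv_zero] using hf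
  | succ j ih =>
    rw [iteratedDeriv_succ]
    exact ih.deriv

theorem chain_analytic {I : Set ℝ} {f : ℝ → ℝ} (hf : AnalyticOnNhd ℝ f I) :
    LChain I (fun j => iteratedDeriv j f) := by
  intro j x hx
  have h := ((analytic_iter hf j) x hx).differentiableAt.hasDerivAt
  rw [← iteratedDeriv_succ] at h
  exact h

/-- the four basic functions -/
def phi (f g : ℝ → ℝ) (i : Fin 4) : ℝ → ℝ :=
  ![fun _ => 1, f, g, fun t => f t * g t] i

/-- the combination -/
def psi (f g : ℝ → ℝ) (w : Fin 4 → ℝ) : ℝ → ℝ :=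
  fun t => w 0 + w 1 * f t + w 2 * g t + w 3 * (f t * g t)

theorem psi_eq (f g : ℝ → ℝ) (w : Fin 4 → ℝ) (t : ℝ) :
    psi f g w t = ∑ i, w i * phi f g i t := by
  simp [psi, phi, Fin.sum_univ_four]

theorem phi_analytic {I : Set ℝ} {f g : ℝ → ℝ} (hf : AnalyticOnNhd ℝ f I)
    (hg : AnalyticOnNhd ℝ g I) (i : Fin 4) : AnalyticOnNhd ℝ (phi f g i) I := by
  fin_cases i
  · exact analyticOnNhd_const
  · exact hf
  · exact hg
  · exact hf.mul hg

theorem psi_analytic {I : Set ℝ} {f g : ℝ → ℝ} (hf : AnalyticOnNhd ℝ f I)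
    (hg : AnalyticOnNhd ℝ g I) (w : Fin 4 → ℝ) : AnalyticOnNhd ℝ (psi f g w) I :=
  ((analyticOnNhd_const.add (analyticOnNhd_const.mul hf)).add
    (analyticOnNhd_const.mul hg)).add (analyticOnNhd_const.mul (hf.mul hg))

theorem iter_psi {I : Set ℝ} (hI : IsOpen I) {f g : ℝ → ℝ} (hf : AnalyticOnNhd ℝ f I)
    (hg : AnalyticOnNhd ℝ g I) (w : Fin 4 → ℝ) (j : ℕ) :
    ∀ x ∈ I, iteratedDeriv j (psi f g w) x = ∑ i, w i * iteratedDeriv j (phi f g i) x := by
  induction j with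
  | zero =>
    intro x _
    simp only [iteratedDeriv_zero]
    exact psi_eq f g w x
  | succ j ih =>
    intro x hx
    have h1 := chain_analytic (psi_analytic hf hg w) j x hx
    have h2 : HasDerivAt (fun y => ∑ i, w i * iteratedDeriv j (phi f g i) y)
        (∑ i, w i * iteratedDeriv (j + 1) (phi f g i) x) x := by
      apply HasDerivAt.fun_sum
      intro i _
      exact (chain_analytic (phi_analytic hf hg i) j x hx).const_mul (w i)
    have h3 : iteratedDeriv j (psi f g w) =ᶠ[nhds x]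
        fun y => ∑ i, w i * iteratedDeriv j (phi f g i) y := by
      filter_upwards [hI.mem_nhds hx] with y hy
      exact ih y hy
    exact h1.unique (h2.congr_of_eventuallyEq h3)

/-- the linear map of the values of the derivatives at `x₀` -/
noncomputable def T (f g : ℝ → ℝ) (x₀ : ℝ) : (Fin 4 → ℝ) →ₗ[ℝ] (Fin 4 → ℝ) where
  toFun w j := ∑ i, w i * iteratedDeriv (j : ℕ) (phi f g i) x₀
  map_add' v w := by
    funext j
    simp only [Pi.add_apply, add_mul, Finset.sum_add_distrib]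
  map_smul' c w := by
    funext j
    simp only [Pi.smul_apply, smul_eq_mul, RingHom.id_apply, Finset.mul_sum, mul_assoc]

theorem exists_large {I : Set ℝ} (hI : IsOpen I) {f g : ℝ → ℝ} (hf : AnalyticOnNhd ℝ f I)
    (hg : AnalyticOnNhd ℝ g I) {x₀ : ℝ} (hx₀ : x₀ ∈ I) (hreg : Reg f g x₀) :
    ∃ c : ℝ, 0 < c ∧ ∀ w : Fin 4 → ℝ, w ≠ 0 →
      ∃ j : Fin 4, c * ‖w‖ ≤ |∑ i, w i * iteratedDeriv (j : ℕ) (phi f g i) x₀| := by
  have hker : LinearMap.ker (T f g x₀) = ⊥ := by
    rw [LinearMap.ker_eq_bot']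
    intro w hw
    apply hreg w
    intro j hj
    have h1 := iter_psi hI hf hg w j x₀ hx₀
    have h2 : iteratedDeriv j (psi f g w) x₀ = 0 := by
      rw [h1]
      have := congrFun hw ⟨j, by omega⟩
      simpa [T] using this
    exact h2
  obtain ⟨K, hK, hanti⟩ := LinearMap.exists_antilipschitzWith (T f g x₀) hker
  have hK' : (0 : ℝ) < K := by exact_mod_cast hK
  refine ⟨1 / K, by positivity, ?_⟩
  intro w hw
  by_contra hcon
  push Not at hcon
  have h1 : ‖w‖ ≤ K * ‖T f g x₀ w‖ := by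
    have := hanti.le_mul_dist w 0
    simpa [dist_eq_norm] using this
  have hw0 : 0 < ‖w‖ := norm_pos_iff.2 hw
  have h2 : ‖T f g x₀ w‖ < 1 / K * ‖w‖ := by
    rw [pi_norm_lt_iff (by positivity)]
    intro j
    rw [Real.norm_eq_abs]
    exact hcon j
  have h3 : (K : ℝ) * ‖T f g x₀ w‖ < K * (1 / K * ‖w‖) := mul_lt_mul_of_pos_left h2 hK'
  have h4 : (K : ℝ) * (1 / K * ‖w‖) = ‖w‖ := by field_simp
  linarith

/-- the sublevel sets of all combinations near a regular point -/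
theorem small_sets {I : Set ℝ} (hI : IsOpen I) {f g : ℝ → ℝ} (hf : AnalyticOnNhd ℝ f I)
    (hg : AnalyticOnNhd ℝ g I) {x₀ : ℝ} (hx₀ : x₀ ∈ I) (hreg : Reg f g x₀) :
    ∃ r : ℝ, 0 < r ∧ ∃ C δ : ℝ, 0 < C ∧ 0 < δ ∧ ∀ w : Fin 4 → ℝ, 1 ≤ ‖w‖ → ∀ ε : ℝ, 0 < ε → ε < δ →
      volume {x | |x - x₀| < r ∧ |psi f g w x| ≤ ε} ≤ ENNReal.ofReal (C * ε ^ ((1 : ℝ) / 3)) := by
  obtain ⟨c, hc, hlarge⟩ := exists_large hI hf hg hx₀ hreg
  -- the neighbourhood
  have hnear : ∀ᶠ x in nhds x₀, x ∈ I ∧ ∀ i j : Fin 4,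
      |iteratedDeriv (j : ℕ) (phi f g i) x - iteratedDeriv (j : ℕ) (phi f g i) x₀| < c / 8 := by
    have hI' : ∀ᶠ x in nhds x₀, x ∈ I := hI.mem_nhds hx₀
    refine hI'.and ?_
    rw [Filter.eventually_all]
    intro i
    rw [Filter.eventually_all]
    intro j
    have hcont : ContinuousAt (iteratedDeriv (j : ℕ) (phi f g i)) x₀ :=
      (analytic_iter (phi_analytic hf hg i) j x₀ hx₀).continuousAt
    have := Metric.tendsto_nhds.1 hcont (c / 8) (by positivity)
    simpa [Real.dist_eq] using this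
  obtain ⟨r, hr, hball⟩ := Metric.eventually_nhds_iff.1 hnear
  choose Ck hCk hvdc using vdc
  set δ : ℝ := c / 2 with hδ
  have hδ0 : 0 < δ := by positivity
  set C' : ℝ := Ck 0 + Ck 1 + Ck 2 with hC'
  have hC'0 : 0 < C' := by have := hCk 0; have := hCk 1; have := hCk 2; positivity
  refine ⟨r, hr, C' * (1 / δ) ^ ((1 : ℝ) / 3), δ, by positivity, hδ0, ?_⟩
  intro w hw ε hε hεδ
  have hw0 : w ≠ 0 := by
    rintro rfl
    simp at hw
    linarith
  obtain ⟨j, hj⟩ := hlarge w hw0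
  set S : Set ℝ := {x | |x - x₀| < r} with hS
  have hSI : S ⊆ I := fun x hx => (hball (show dist x x₀ < r from hx)).1
  have hSo : S.OrdConnected := by
    refine ⟨fun x hx y hy z hz => ?_⟩
    have h1 := abs_lt.1 (show |x - x₀| < r from hx)
    have h2 := abs_lt.1 (show |y - x₀| < r from hy)
    show |z - x₀| < r
    rw [abs_lt]
    exact ⟨by linarith [hz.1], by linarith [hz.2]⟩
  have hclose : ∀ x ∈ S, |iteratedDeriv (j : ℕ) (psi f g w) x -
      iteratedDeriv (j : ℕ) (psi f g w) x₀| ≤ c / 2 * ‖w‖ := by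
    intro x hx
    obtain ⟨hxI, hx1⟩ := hball (show dist x x₀ < r from hx)
    rw [iter_psi hI hf hg w j x hxI, iter_psi hI hf hg w j x₀ hx₀, ← Finset.sum_sub_distrib]
    calc |∑ i, (w i * iteratedDeriv (j : ℕ) (phi f g i) x -
          w i * iteratedDeriv (j : ℕ) (phi f g i) x₀)|
        ≤ ∑ i, |w i * iteratedDeriv (j : ℕ) (phi f g i) x -
          w i * iteratedDeriv (j : ℕ) (phi f g i) x₀| := Finset.abs_sum_le_sum_abs _ _
      _ ≤ ∑ _i : Fin 4, ‖w‖ * (c / 8) := by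
          apply Finset.sum_le_sum
          intro i _
          rw [← mul_sub, abs_mul]
          exact mul_le_mul (by simpa using norm_le_pi_norm w i) (hx1 i j).le (abs_nonneg _)
            (norm_nonneg _)
      _ = c / 2 * ‖w‖ := by
          simp
          ring
  have hj' : c * ‖w‖ ≤ |iteratedDeriv (j : ℕ) (psi f g w) x₀| := by
    rw [iter_psi hI hf hg w j x₀ hx₀]
    exact hj
  have hδw : δ ≤ c / 2 * ‖w‖ := by
    rw [hδ]
    nlinarith
  have hsign : (∀ x ∈ S, δ ≤ iteratedDeriv (j : ℕ) (psi f g w) x) ∨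
      (∀ x ∈ S, iteratedDeriv (j : ℕ) (psi f g w) x ≤ -δ) := by
    rcases le_or_gt 0 (iteratedDeriv (j : ℕ) (psi f g w) x₀) with h | h
    · left
      intro x hx
      rw [abs_of_nonneg h] at hj'
      have := abs_le.1 (hclose x hx)
      linarith
    · right
      intro x hx
      rw [abs_of_neg h] at hj'
      have := abs_le.1 (hclose x hx)
      linarith
  have hfrac : 0 < ε / δ := by positivity
  have hfrac1 : ε / δ ≤ 1 := by
    rw [div_le_one hδ0]
    exact hεδ.le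
  have hfin : ∀ k : ℕ, k ≤ 2 → ((∀ x ∈ S, δ ≤ iteratedDeriv (k + 1) (psi f g w) x) ∨
      (∀ x ∈ S, iteratedDeriv (k + 1) (psi f g w) x ≤ -δ)) →
      volume {x | |x - x₀| < r ∧ |psi f g w x| ≤ ε} ≤
        ENNReal.ofReal (C' * (1 / δ) ^ ((1 : ℝ) / 3) * ε ^ ((1 : ℝ) / 3)) := by
    intro k hk h
    have h1 := hvdc k I (fun j => iteratedDeriv j (psi f g w))
      (chain_analytic (psi_analytic hf hg w)) S hSI hSo δ ε hδ0 hε h
    have h2 : {x | |x - x₀| < r ∧ |psi f g w x| ≤ ε} =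
        {x | x ∈ S ∧ |(fun j => iteratedDeriv j (psi f g w)) 0 x| ≤ ε} := by
      ext x
      simp [hS, iteratedDeriv_zero]
    rw [h2]
    refine h1.trans (ENNReal.ofReal_le_ofReal ?_)
    have h5 : (ε / δ) ^ ((1 : ℝ) / ((k : ℝ) + 1)) ≤ (ε / δ) ^ ((1 : ℝ) / 3) := by
      apply Real.rpow_le_rpow_of_exponent_ge hfrac hfrac1
      apply one_div_le_one_div_of_le (by positivity)
      have : (k : ℝ) ≤ 2 := by exact_mod_cast hk
      linarith
    have h6 : Ck k ≤ C' := by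
      have := hCk 0; have := hCk 1; have := hCk 2
      rw [hC']
      interval_cases k <;> linarith
    have h7 : (ε / δ) ^ ((1 : ℝ) / 3) = (1 / δ) ^ ((1 : ℝ) / 3) * ε ^ ((1 : ℝ) / 3) := by
      rw [← Real.mul_rpow (by positivity) hε.le]
      congr 1
      field_simp
    calc Ck k * (ε / δ) ^ ((1 : ℝ) / ((k : ℝ) + 1))
        ≤ C' * (ε / δ) ^ ((1 : ℝ) / 3) := mul_le_mul h6 h5 (Real.rpow_nonneg hfrac.le _) hC'0.le
      _ = C' * (1 / δ) ^ ((1 : ℝ) / 3) * ε ^ ((1 : ℝ) / 3) := by rw [h7]; ring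
  obtain ⟨j, hj4⟩ := j
  rcases Nat.eq_zero_or_pos j with hj0 | hj0
  · subst hj0
    have hempty : {x | |x - x₀| < r ∧ |psi f g w x| ≤ ε} = ∅ := by
      ext x
      simp only [Set.mem_ofPred_eq, Set.mem_empty_iff_false, iff_false, not_and, not_le]
      intro hx
      simp only [iteratedDeriv_zero] at hsign
      rcases hsign with h | h
      · exact hεδ.trans_le ((h x hx).trans (le_abs_self _))
      · have := h x hx
        exact hεδ.trans_le ((by linarith : δ ≤ -psi f g w x).trans (neg_le_abs _))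
    rw [hempty, measure_empty]
    exact bot_le
  · obtain ⟨k, rfl⟩ : ∃ k, j = k + 1 := ⟨j - 1, by omega⟩
    exact hfin k (by omega) hsign

/-! ### summability -/

theorem summable_int : Summable fun n : ℤ => (((1 : ℝ) + |(n : ℝ)|) ^ 2)⁻¹ := by
  have h : Summable fun n : ℕ => (((1 : ℝ) + (n : ℝ)) ^ 2)⁻¹ := by
    have h1 := (summable_nat_add_iff 1).2 (Real.summable_one_div_nat_pow.2 one_lt_two)
    refine h1.congr ?_
    intro n
    push_cast
    rw [one_div, add_comm]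
  apply Summable.of_nat_of_neg
  · refine h.congr ?_
    intro n
    simp
  · refine h.congr ?_
    intro n
    simp

theorem summable_prod : Summable fun w : Fin 4 → ℤ =>
    ∏ i, (((1 : ℝ) + |(w i : ℝ)|) ^ 2)⁻¹ := by
  classical
  set F : ℤ → ℝ := fun n => (((1 : ℝ) + |(n : ℝ)|) ^ 2)⁻¹ with hF
  have hF0 : ∀ n, 0 ≤ F n := fun n => by positivity
  refine summable_of_sum_le (c := (∑' n, F n) ^ 4) (fun w => Finset.prod_nonneg fun i _ => hF0 _) ?_
  intro s
  have h1 : s ⊆ Fintype.piFinset (fun i : Fin 4 => s.image (fun w => w i)) := by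
    intro w hw
    rw [Fintype.mem_piFinset]
    intro i
    exact Finset.mem_image_of_mem _ hw
  calc ∑ w ∈ s, ∏ i, F (w i)
      ≤ ∑ w ∈ Fintype.piFinset (fun i : Fin 4 => s.image (fun w => w i)), ∏ i, F (w i) :=
        Finset.sum_le_sum_of_subset_of_nonneg h1 (fun w _ _ => Finset.prod_nonneg fun i _ => hF0 _)
    _ = ∏ i : Fin 4, ∑ n ∈ s.image (fun w => w i), F n := by
        rw [Finset.prod_univ_sum]
    _ ≤ ∏ _i : Fin 4, ∑' n, F n := by
        apply Finset.prod_le_prod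
        · intro i _
          exact Finset.sum_nonneg fun n _ => hF0 n
        · intro i _
          exact Summable.sum_le_tsum _ (fun n _ => hF0 n) summable_int
    _ = (∑' n, F n) ^ 4 := by simp

theorem one_le_norm {w : Fin 4 → ℤ} (hw : w ≠ 0) : 1 ≤ ‖w‖ := by
  obtain ⟨i, hi⟩ := Function.ne_iff.1 hw
  have h1 := norm_le_pi_norm w i
  have h2 : (1 : ℝ) ≤ ‖w i‖ := by
    rw [Int.norm_eq_abs]
    exact_mod_cast Int.one_le_abs hi
  linarith

theorem summable_norm : Summable fun w : Fin 4 → ℤ => (‖w‖ ^ 8)⁻¹ := by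
  refine Summable.of_nonneg_of_le (fun w => by positivity) ?_ (summable_prod.mul_left (2 ^ 8))
  intro w
  by_cases hw : w = 0
  · subst hw
    have : 0 ≤ 2 ^ 8 * ∏ i : Fin 4, (((1 : ℝ) + |(((0 : Fin 4 → ℤ) i : ℤ) : ℝ)|) ^ 2)⁻¹ := by
      positivity
    simp
  · have h1 := one_le_norm hw
    have h2 : ∏ i, ((1 : ℝ) + |(w i : ℝ)|) ^ 2 ≤ ∏ _i : Fin 4, (2 * ‖w‖) ^ 2 := by
      apply Finset.prod_le_prod
      · intro i _
        positivity
      · intro i _
        have h3 : |(w i : ℝ)| ≤ ‖w‖ := by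
          have := norm_le_pi_norm w i
          rwa [Int.norm_eq_abs] at this
        apply pow_le_pow_left₀ (by positivity)
        linarith
    have h4 : ∏ _i : Fin 4, (2 * ‖w‖) ^ 2 = 2 ^ 8 * ‖w‖ ^ 8 := by
      simp
      ring
    rw [h4] at h2
    rw [Finset.prod_inv_distrib]
    have h5 : 0 < ∏ i, ((1 : ℝ) + |(w i : ℝ)|) ^ 2 := by positivity
    have h6 : 0 < ‖w‖ ^ 8 := by positivity
    rw [← div_eq_mul_inv, inv_eq_one_div, div_le_div_iff₀ h6 h5]
    linarith

theorem norm_cast_real (w : Fin 4 → ℤ) : ‖fun i => (w i : ℝ)‖ = ‖w‖ := by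
  apply le_antisymm
  · rw [pi_norm_le_iff_of_nonneg (norm_nonneg _)]
    intro i
    have := norm_le_pi_norm w i
    rwa [Int.norm_eq_abs] at this
  · rw [pi_norm_le_iff_of_nonneg (norm_nonneg _)]
    intro i
    have := norm_le_pi_norm (fun i => (w i : ℝ)) i
    rw [Int.norm_eq_abs]
    exact this

end D2

open D2 in
theorem d2 : St_D2 := by
  intro I f g hI hf hg x₀ hx₀ hreg
  obtain ⟨r, hr, C, δ, hC, hδ, hsmall⟩ := small_sets hI hf hg hx₀ hreg
  refine ⟨r, hr, ?_⟩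
  have hlin : ∀ (w : Fin 4 → ℤ) (x : ℝ), lin (f x) (g x) w = psi f g (fun i => (w i : ℝ)) x :=
    fun w x => rfl
  set η : ℝ := min 1 (δ / 2) with hη
  have hη0 : 0 < η := by positivity
  have hη1 : η ≤ 1 := min_le_left _ _
  have hηδ : η < δ := lt_of_le_of_lt (min_le_right _ _) (by linarith)
  -- the exceptional sets
  set s : (Fin 4 → ℤ) → Set ℝ := fun w =>
    {x | w ≠ 0 ∧ |x - x₀| < r ∧ |psi f g (fun i => (w i : ℝ)) x| ≤ η / ‖w‖ ^ 24} with hs
  have hvol : ∀ w, volume (s w) ≤ ENNReal.ofReal (C * (‖w‖ ^ 8)⁻¹) := by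
    intro w
    by_cases hw : w = 0
    · have : s w = ∅ := by
        ext x
        simp [hs, hw]
      rw [this, measure_empty]
      exact bot_le
    · have h1 := one_le_norm hw
      have h24 : 1 ≤ ‖w‖ ^ 24 := one_le_pow₀ h1
      have hpos : 0 < η / ‖w‖ ^ 24 := by positivity
      have hlt : η / ‖w‖ ^ 24 < δ := lt_of_le_of_lt (div_le_self hη0.le h24) hηδ
      have h2 := hsmall (fun i => (w i : ℝ)) (by rw [norm_cast_real]; exact h1) _ hpos hlt
      refine (measure_mono ?_).trans (h2.trans (ENNReal.ofReal_le_ofReal ?_))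
      · intro x hx
        exact ⟨hx.2.1, hx.2.2⟩
      · apply mul_le_mul_of_nonneg_left _ hC.le
        have h3 : η / ‖w‖ ^ 24 ≤ ((‖w‖ ^ 8)⁻¹) ^ 3 := by
          rw [inv_pow, ← pow_mul, div_eq_mul_inv]
          calc η * (‖w‖ ^ 24)⁻¹ ≤ 1 * (‖w‖ ^ 24)⁻¹ :=
                mul_le_mul_of_nonneg_right hη1 (by positivity)
            _ = (‖w‖ ^ (8 * 3))⁻¹ := by norm_num
        calc (η / ‖w‖ ^ 24) ^ ((1 : ℝ) / 3) ≤ (((‖w‖ ^ 8)⁻¹) ^ 3) ^ ((1 : ℝ) / 3) :=
              Real.rpow_le_rpow hpos.le h3 (by norm_num)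
          _ = (‖w‖ ^ 8)⁻¹ := by
              rw [← Real.rpow_natCast, ← Real.rpow_mul (by positivity)]
              norm_num
  have hsum : ∑' w, volume (s w) ≠ ⊤ := by
    have h1 : ∑' w, volume (s w) ≤ ∑' w : Fin 4 → ℤ, ENNReal.ofReal (C * (‖w‖ ^ 8)⁻¹) :=
      ENNReal.tsum_le_tsum hvol
    have h2 : ∑' w : Fin 4 → ℤ, ENNReal.ofReal (C * (‖w‖ ^ 8)⁻¹) =
        ENNReal.ofReal (∑' w : Fin 4 → ℤ, C * (‖w‖ ^ 8)⁻¹) :=
      (ENNReal.ofReal_tsum_of_nonneg (fun w => by positivity) (summable_norm.mul_left C)).symm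
    rw [h2] at h1
    exact ne_top_of_le_ne_top ENNReal.ofReal_ne_top h1
  have hBC := ae_finite_setOfPred_mem hsum
  -- zeros
  have hzero : ∀ᵐ x : ℝ, ∀ w : Fin 4 → ℤ, w ≠ 0 → |x - x₀| < r →
      psi f g (fun i => (w i : ℝ)) x ≠ 0 := by
    rw [ae_all_iff]
    intro w
    by_cases hw : w = 0
    · exact Filter.Eventually.of_forall fun x h => absurd hw h
    · have h1 := one_le_norm hw
      have hz : volume {x | |x - x₀| < r ∧ psi f g (fun i => (w i : ℝ)) x = 0} = 0 := by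
        have hle : ∀ ε : ℝ, 0 < ε → ε < δ →
            volume {x | |x - x₀| < r ∧ psi f g (fun i => (w i : ℝ)) x = 0} ≤
              ENNReal.ofReal (C * ε ^ ((1 : ℝ) / 3)) := by
          intro ε hε hεδ
          refine (measure_mono ?_).trans
            (hsmall (fun i => (w i : ℝ)) (by rw [norm_cast_real]; exact h1) ε hε hεδ)
          intro x hx
          refine ⟨hx.1, ?_⟩
          rw [hx.2, abs_zero]
          exact hε.le
        have hlim : Filter.Tendsto (fun ε : ℝ => ENNReal.ofReal (C * ε ^ ((1 : ℝ) / 3)))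
            (nhdsWithin 0 (Set.Ioi 0)) (nhds 0) := by
          have hcont : Continuous fun ε : ℝ => ENNReal.ofReal (C * ε ^ ((1 : ℝ) / 3)) := by
            apply ENNReal.continuous_ofReal.comp
            apply continuous_const.mul
            exact Real.continuous_rpow_const (by norm_num)
          have h0 := hcont.tendsto 0
          have h00 : ENNReal.ofReal (C * (0 : ℝ) ^ ((1 : ℝ) / 3)) = 0 := by
            rw [Real.zero_rpow (by norm_num)]
            simp
          rw [h00] at h0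
          exact h0.mono_left nhdsWithin_le_nhds
        have hle0 := ge_of_tendsto hlim (b := volume {x | |x - x₀| < r ∧
            psi f g (fun i => (w i : ℝ)) x = 0}) (by
          filter_upwards [Ioo_mem_nhdsGT hδ] with ε hε
          exact hle ε hε.1 hε.2)
        exact le_antisymm hle0 bot_le
      rw [ae_iff]
      refine measure_mono_null ?_ hz
      intro x hx
      simp only [Set.mem_ofPred_eq, Classical.not_imp, not_not] at hx
      exact ⟨hx.2.1, hx.2.2⟩
  filter_upwards [hBC, hzero] with x hx1 hx2 hxr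
  have hev : ∀ᶠ c in nhdsWithin (0 : ℝ) (Set.Ioi 0), ∀ w ∈ {w | x ∈ s w},
      c ≤ |psi f g (fun i => (w i : ℝ)) x| * ‖w‖ ^ 24 := by
    rw [Filter.eventually_all_finite hx1]
    intro w hw
    have hw0 : w ≠ 0 := hw.1
    have h1 : 0 < |psi f g (fun i => (w i : ℝ)) x| * ‖w‖ ^ 24 := by
      have := one_le_norm hw0
      have h2 := abs_pos.2 (hx2 w hw0 hxr)
      positivity
    filter_upwards [Ioo_mem_nhdsGT h1] with c hc
    exact hc.2.le
  have hev2 : ∀ᶠ c in nhdsWithin (0 : ℝ) (Set.Ioi 0), 0 < c ∧ c < η := by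
    filter_upwards [Ioo_mem_nhdsGT hη0] with c hc
    exact ⟨hc.1, hc.2⟩
  obtain ⟨c, hc1, hc2⟩ := (hev.and hev2).exists
  refine ⟨c, hc2.1, ?_⟩
  intro w hw
  have h1 := one_le_norm hw
  have h24 : 0 < ‖w‖ ^ 24 := by positivity
  rw [hlin]
  by_cases hmem : x ∈ s w
  · rw [div_le_iff₀ h24]
    exact hc1 w hmem
  · have h3 : η / ‖w‖ ^ 24 < |psi f g (fun i => (w i : ℝ)) x| := by
      by_contra hcon
      push Not at hcon
      exact hmem ⟨hw, hxr, hcon⟩
    have h4 : c / ‖w‖ ^ 24 ≤ η / ‖w‖ ^ 24 := div_le_div_of_nonneg_right hc2.2.le h24.le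
    linarith

end Pool.Agent.R353.LM
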