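import Pool.Agent.R353.LM.Stm

/-!
# D3: the Wronskian of `1, f, g, f g` is nonzero almost everywhere (helper916)
-/

set_option autoImplicit false

open MeasureTheory Set Filter Topology

namespace Pool.Agent.R353.LM

namespace D3

theorem hasDeriv {I : Set ℝ} {f : ℝ → ℝ} (hf : AnalyticOnNhd ℝ f I) (j : ℕ) (x : ℝ) (hx : x ∈ I) :
    HasDerivAt (iteratedDeriv j f) (iteratedDeriv (j + 1) f x) x := by
  rw [iteratedDeriv_succ, iteratedDeriv_eq_iterate]
  exact (hf.iterated_deriv j x hx).differentiableAt.hasDerivAt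

theorem step {I : Set ℝ} (hI : IsOpen I) (ψ P Q : ℝ → ℝ) (j : ℕ)
    (h : ∀ x ∈ I, iteratedDeriv j ψ x = P x) (h' : ∀ x ∈ I, HasDerivAt P (Q x) x) :
    ∀ x ∈ I, iteratedDeriv (j + 1) ψ x = Q x := by
  intro x hx
  rw [iteratedDeriv_succ]
  have h1 : iteratedDeriv j ψ =ᶠ[𝓝 x] P := by
    filter_upwards [hI.mem_nhds hx] with y hy
    exact h y hy
  rw [h1.deriv_eq]
  exact (h' x hx).deriv

/-- analytic functions on a preconnected open set -/
theorem zero_or_ae {I : Set ℝ} (hI : IsOpen I) (hc : IsPreconnected I) (W : ℝ → ℝ)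
    (hW : AnalyticOnNhd ℝ W I) : (∀ x ∈ I, W x = 0) ∨ ∀ᵐ x : ℝ, x ∈ I → W x ≠ 0 := by
  rcases hW.eqOn_zero_or_eventually_ne_zero_of_preconnected hc with h | h
  · exact Or.inl (fun x hx => h hx)
  · right
    have h1 := ae_restrict_le_codiscreteWithin (μ := (volume : Measure ℝ)) hI.measurableSet h
    have h2 : ∀ᵐ x ∂(volume.restrict I), W x ≠ 0 := h1
    rwa [ae_restrict_iff' hI.measurableSet] at h2

theorem reg_of_W {I : Set ℝ} (hI : IsOpen I) {f g : ℝ → ℝ} (hf : AnalyticOnNhd ℝ f I)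
    (hg : AnalyticOnNhd ℝ g I) (x : ℝ) (hx : x ∈ I)
    (hW : iteratedDeriv 1 f x ^ 2 * (3 * iteratedDeriv 2 g x ^ 2 -
        2 * iteratedDeriv 1 g x * iteratedDeriv 3 g x) -
      iteratedDeriv 1 g x ^ 2 * (3 * iteratedDeriv 2 f x ^ 2 -
        2 * iteratedDeriv 1 f x * iteratedDeriv 3 f x) ≠ 0) : Reg f g x := by
  intro w hw
  have f0 : ∀ x ∈ I, HasDerivAt f (iteratedDeriv 1 f x) x := fun x hx => by
    have := hasDeriv hf 0 x hx
    simpa only [iteratedDeriv_zero] using this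
  have g0 : ∀ x ∈ I, HasDerivAt g (iteratedDeriv 1 g x) x := fun x hx => by
    have := hasDeriv hg 0 x hx
    simpa only [iteratedDeriv_zero] using this
  have f1 := hasDeriv hf 1
  have f2 := hasDeriv hf 2
  have g1 := hasDeriv hg 1
  have g2 := hasDeriv hg 2
  set F1 := iteratedDeriv 1 f with hF1
  set F2 := iteratedDeriv 2 f with hF2
  set F3 := iteratedDeriv 3 f with hF3
  set G1 := iteratedDeriv 1 g with hG1
  set G2 := iteratedDeriv 2 g with hG2
  set G3 := iteratedDeriv 3 g with hG3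
  set ψ : ℝ → ℝ := fun t => w 0 + w 1 * f t + w 2 * g t + w 3 * (f t * g t) with hψ
  have s0 : ∀ t ∈ I, iteratedDeriv 0 ψ t = w 0 + w 1 * f t + w 2 * g t + w 3 * (f t * g t) := by
    intro t _
    rw [iteratedDeriv_zero]
  have s1 : ∀ t ∈ I, iteratedDeriv 1 ψ t =
      w 1 * F1 t + w 2 * G1 t + w 3 * (F1 t * g t + f t * G1 t) := by
    apply step hI ψ _ _ 0 s0
    intro t ht
    have h1 := ((((f0 t ht).const_mul (w 1)).const_add (w 0)).add ((g0 t ht).const_mul (w 2))).add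
      (((f0 t ht).mul (g0 t ht)).const_mul (w 3))
    exact h1
  have s2 : ∀ t ∈ I, iteratedDeriv 2 ψ t =
      w 1 * F2 t + w 2 * G2 t + w 3 * ((F2 t * g t + F1 t * G1 t) + (F1 t * G1 t + f t * G2 t)) := by
    apply step hI ψ _ _ 1 s1
    intro t ht
    have h1 := ((f1 t ht).const_mul (w 1)).add ((g1 t ht).const_mul (w 2)) |>.add
      ((((f1 t ht).mul (g0 t ht)).add ((f0 t ht).mul (g1 t ht))).const_mul (w 3))
    exact h1
  have s3 : ∀ t ∈ I, iteratedDeriv 3 ψ t =
      w 1 * F3 t + w 2 * G3 t + w 3 * (((F3 t * g t + F2 t * G1 t) + (F2 t * G1 t + F1 t * G2 t)) +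
        ((F2 t * G1 t + F1 t * G2 t) + (F1 t * G2 t + f t * G3 t))) := by
    apply step hI ψ _ _ 2 s2
    intro t ht
    have h1 := ((f2 t ht).const_mul (w 1)).add ((g2 t ht).const_mul (w 2)) |>.add
      (((((f2 t ht).mul (g0 t ht)).add ((f1 t ht).mul (g1 t ht))).add
        (((f1 t ht).mul (g1 t ht)).add ((f0 t ht).mul (g2 t ht)))).const_mul (w 3))
    exact h1
  have e0 := hw 0 (by norm_num)
  have e1 := hw 1 (by norm_num)
  have e2 := hw 2 (by norm_num)
  have e3 := hw 3 (by norm_num)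
  rw [s0 x hx] at e0
  rw [s1 x hx] at e1
  rw [s2 x hx] at e2
  rw [s3 x hx] at e3
  -- the linear system
  set a := w 1 + w 3 * g x with ha
  set b := w 2 + w 3 * f x with hb
  have q1 : a * F1 x + b * G1 x = 0 := by rw [ha, hb]; linear_combination e1
  have q2 : a * F2 x + b * G2 x + w 3 * (2 * F1 x * G1 x) = 0 := by
    rw [ha, hb]; linear_combination e2
  have q3 : a * F3 x + b * G3 x + w 3 * (3 * (F2 x * G1 x + F1 x * G2 x)) = 0 := by
    rw [ha, hb]; linear_combination e3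
  have hw3 : w 3 = 0 := by
    have : w 3 * (F1 x ^ 2 * (3 * G2 x ^ 2 - 2 * G1 x * G3 x) -
        G1 x ^ 2 * (3 * F2 x ^ 2 - 2 * F1 x * F3 x)) = 0 := by
      linear_combination (F2 x * G3 x - G2 x * F3 x) * q1 - (F1 x * G3 x - G1 x * F3 x) * q2 +
        (F1 x * G2 x - G1 x * F2 x) * q3
    exact (mul_eq_zero.mp this).resolve_right hW
  have hab : a = 0 ∧ b = 0 := by
    constructor
    · have : a * (F1 x ^ 2 * (3 * G2 x ^ 2 - 2 * G1 x * G3 x) -
          G1 x ^ 2 * (3 * F2 x ^ 2 - 2 * F1 x * F3 x)) = 0 := by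
        linear_combination (G2 x * (3 * (F2 x * G1 x + F1 x * G2 x)) - 2 * F1 x * G1 x * G3 x) * q1
          - G1 x * (3 * (F2 x * G1 x + F1 x * G2 x)) * q2 + G1 x * (2 * F1 x * G1 x) * q3
      exact (mul_eq_zero.mp this).resolve_right hW
    · have : b * (F1 x ^ 2 * (3 * G2 x ^ 2 - 2 * G1 x * G3 x) -
          G1 x ^ 2 * (3 * F2 x ^ 2 - 2 * F1 x * F3 x)) = 0 := by
        linear_combination -(F2 x * (3 * (F2 x * G1 x + F1 x * G2 x)) - 2 * F1 x * G1 x * F3 x) * q1
          + F1 x * (3 * (F2 x * G1 x + F1 x * G2 x)) * q2 - F1 x * (2 * F1 x * G1 x) * q3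
      exact (mul_eq_zero.mp this).resolve_right hW
  have hw1 : w 1 = 0 := by
    have := hab.1
    rw [ha, hw3] at this
    linarith
  have hw2 : w 2 = 0 := by
    have := hab.2
    rw [hb, hw3] at this
    linarith
  have hw0 : w 0 = 0 := by
    rw [hw1, hw2, hw3] at e0
    linarith
  funext i
  fin_cases i
  · exact hw0
  · exact hw1
  · exact hw2
  · exact hw3

/-- constancy of `p q / m ^ 3` -/
theorem const {J : Set ℝ} (hJ : IsOpen J) (hJc : IsPreconnected J) (p q m p' q' m' : ℝ → ℝ)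
    (hp : ∀ t ∈ J, HasDerivAt p (p' t) t) (hq : ∀ t ∈ J, HasDerivAt q (q' t) t)
    (hm : ∀ t ∈ J, HasDerivAt m (m' t) t) (hm0 : ∀ t ∈ J, m t ≠ 0)
    (ep : ∀ t ∈ J, 2 * m t * p' t = 3 * m' t * p t) (eq : ∀ t ∈ J, 2 * m t * q' t = 3 * m' t * q t)
    (x y : ℝ) (hx : x ∈ J) (hy : y ∈ J) : p x * q x / m x ^ 3 = p y * q y / m y ^ 3 := by
  have hd : ∀ t ∈ J, HasDerivAt (fun t => p t * q t / m t ^ 3) 0 t := by
    intro t ht
    have h1 := ((hp t ht).mul (hq t ht)).div ((hm t ht).pow 3) (pow_ne_zero 3 (hm0 t ht))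
    have h2 : ((p' t * q t + p t * q' t) * m t ^ 3 -
        p t * q t * ((3 : ℕ) * m t ^ (3 - 1) * m' t)) / (m t ^ 3) ^ 2 = 0 := by
      rw [div_eq_zero_iff]
      left
      push_cast
      linear_combination (m t ^ 2 * q t / 2) * ep t ht + (m t ^ 2 * p t / 2) * eq t ht
    rw [← h2]
    exact h1
  exact hJ.is_const_of_deriv_eq_zero hJc
    (fun t ht => (hd t ht).differentiableAt.differentiableWithinAt) (fun t ht => (hd t ht).deriv)
    hx hy

end D3

open D3 in
theorem d3 : St_D3 := by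
  intro I f g hI hIc hf hg hind
  rcases I.eq_empty_or_nonempty with rfl | hne
  · exact Filter.Eventually.of_forall fun x hx => absurd hx (Set.notMem_empty x)
  have f0 : ∀ x ∈ I, HasDerivAt f (iteratedDeriv 1 f x) x := fun x hx => by
    have := hasDeriv hf 0 x hx
    simpa only [iteratedDeriv_zero] using this
  have g0 : ∀ x ∈ I, HasDerivAt g (iteratedDeriv 1 g x) x := fun x hx => by
    have := hasDeriv hg 0 x hx
    simpa only [iteratedDeriv_zero] using this
  have f1 := hasDeriv hf 1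
  have f2 := hasDeriv hf 2
  have g1 := hasDeriv hg 1
  have g2 := hasDeriv hg 2
  have aF : ∀ j, AnalyticOnNhd ℝ (iteratedDeriv j f) I := by
    intro j; rw [iteratedDeriv_eq_iterate]; exact hf.iterated_deriv j
  have aG : ∀ j, AnalyticOnNhd ℝ (iteratedDeriv j g) I := by
    intro j; rw [iteratedDeriv_eq_iterate]; exact hg.iterated_deriv j
  have aF1 := aF 1
  have aF2 := aF 2
  have aF3 := aF 3
  have aG1 := aG 1
  have aG2 := aG 2
  have aG3 := aG 3
  have hreg := fun x hx => reg_of_W hI hf hg x hx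
  set F1 := iteratedDeriv 1 f with hF1
  set F2 := iteratedDeriv 2 f with hF2
  set F3 := iteratedDeriv 3 f with hF3
  set G1 := iteratedDeriv 1 g with hG1
  set G2 := iteratedDeriv 2 g with hG2
  set G3 := iteratedDeriv 3 g with hG3
  have aW : AnalyticOnNhd ℝ (fun x => F1 x ^ 2 * (3 * G2 x ^ 2 - 2 * G1 x * G3 x) -
      G1 x ^ 2 * (3 * F2 x ^ 2 - 2 * F1 x * F3 x)) I := by
    apply AnalyticOnNhd.sub
    · apply AnalyticOnNhd.mul (aF1.pow 2)
      apply AnalyticOnNhd.sub
      · exact analyticOnNhd_const.mul (aG2.pow 2)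
      · exact (analyticOnNhd_const.mul aG1).mul aG3
    · apply AnalyticOnNhd.mul (aG1.pow 2)
      apply AnalyticOnNhd.sub
      · exact analyticOnNhd_const.mul (aF2.pow 2)
      · exact (analyticOnNhd_const.mul aF1).mul aF3
  rcases zero_or_ae hI hIc _ aW with hW | hW
  swap
  · filter_upwards [hW] with x hx hxI
    exact hreg x hxI (hx hxI)
  -- the degenerate case
  exfalso
  have nF : ∀ᵐ x : ℝ, x ∈ I → F1 x ≠ 0 := by
    rcases zero_or_ae hI hIc _ aF1 with h | h
    · exfalso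
      obtain ⟨y, hy⟩ := hne
      have hc : ∀ t ∈ I, f t = f y := fun t ht =>
        hI.is_const_of_deriv_eq_zero hIc
          (fun t ht => (f0 t ht).differentiableAt.differentiableWithinAt)
          (fun t ht => by rw [(f0 t ht).deriv]; exact h t ht) ht hy
      have := hind ![-f y, 1, 0, 0] (fun t ht => by
        simp only [Matrix.cons_val_zero, Matrix.cons_val_one, Matrix.cons_val]
        rw [hc t ht]; ring)
      have h1 := congrFun this 1
      simp at h1
    · exact h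
  have nG : ∀ᵐ x : ℝ, x ∈ I → G1 x ≠ 0 := by
    rcases zero_or_ae hI hIc _ aG1 with h | h
    · exfalso
      obtain ⟨y, hy⟩ := hne
      have hc : ∀ t ∈ I, g t = g y := fun t ht =>
        hI.is_const_of_deriv_eq_zero hIc
          (fun t ht => (g0 t ht).differentiableAt.differentiableWithinAt)
          (fun t ht => by rw [(g0 t ht).deriv]; exact h t ht) ht hy
      have := hind ![-g y, 0, 1, 0] (fun t ht => by
        simp only [Matrix.cons_val_zero, Matrix.cons_val_one, Matrix.cons_val]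
        rw [hc t ht]; ring)
      have h1 := congrFun this 2
      simp at h1
    · exact h
  obtain ⟨x₀, hx₀, hF0, hG0⟩ : ∃ x₀ ∈ I, F1 x₀ ≠ 0 ∧ G1 x₀ ≠ 0 := by
    by_contra hcon
    push Not at hcon
    have h1 : volume I = 0 := by
      have h2 : ∀ᵐ x : ℝ, x ∉ I := by
        filter_upwards [nF, nG] with x h3 h4 hx
        exact h4 hx (hcon x hx (h3 hx))
      rw [ae_iff] at h2
      simpa using h2
    exact (hI.measure_pos volume hne).ne' h1
  -- a small ball
  have hcont : ContinuousAt (fun t => F1 t * G1 t) x₀ :=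
    (aF1 x₀ hx₀).continuousAt.mul (aG1 x₀ hx₀).continuousAt
  have hev : ∀ᶠ t in 𝓝 x₀, t ∈ I ∧ F1 t * G1 t ≠ 0 :=
    Filter.Eventually.and (hI.mem_nhds hx₀) (hcont.eventually_ne (mul_ne_zero hF0 hG0))
  obtain ⟨r, hr, hball⟩ := Metric.eventually_nhds_iff_ball.mp hev
  set J := Metric.ball x₀ r with hJ
  have hJo : IsOpen J := Metric.isOpen_ball
  have hJc : IsPreconnected J := (convex_ball x₀ r).isPreconnected
  have hx₀J : x₀ ∈ J := Metric.mem_ball_self hr
  have hJI : ∀ t ∈ J, t ∈ I := fun t ht => (hball t ht).1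
  have hm0 : ∀ t ∈ J, F1 t * G1 t ≠ 0 := fun t ht => (hball t ht).2
  -- the coefficients
  set D : ℝ → ℝ := fun t => F2 t * G1 t - F1 t * G2 t with hD
  set k0 : ℝ → ℝ := fun t => D t * f t * g t + 2 * f t * F1 t * G1 t ^ 2 -
      2 * F1 t ^ 2 * g t * G1 t with hk0
  set k1 : ℝ → ℝ := fun t => -D t * g t - 2 * F1 t * G1 t ^ 2 with hk1
  set k2 : ℝ → ℝ := fun t => -D t * f t + 2 * F1 t ^ 2 * G1 t with hk2
  set K : Fin 4 → ℝ → ℝ := ![k0, k1, k2, D] with hK
  set m' : ℝ → ℝ := fun t => F2 t * G1 t + F1 t * G2 t with hm'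
  have hm : ∀ t ∈ J, HasDerivAt (fun t => F1 t * G1 t) (m' t) t := fun t ht =>
    (f1 t (hJI t ht)).mul (g1 t (hJI t ht))
  have hDd : ∀ t ∈ J, HasDerivAt D (F3 t * G1 t - F1 t * G3 t) t := by
    intro t ht
    have h1 := ((f2 t (hJI t ht)).mul (g1 t (hJI t ht))).sub
      ((f1 t (hJI t ht)).mul (g2 t (hJI t ht)))
    have e : F3 t * G1 t + F2 t * G2 t - (F2 t * G2 t + F1 t * G3 t) =
      F3 t * G1 t - F1 t * G3 t := by ring
    rw [← e]
    exact h1
  have hKd : ∀ i : Fin 4, ∃ K' : ℝ → ℝ, (∀ t ∈ J, HasDerivAt (K i) (K' t) t) ∧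
      ∀ t ∈ J, 2 * (F1 t * G1 t) * K' t = 3 * m' t * K i t := by
    intro i
    fin_cases i
    · show ∃ K' : ℝ → ℝ, (∀ t ∈ J, HasDerivAt k0 (K' t) t) ∧
        ∀ t ∈ J, 2 * (F1 t * G1 t) * K' t = 3 * m' t * k0 t
      refine ⟨fun t => (((F3 t * G1 t - F1 t * G3 t) * f t + D t * F1 t) * g t +
            D t * f t * G1 t) +
            ((2 * F1 t * F1 t + 2 * f t * F2 t) * G1 t ^ 2 +
              2 * f t * F1 t * ((2 : ℕ) * G1 t ^ (2 - 1) * G2 t)) -
            ((2 * ((2 : ℕ) * F1 t ^ (2 - 1) * F2 t) * g t + 2 * F1 t ^ 2 * G1 t) * G1 t +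
              2 * F1 t ^ 2 * g t * G2 t), fun t ht => ?_, fun t ht => ?_⟩
      · have a1 := f0 t (hJI t ht)
        have a2 := g0 t (hJI t ht)
        have a3 := f1 t (hJI t ht)
        have a4 := g1 t (hJI t ht)
        have h1 := ((((hDd t ht).mul a1).mul a2).add
          (((a1.const_mul 2).mul a3).mul (a4.pow 2))).sub
          ((((a3.pow 2).const_mul 2).mul a2).mul a4)
        exact h1
      · have hw := hW t (hJI t ht)
        simp only [hk0, hm', hD]
        push_cast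
        linear_combination (f t * g t) * hw
    · show ∃ K' : ℝ → ℝ, (∀ t ∈ J, HasDerivAt k1 (K' t) t) ∧
        ∀ t ∈ J, 2 * (F1 t * G1 t) * K' t = 3 * m' t * k1 t
      refine ⟨fun t => (-(F3 t * G1 t - F1 t * G3 t) * g t + -D t * G1 t) -
            (2 * F2 t * G1 t ^ 2 + 2 * F1 t * ((2 : ℕ) * G1 t ^ (2 - 1) * G2 t)),
            fun t ht => ?_, fun t ht => ?_⟩
      · have a2 := g0 t (hJI t ht)
        have a3 := f1 t (hJI t ht)
        have a4 := g1 t (hJI t ht)
        have h1 := (((hDd t ht).neg).mul a2).sub ((a3.const_mul 2).mul (a4.pow 2))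
        exact h1
      · have hw := hW t (hJI t ht)
        simp only [hk1, hm', hD]
        push_cast
        linear_combination (-g t) * hw
    · show ∃ K' : ℝ → ℝ, (∀ t ∈ J, HasDerivAt k2 (K' t) t) ∧
        ∀ t ∈ J, 2 * (F1 t * G1 t) * K' t = 3 * m' t * k2 t
      refine ⟨fun t => (-(F3 t * G1 t - F1 t * G3 t) * f t + -D t * F1 t) +
            (2 * ((2 : ℕ) * F1 t ^ (2 - 1) * F2 t) * G1 t + 2 * F1 t ^ 2 * G2 t),
            fun t ht => ?_, fun t ht => ?_⟩
      · have a1 := f0 t (hJI t ht)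
        have a3 := f1 t (hJI t ht)
        have a4 := g1 t (hJI t ht)
        have h1 := (((hDd t ht).neg).mul a1).add (((a3.pow 2).const_mul 2).mul a4)
        exact h1
      · have hw := hW t (hJI t ht)
        simp only [hk2, hm', hD]
        push_cast
        linear_combination (-f t) * hw
    · show ∃ K' : ℝ → ℝ, (∀ t ∈ J, HasDerivAt D (K' t) t) ∧
        ∀ t ∈ J, 2 * (F1 t * G1 t) * K' t = 3 * m' t * D t
      refine ⟨fun t => F3 t * G1 t - F1 t * G3 t, fun t ht => hDd t ht, fun t ht => ?_⟩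
      have hw := hW t (hJI t ht)
      simp only [hm', hD]
      linear_combination hw
  have hsum : ∀ t, K 0 t + K 1 t * f t + K 2 t * g t + K 3 t * (f t * g t) = 0 := by
    intro t
    show k0 t + k1 t * f t + k2 t * g t + D t * (f t * g t) = 0
    simp only [hk0, hk1, hk2]
    ring
  -- a nonzero coefficient
  obtain ⟨l, hl⟩ : ∃ l, K l x₀ ≠ 0 := by
    by_contra hcon
    push Not at hcon
    have h1 := hcon 1
    have h3 := hcon 3
    have h4 : K 1 x₀ + K 3 x₀ * g x₀ = -2 * F1 x₀ * G1 x₀ ^ 2 := by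
      show k1 x₀ + D x₀ * g x₀ = -2 * F1 x₀ * G1 x₀ ^ 2
      simp only [hk1]
      ring
    rw [h1, h3] at h4
    have h5 : F1 x₀ * G1 x₀ ^ 2 ≠ 0 := mul_ne_zero hF0 (pow_ne_zero 2 hG0)
    apply h5
    linarith
  set w : Fin 4 → ℝ := fun i => K i x₀ * K l x₀ / (F1 x₀ * G1 x₀) ^ 3 with hw
  have hzero : ∀ t ∈ J, w 0 + w 1 * f t + w 2 * g t + w 3 * (f t * g t) = 0 := by
    intro t ht
    have hc : ∀ i, w i = K i t * K l t / (F1 t * G1 t) ^ 3 := by
      intro i
      obtain ⟨p', hp, ep⟩ := hKd i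
      obtain ⟨q', hq, eq⟩ := hKd l
      exact D3.const hJo hJc (K i) (K l) (fun t => F1 t * G1 t) p' q' m' hp hq hm hm0 ep eq
        x₀ t hx₀J ht
    rw [hc 0, hc 1, hc 2, hc 3]
    have := hsum t
    linear_combination (K l t / (F1 t * G1 t) ^ 3) * this
  have han : AnalyticOnNhd ℝ (fun t => w 0 + w 1 * f t + w 2 * g t + w 3 * (f t * g t)) I :=
    ((analyticOnNhd_const.add (analyticOnNhd_const.mul hf)).add
      (analyticOnNhd_const.mul hg)).add (analyticOnNhd_const.mul (hf.mul hg))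
  have hall := han.eqOn_zero_of_preconnected_of_eventuallyEq_zero hIc hx₀ (by
    filter_upwards [hJo.mem_nhds hx₀J] with t ht
    exact hzero t ht)
  have hw0 := hind w (fun t ht => hall ht)
  have := congrFun hw0 l
  simp only [hw, Pi.zero_apply] at this
  rw [div_eq_zero_iff] at this
  rcases this with h | h
  · exact hl (mul_self_eq_zero.mp h)
  · exact pow_ne_zero 3 (mul_ne_zero hF0 hG0) h

end Pool.Agent.R353.LM
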