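import Mathlib
import Pool.Agent.R353.LM.Stm

/-!
# Part T of MP_4d0c5f_nt: the Taylor series at `0` represents an analytic function on an interval as far as it
converges.
-/

set_option autoImplicit false

open MeasureTheory Topology

namespace Pool.Agent.R353.LM

theorem t : St_T := by
  intro I f hIo hIc h0 hf ρ hρ hs z hz hzρ
  set c : ℕ → ℝ := fun j => iteratedDeriv j f 0 / (j.factorial : ℝ) with hc
  let P : FormalMultilinearSeries ℝ ℝ ℝ := FormalMultilinearSeries.ofScalars ℝ c
  have happ : ∀ (n : ℕ) (y : ℝ), P n (fun _ => y) = c n * y ^ n := by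
    intro n y
    simp [P, FormalMultilinearSeries.ofScalars_apply_eq]
    ring
  have hfp : HasFPowerSeriesAt f P 0 := (hf 0 h0).hasFPowerSeriesAt
  have hrad : ENNReal.ofReal ρ ≤ P.radius := by
    refine ENNReal.le_of_forall_nnreal_lt ?_
    intro r hr
    have hrρ : (r : ℝ) < ρ := by
      have := (ENNReal.lt_ofReal_iff_toReal_lt ENNReal.coe_ne_top).1 hr
      simpa using this
    have h1 : Summable fun j : ℕ => c j * (r : ℝ) ^ j := hs r (by rw [NNReal.abs_eq]; exact hrρ)
    refine P.le_radius_of_tendsto (l := 0) ?_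
    have h2 := h1.tendsto_atTop_zero.norm
    simp only [norm_zero] at h2
    refine h2.congr ?_
    intro n
    rw [norm_mul, norm_pow, FormalMultilinearSeries.ofScalars_norm]
    simp
  have hpos : 0 < P.radius := lt_of_lt_of_le (ENNReal.ofReal_pos.2 hρ) hrad
  have hball := P.hasFPowerSeriesOnBall hpos
  have hev : f =ᶠ[𝓝 0] P.sum := by
    filter_upwards [hfp.eventually_hasSum, hball.hasFPowerSeriesAt.eventually_hasSum] with y h1 h2
    simp only [zero_add] at h1 h2
    exact h1.unique h2
  have hU : IsPreconnected (I ∩ Set.Ioo (-ρ) ρ) := by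
    have h1 := isPreconnected_iff_ordConnected.1 hIc
    exact (h1.inter Set.ordConnected_Ioo).isPreconnected
  have hpa : AnalyticOnNhd ℝ P.sum (I ∩ Set.Ioo (-ρ) ρ) := by
    intro y hy
    refine hball.analyticAt_of_mem ?_
    refine Metric.eball_subset_eball hrad ?_
    rw [Metric.eball_ofReal]
    simp only [Metric.mem_ball, dist_zero_right, Real.norm_eq_abs]
    exact abs_lt.2 ⟨hy.2.1, hy.2.2⟩
  have heq := (hf.mono Set.inter_subset_left).eqOn_of_preconnected_of_eventuallyEq hpa hU
    (z₀ := 0) ⟨h0, by simpa using hρ, hρ⟩ hev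
  have hzz : f z = P.sum z := heq ⟨hz, abs_lt.1 hzρ⟩
  rw [hzz]
  have := (hs z hzρ).hasSum
  have h3 : P.sum z = ∑' j : ℕ, iteratedDeriv j f 0 / (j.factorial : ℝ) * z ^ j := by
    unfold FormalMultilinearSeries.sum
    exact tsum_congr fun n => happ n z
  rw [h3]
  exact this

end Pool.Agent.R353.LM
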