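import Mathlib
import Pool.Agent.R353.LM.Asm2
import Pool.Agent.R353.LM.D2
import Pool.Agent.R353.LM.D3
import Pool.Agent.R353.LM.T

/-!
# MP_4d0c5f_nt: the choice of the eigenvalues and the assembly (helper353)
-/

set_option autoImplicit false

open MeasureTheory Filter Topology

namespace Pool.Agent.R353.LM

/-- constant functions are Moebius of anything -/
lemma moebius_const {I : Set ℝ} {f : ℝ → ℝ} (h : ℝ → ℝ) {c : ℝ} (hf : ∀ z ∈ I, f z = c) : Moebius I f h := by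
  refine ⟨0, c, 0, 1, Or.inr one_ne_zero, fun z hz => ⟨?_, ?_⟩⟩
  · simp
  · rw [hf z hz]; simp

/-- linear independence of `1, f, g, f g` -/
lemma indep {I : Set ℝ} (hIc : IsPreconnected I) (hne : I.Nonempty) {f g : ℝ → ℝ}
    (hf : AnalyticOnNhd ℝ f I) (hg : AnalyticOnNhd ℝ g I) (hM : ¬ Moebius I f g)
    (hgc : ∀ c : ℝ, ¬ ∀ z ∈ I, g z = c) :
    ∀ w : Fin 4 → ℝ, (∀ t ∈ I, w 0 + w 1 * f t + w 2 * g t + w 3 * (f t * g t) = 0) → w = 0 := by
  intro w hw
  obtain ⟨z₁, hz₁⟩ := hne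
  by_cases hcd : w 3 ≠ 0 ∨ w 1 ≠ 0
  · exfalso
    apply hM
    by_cases hall : ∀ z ∈ I, w 3 * g z + w 1 ≠ 0
    · refine ⟨-w 2, -w 0, w 3, w 1, hcd, fun z hz => ⟨hall z hz, ?_⟩⟩
      rw [eq_div_iff (hall z hz)]
      linear_combination hw z hz
    · push Not at hall
      obtain ⟨z0, hz0, hz00⟩ := hall
      have hc : w 3 ≠ 0 := by
        intro h
        rw [h] at hz00 hcd
        rcases hcd with h' | h'
        · exact h' rfl
        · exact h' (by linarith)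
      have hab : w 0 + w 2 * g z0 = 0 := by linear_combination hw z0 hz0 - f z0 * hz00
      have hrel : w 0 * w 3 = w 1 * w 2 := by
        linear_combination w 3 * hab - w 2 * hz00
      have hprod : ∀ z ∈ I, ((fun z => w 3 * f z + w 2) * (fun z => w 3 * g z + w 1)) z = 0 := by
        intro z hz
        simp only [Pi.mul_apply]
        linear_combination w 3 * hw z hz - hrel
      have hA : AnalyticOnNhd ℝ (fun z => w 3 * f z + w 2) I :=
        (analyticOnNhd_const.mul hf).add analyticOnNhd_const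
      have hB : AnalyticOnNhd ℝ (fun z => w 3 * g z + w 1) I :=
        (analyticOnNhd_const.mul hg).add analyticOnNhd_const
      rcases hA.eq_zero_or_eq_zero_of_mul_eq_zero hB hprod hIc with h | h
      · refine moebius_const g (c := -w 2 / w 3) fun z hz => ?_
        rw [eq_div_iff hc]
        have := h z hz
        linear_combination this
      · exfalso
        refine hgc (-w 1 / w 3) fun z hz => ?_
        rw [eq_div_iff hc]
        have := h z hz
        linear_combination this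
  · push Not at hcd
    have h2 : w 2 = 0 := by
      by_contra h2
      refine hgc (-w 0 / w 2) fun z hz => ?_
      rw [eq_div_iff h2]
      have := hw z hz
      rw [hcd.1, hcd.2] at this
      linear_combination this
    have h0 : w 0 = 0 := by
      have := hw z₁ hz₁
      rw [hcd.1, hcd.2, h2] at this
      linear_combination this
    ext i
    fin_cases i
    · exact h0
    · exact hcd.2
    · exact h2
    · exact hcd.1

/-- almost every point is Diophantine -/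
lemma ae_dio {I : Set ℝ} (hIo : IsOpen I) (hIc : IsPreconnected I) {f g : ℝ → ℝ}
    (hf : AnalyticOnNhd ℝ f I) (hg : AnalyticOnNhd ℝ g I)
    (hind : ∀ w : Fin 4 → ℝ, (∀ t ∈ I, w 0 + w 1 * f t + w 2 * g t + w 3 * (f t * g t) = 0) → w = 0) :
    ∀ᵐ x : ℝ, x ∈ I → Dio (f x) (g x) := by
  have h1 := d3 I f g hIo hIc hf hg hind
  have h2 : volume {x : ℝ | x ∈ I ∧ Reg f g x ∧ ¬ Dio (f x) (g x)} = 0 := by
    apply measure_null_of_locally_null
    rintro x₀ ⟨hx₀, hreg, -⟩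
    obtain ⟨r, hr, hae⟩ := d2 I f g hIo hf hg x₀ hx₀ hreg
    refine ⟨{x : ℝ | x ∈ I ∧ Reg f g x ∧ ¬ Dio (f x) (g x)} ∩ {x | |x - x₀| < r}, ?_, ?_⟩
    · refine inter_mem self_mem_nhdsWithin (mem_nhdsWithin_of_mem_nhds ?_)
      have : {x : ℝ | |x - x₀| < r} = Metric.ball x₀ r := by
        ext x
        simp [Real.dist_eq]
      rw [this]
      exact Metric.ball_mem_nhds x₀ hr
    · refine measure_mono_null ?_ hae
      rintro x ⟨⟨_, _, hx3⟩, hx4⟩
      simp only [Set.mem_compl_iff, Set.mem_ofPred_eq]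
      intro h
      exact hx3 (h hx4)
  have h3 : ∀ᵐ x : ℝ, ¬ (x ∈ I ∧ Reg f g x ∧ ¬ Dio (f x) (g x)) := by
    rw [ae_iff]
    simpa using h2
  filter_upwards [h1, h3] with x hx1 hx3 hxI
  by_contra hcon
  exact hx3 ⟨hxI, hx1 hxI, hcon⟩

/-- almost every point is not mapped to a given value by a nonconstant analytic function -/
lemma ae_ne {I : Set ℝ} (hIo : IsOpen I) (hIc : IsPreconnected I) {f : ℝ → ℝ}
    (hf : AnalyticOnNhd ℝ f I) (hfc : ∀ c : ℝ, ¬ ∀ z ∈ I, f z = c) (c : ℝ) :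
    ∀ᵐ y : ℝ, y ∈ I → f y ≠ c := by
  rcases D3.zero_or_ae hIo hIc (fun z => f z - c) (hf.sub analyticOnNhd_const) with h | h
  · exfalso
    exact hfc c fun z hz => by have := h z hz; linarith
  · filter_upwards [h] with y hy hyI
    have := hy hyI
    intro h'
    exact this (by rw [h', sub_self])

lemma exists_of_ae {U : Set ℝ} (hU : IsOpen U) (hne : U.Nonempty) {p : ℝ → Prop} (h : ∀ᵐ x : ℝ, p x) :
    ∃ x ∈ U, p x := by
  by_contra hcon
  push Not at hcon
  have h1 : volume U = 0 := measure_mono_null (fun x hx => hcon x hx) h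
  exact (hU.measure_pos volume hne).ne' h1

/-- The general construction: diagonalisable matrices with eigenvalues in any neighbourhood of `0`. -/
theorem main_calc (n : ℕ) (hn : 2 ≤ n) (I : Set ℝ) (f g : ℕ → ℝ → ℝ) (hIo : IsOpen I) (hIc : IsPreconnected I)
    (h0 : (0 : ℝ) ∈ I) (hf : ∀ k, AnalyticOnNhd ℝ (f k) I) (hg : ∀ k, AnalyticOnNhd ℝ (g k) I)
    (hi : ∀ k, ¬ Moebius I (g k) id) (hii : ∀ k₁ k₂, ¬ Moebius I (f k₁) (g k₂)) (ρ : ℝ) (hρ : 0 < ρ) :
    ∃ (S : Matrix (Fin n) (Fin n) ℝ) (v : Fin n → ℝ), IsUnit S ∧ (∀ i, v i ∈ I ∧ |v i| < ρ) ∧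
      IsLiouville (S⁻¹ * Matrix.diagonal v * S) ∧
      ∀ k, IsLiouville (S⁻¹ * Matrix.diagonal (fun i => f k (v i)) * S) ∧
        ¬ IsLiouville (S⁻¹ * Matrix.diagonal (fun i => g k (v i)) * S) := by
  obtain ⟨m, rfl⟩ : ∃ m, n = m + 2 := ⟨n - 2, by omega⟩
  -- the functions, with the identity
  set F : ℕ → ℝ → ℝ := fun k => Nat.casesOn k id f with hF
  have hF0 : F 0 = id := rfl
  have hFs : ∀ k, F (k + 1) = f k := fun k => rfl
  have hFa : ∀ k, AnalyticOnNhd ℝ (F k) I := by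
    intro k
    cases k with
    | zero => exact analyticOnNhd_id
    | succ k => exact hf k
  have hidc : ∀ c : ℝ, ¬ ∀ z ∈ I, (id : ℝ → ℝ) z = c := by
    intro c hc
    obtain ⟨ε, hε, hball⟩ := Metric.isOpen_iff.1 hIo 0 h0
    have h1 := hc 0 h0
    have h2 := hc (ε / 2) (hball (by
      rw [Metric.mem_ball, Real.dist_eq, sub_zero, abs_of_pos (by linarith)]
      linarith))
    simp only [id] at h1 h2
    linarith
  have hgc : ∀ k, ∀ c : ℝ, ¬ ∀ z ∈ I, g k z = c := fun k c hc => hi k (moebius_const id hc)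
  have hFc : ∀ k, ∀ c : ℝ, ¬ ∀ z ∈ I, F k z = c := by
    intro k
    cases k with
    | zero => exact hidc
    | succ k => exact fun c hc => hii k 0 (moebius_const _ hc)
  have hind : ∀ k i, ∀ w : Fin 4 → ℝ,
      (∀ t ∈ I, w 0 + w 1 * F k t + w 2 * g i t + w 3 * (F k t * g i t) = 0) → w = 0 := by
    intro k i
    cases k with
    | zero =>
      intro w hw
      have h1 := indep hIc ⟨0, h0⟩ (hg i) analyticOnNhd_id (hi i) hidc ![w 0, w 2, w 1, w 3] (by
        intro t ht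
        have := hw t ht
        simp only [Matrix.cons_val_zero, Matrix.cons_val_one, Matrix.cons_val]
        rw [hF0] at this
        simp only [id] at this ⊢
        linear_combination this)
      have a0 := congrFun h1 0
      have a1 := congrFun h1 1
      have a2 := congrFun h1 2
      have a3 := congrFun h1 3
      simp only [Matrix.cons_val_zero, Matrix.cons_val_one, Matrix.cons_val, Pi.zero_apply] at a0 a1 a2 a3
      ext j
      fin_cases j
      · exact a0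
      · exact a2
      · exact a1
      · exact a3
    | succ k => exact indep hIc ⟨0, h0⟩ (hf k) (hg i) (hii k i) (hgc i)
  -- the eigenvalues
  have hUo : IsOpen (I ∩ Set.Ioo (-ρ) ρ) := hIo.inter isOpen_Ioo
  have hUn : (I ∩ Set.Ioo (-ρ) ρ).Nonempty := ⟨0, h0, by constructor <;> linarith⟩
  have hae : ∀ᵐ x : ℝ, ∀ k i, x ∈ I → Dio (F k x) (g i x) := by
    rw [ae_all_iff]
    intro k
    rw [ae_all_iff]
    intro i
    exact ae_dio hIo hIc (hFa k) (hg i) (hind k i)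
  obtain ⟨x, hxU, hx⟩ := exists_of_ae hUo hUn hae
  have hae2 : ∀ᵐ y : ℝ, ∀ k, y ∈ I → F k y ≠ F k x := by
    rw [ae_all_iff]
    intro k
    exact ae_ne hIo hIc (hFa k) (hFc k) _
  obtain ⟨y, hyU, hy⟩ := exists_of_ae hUo hUn hae2
  have hxρ : |x| < ρ := abs_lt.2 ⟨hxU.2.1, hxU.2.2⟩
  have hyρ : |y| < ρ := abs_lt.2 ⟨hyU.2.1, hyU.2.2⟩
  -- the slopes
  obtain ⟨L, M, hLM, k1, k2, k3⟩ := k (fun j => F j x) (fun j => F j y) (fun i => g i x)
    (fun j => (hy j hyU.1).symm) (fun j i => hx j i hxU.1)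
  have hdg : ∀ h : ℝ → ℝ, (fun i => h (dg m x y i)) = dg m (h x) (h y) := by
    intro h
    funext i
    unfold dg
    split_ifs <;> rfl
  refine ⟨SM m L M, dg m x y, SM_unit hLM, fun i => ?_, ?_, fun j => ⟨?_, ?_⟩⟩
  · unfold dg
    split_ifs
    · exact ⟨hyU.1, hyρ⟩
    · exact ⟨hxU.1, hxρ⟩
  · exact mt_liouville hLM (irr_left (hx 0 0 hxU.1)) (k2 0) (k1 0)
  · rw [hdg]
    exact mt_liouville hLM (irr_left (hx (j + 1) 0 hxU.1)) (k2 (j + 1)) (k1 (j + 1))
  · rw [hdg]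
    exact mt_not_liouville hLM _ (fun i hi1 => if_neg hi1) (k3 j)

/-- conjugates of diagonal matrices: powers -/
lemma conj_pow {n : ℕ} {S : Matrix (Fin n) (Fin n) ℝ} (hS : IsUnit S) (d : Fin n → ℝ) (j : ℕ) :
    (S⁻¹ * Matrix.diagonal d * S) ^ j = S⁻¹ * Matrix.diagonal (fun i => d i ^ j) * S := by
  have hdet := (Matrix.isUnit_iff_isUnit_det _).1 hS
  induction j with
  | zero =>
    simp only [pow_zero]
    rw [Matrix.diagonal_one, Matrix.mul_one, Matrix.nonsing_inv_mul _ hdet]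
  | succ j ih =>
    rw [pow_succ, ih]
    calc S⁻¹ * Matrix.diagonal (fun i => d i ^ j) * S * (S⁻¹ * Matrix.diagonal d * S)
        = S⁻¹ * Matrix.diagonal (fun i => d i ^ j) * (S * S⁻¹) * Matrix.diagonal d * S := by
          simp only [Matrix.mul_assoc]
      _ = S⁻¹ * (Matrix.diagonal (fun i => d i ^ j) * Matrix.diagonal d) * S := by
          rw [Matrix.mul_nonsing_inv _ hdet]
          simp only [Matrix.mul_one, Matrix.mul_assoc]
      _ = _ := by
          rw [Matrix.diagonal_mul_diagonal]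
          simp only [pow_succ]

/-- conjugates of diagonal matrices: power series -/
lemma conj_hasSum {n : ℕ} {S : Matrix (Fin n) (Fin n) ℝ} (hS : IsUnit S) (d e : Fin n → ℝ) (c : ℕ → ℝ)
    (hs : ∀ i, HasSum (fun j => c j * d i ^ j) (e i)) :
    HasSum (fun j : ℕ => c j • (S⁻¹ * Matrix.diagonal d * S) ^ j) (S⁻¹ * Matrix.diagonal e * S) := by
  have h1 : HasSum (fun j : ℕ => (fun i => c j * d i ^ j)) e := Pi.hasSum.2 hs
  have h2 := h1.matrix_diagonal
  have h3 := (h2.mul_left (S⁻¹)).mul_right S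
  have h4 : (fun j : ℕ => c j • (S⁻¹ * Matrix.diagonal d * S) ^ j) =
      fun j => S⁻¹ * Matrix.diagonal (fun i => c j * d i ^ j) * S := by
    ext1 j
    rw [conj_pow hS]
    have : Matrix.diagonal (fun i => c j * d i ^ j) = c j • Matrix.diagonal (fun i => d i ^ j) := by
      rw [← Matrix.diagonal_smul]
      rfl
    rw [this, Matrix.mul_smul, Matrix.smul_mul]
  rw [h4]
  exact h3

theorem main_radius (n : ℕ) (hn : 2 ≤ n) (I : Set ℝ) (f g : ℕ → ℝ → ℝ) (hIo : IsOpen I) (hIc : IsPreconnected I)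
    (h0 : (0 : ℝ) ∈ I) (hf : ∀ k, AnalyticOnNhd ℝ (f k) I) (hg : ∀ k, AnalyticOnNhd ℝ (g k) I)
    (hi : ∀ k, ¬ Moebius I (g k) id) (hii : ∀ k₁ k₂, ¬ Moebius I (f k₁) (g k₂)) (ρ : ℝ) (hρ : 0 < ρ)
    (hsf : ∀ k, ∀ z : ℝ, |z| < ρ → Summable fun j : ℕ => iteratedDeriv j (f k) 0 / (j.factorial : ℝ) * z ^ j)
    (hsg : ∀ k, ∀ z : ℝ, |z| < ρ → Summable fun j : ℕ => iteratedDeriv j (g k) 0 / (j.factorial : ℝ) * z ^ j) :
    ∃ A : Matrix (Fin n) (Fin n) ℝ, IsLiouville A ∧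
      ∀ k, (∃ B, IsValue (f k) A B ∧ IsLiouville B) ∧ (∃ B, IsValue (g k) A B ∧ ¬ IsLiouville B) := by
  obtain ⟨S, v, hS, hv, hA, hk⟩ := main_calc n hn I f g hIo hIc h0 hf hg hi hii ρ hρ
  have hval : ∀ h : ℝ → ℝ, AnalyticOnNhd ℝ h I →
      (∀ z : ℝ, |z| < ρ → Summable fun j : ℕ => iteratedDeriv j h 0 / (j.factorial : ℝ) * z ^ j) →
      IsValue h (S⁻¹ * Matrix.diagonal v * S) (S⁻¹ * Matrix.diagonal (fun i => h (v i)) * S) := by
    intro h hh hs
    exact conj_hasSum hS _ _ _ fun i => t I h hIo hIc h0 hh ρ hρ hs (v i) (hv i).1 (hv i).2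
  exact ⟨_, hA, fun j => ⟨⟨_, hval (f j) (hf j) (hsf j), (hk j).1⟩, ⟨_, hval (g j) (hg j) (hsg j), (hk j).2⟩⟩⟩

/-- the Taylor series of an analytic function has a positive radius -/
lemma exists_radius {I : Set ℝ} (h0 : (0 : ℝ) ∈ I) {f : ℝ → ℝ} (hf : AnalyticOnNhd ℝ f I) :
    ∃ ρ : ℝ, 0 < ρ ∧ ∀ z : ℝ, |z| < ρ → Summable fun j : ℕ => iteratedDeriv j f 0 / (j.factorial : ℝ) * z ^ j := by
  set c : ℕ → ℝ := fun j => iteratedDeriv j f 0 / (j.factorial : ℝ) with hc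
  have hfp : HasFPowerSeriesAt f (FormalMultilinearSeries.ofScalars ℝ c) 0 := (hf 0 h0).hasFPowerSeriesAt
  have happ : ∀ (n : ℕ) (y : ℝ), (FormalMultilinearSeries.ofScalars ℝ c) n (fun _ => y) = c n * y ^ n := by
    intro n y
    simp
    ring
  have h1 := hfp.eventually_hasSum
  obtain ⟨ρ, hρ, h2⟩ := Metric.eventually_nhds_iff.1 h1
  refine ⟨ρ, hρ, fun z hz => ?_⟩
  have h3 := (h2 (y := z) (by rwa [Real.dist_eq, sub_zero])).summable
  refine h3.congr fun j => ?_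
  rw [happ]

theorem main_finite (n : ℕ) (hn : 2 ≤ n) (I : Set ℝ) (f g : ℕ → ℝ → ℝ) (hIo : IsOpen I) (hIc : IsPreconnected I)
    (h0 : (0 : ℝ) ∈ I) (hf : ∀ k, AnalyticOnNhd ℝ (f k) I) (hg : ∀ k, AnalyticOnNhd ℝ (g k) I)
    (hi : ∀ k, ¬ Moebius I (g k) id) (hii : ∀ k₁ k₂, ¬ Moebius I (f k₁) (g k₂))
    (hff : (Set.range f).Finite) (hgf : (Set.range g).Finite) :
    ∃ A : Matrix (Fin n) (Fin n) ℝ, IsLiouville A ∧
      ∀ k, (∃ B, IsValue (f k) A B ∧ IsLiouville B) ∧ (∃ B, IsValue (g k) A B ∧ ¬ IsLiouville B) := by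
  have aux : ∀ f : ℕ → ℝ → ℝ, (∀ k, AnalyticOnNhd ℝ (f k) I) → (Set.range f).Finite → ∃ ρ : ℝ, 0 < ρ ∧
      ∀ k, ∀ z : ℝ, |z| < ρ → Summable fun j : ℕ => iteratedDeriv j (f k) 0 / (j.factorial : ℝ) * z ^ j := by
    intro f hf hff
    have h1 : ∀ h : Set.range f, ∃ ρ : ℝ, 0 < ρ ∧
        ∀ z : ℝ, |z| < ρ → Summable fun j : ℕ => iteratedDeriv j h.1 0 / (j.factorial : ℝ) * z ^ j := by
      rintro ⟨h, k, rfl⟩
      exact exists_radius h0 (hf k)
    choose r hr hr2 using h1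
    have := hff.to_subtype
    have : Nonempty (Set.range f) := ⟨⟨f 0, 0, rfl⟩⟩
    obtain ⟨h₀, hh₀⟩ := Finite.exists_min r
    refine ⟨r h₀, hr h₀, fun k z hz => ?_⟩
    exact hr2 ⟨f k, k, rfl⟩ z (lt_of_lt_of_le hz (hh₀ _))
  obtain ⟨ρ₁, h1, h1'⟩ := aux f hf hff
  obtain ⟨ρ₂, h2, h2'⟩ := aux g hg hgf
  exact main_radius n hn I f g hIo hIc h0 hf hg hi hii (min ρ₁ ρ₂) (lt_min h1 h2)
    (fun k z hz => h1' k z (lt_of_lt_of_le hz (min_le_left _ _)))
    (fun k z hz => h2' k z (lt_of_lt_of_le hz (min_le_right _ _)))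

end Pool.Agent.R353.LM
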