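import Pool.Agent.R353.LM.K1

/-!
# MP_4d0c5f_nt, part K: one step of the construction of the slopes
-/

set_option autoImplicit false

open Finset

namespace Pool.Agent.R353.LM

lemma exists_const {X : ℝ} {G : ℕ → ℝ} (J : ℕ) (hD : ∀ i, Dio X (G i)) :
    ∃ c : ℝ, 0 < c ∧ ∀ i ≤ J, DioC c X (G i) := by
  induction J with
  | zero =>
    obtain ⟨c, hc, h⟩ := hD 0
    refine ⟨c, hc, fun i hi => ?_⟩
    obtain rfl := Nat.le_zero.1 hi
    exact h
  | succ J ih =>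
    obtain ⟨c, hc, h⟩ := ih
    obtain ⟨c', hc', h'⟩ := hD (J + 1)
    refine ⟨min c c', lt_min hc hc', fun i hi w hw => ?_⟩
    have hn : 0 < ‖w‖ := lt_of_lt_of_le one_pos (one_le_norm hw)
    rcases Nat.lt_or_ge i (J + 1) with hi' | hi'
    · exact (div_le_div_of_nonneg_right (min_le_left _ _) (by positivity)).trans (h i (by omega) w hw)
    · obtain rfl : i = J + 1 := by omega
      exact (div_le_div_of_nonneg_right (min_le_right _ _) (by positivity)).trans (h' w hw)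

lemma exists_bound (G : ℕ → ℝ) (J : ℕ) : ∃ B : ℝ, 0 ≤ B ∧ ∀ i ≤ J, |G i| ≤ B := by
  induction J with
  | zero => exact ⟨|G 0|, abs_nonneg _, fun i hi => by rw [Nat.le_zero.1 hi]⟩
  | succ J ih =>
    obtain ⟨B, hB, h⟩ := ih
    refine ⟨max B |G (J + 1)|, hB.trans (le_max_left _ _), fun i hi => ?_⟩
    rcases Nat.lt_or_ge i (J + 1) with hi' | hi'
    · exact (h i (by omega)).trans (le_max_left _ _)
    · obtain rfl : i = J + 1 := by omega
      exact le_max_right _ _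

/-- the number of integers in an interval -/
lemma card_int (x h : ℝ) : 2 * h - 1 ≤ ((Finset.Icc ⌈x - h⌉ ⌊x + h⌋).card : ℝ) := by
  rw [Int.card_Icc]
  have h1 : ((⌊x + h⌋ + 1 - ⌈x - h⌉ : ℤ) : ℝ) ≤ (((⌊x + h⌋ + 1 - ⌈x - h⌉).toNat : ℕ) : ℝ) := by
    exact_mod_cast Int.self_le_toNat _
  refine le_trans ?_ h1
  push_cast
  have h2 := Int.lt_floor_add_one (x + h)
  have h3 := Int.ceil_lt_add_one (x - h)
  linarith

lemma pow_aux0 {x : ℝ} (hx : 1 < x) : 1 / x ^ 8500 < 1 / x ^ 150 :=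
  one_div_lt_one_div_of_lt (by positivity) (pow_lt_pow_right₀ hx (by norm_num))

lemma pow_aux1 {x : ℝ} (hx : 2 ≤ x) : 1 / x ^ 8500 < 1 / (2 * x ^ 150) := by
  have hx1 : 1 < x := by linarith
  have hx0 : 0 < x := by linarith
  apply one_div_lt_one_div_of_lt (by positivity)
  calc 2 * x ^ 150 ≤ x * x ^ 150 := mul_le_mul_of_nonneg_right hx (by positivity)
    _ = x ^ 151 := (pow_succ' x 150).symm
    _ < x ^ 8500 := pow_lt_pow_right₀ hx1 (by norm_num)

lemma pow_aux2 {x c : ℝ} (hc : 0 < c) (hx : 1 ≤ x) (h : 1 < c * x) : 1 / x ^ 8500 < c / x ^ 24 := by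
  have hx0 : 0 < x := by linarith
  rw [div_lt_div_iff₀ (by positivity) (by positivity), one_mul]
  calc x ^ 24 = 1 * x ^ 24 := (one_mul _).symm
    _ < (c * x) * x ^ 24 := mul_lt_mul_of_pos_right h (by positivity)
    _ = c * x ^ 25 := by rw [mul_assoc, ← pow_succ']
    _ ≤ c * x ^ 8500 := mul_le_mul_of_nonneg_left (pow_le_pow_right₀ hx (by norm_num)) hc.le

lemma pow_aux3 {R S c D : ℝ} (hR : 1 ≤ R) (hS : S = R ^ 31) (hc : 0 < c) (hD : 0 < D)
    (hbig : 2 * D / c ^ 2 < R) : 2 / R ^ 8500 < c / (D * S ^ 250) * (c / S ^ 24) := by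
  have hR0 : 0 < R := by linarith
  have hS0 : 0 < S := by rw [hS]; positivity
  rw [div_mul_div_comm, div_lt_div_iff₀ (by positivity) (by positivity)]
  have e : R ^ 8500 = R ^ 6 * (S ^ 250 * S ^ 24) := by
    rw [hS, ← pow_mul, ← pow_mul, ← pow_add, ← pow_add]
  rw [e]
  have h1 : 2 * D < R * c ^ 2 := by rwa [div_lt_iff₀ (by positivity)] at hbig
  have h2 : R ≤ R ^ 6 := by
    calc R = R ^ 1 := (pow_one _).symm
      _ ≤ R ^ 6 := pow_le_pow_right₀ hR (by norm_num)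
  have h3 : 2 * D < R ^ 6 * c ^ 2 := lt_of_lt_of_le h1 (by gcongr)
  have h4 : 0 < S ^ 250 * S ^ 24 := by positivity
  calc 2 * (D * S ^ 250 * S ^ 24) = 2 * D * (S ^ 250 * S ^ 24) := by ring
    _ < R ^ 6 * c ^ 2 * (S ^ 250 * S ^ 24) := mul_lt_mul_of_pos_right h3 h4
    _ = c * c * (R ^ 6 * (S ^ 250 * S ^ 24)) := by ring

lemma count_aux {J S η : ℝ} (hJ : 0 ≤ J) (hS : 1 ≤ S) (hη : 0 < η) (h : (81 * J + 3) / (2 * η) < S) :
    J * (2 * S + 1) ^ 4 + 1 < 2 * (η * S ^ 5) - 1 := by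
  have hS0 : 0 < S := by linarith
  have h4 : (2 * S + 1) ^ 4 ≤ (3 * S) ^ 4 := pow_le_pow_left₀ (by linarith) (by linarith) 4
  have h5 : 1 ≤ S ^ 4 := one_le_pow₀ hS
  have h6 : 81 * J + 3 < S * (2 * η) := by rwa [div_lt_iff₀ (by positivity)] at h
  have h7 : J * (2 * S + 1) ^ 4 ≤ J * (3 * S) ^ 4 := mul_le_mul_of_nonneg_left h4 hJ
  have h8 : (81 * J + 3) * S ^ 4 < S * (2 * η) * S ^ 4 := mul_lt_mul_of_pos_right h6 (by positivity)
  have h9 : J * (3 * S) ^ 4 = 81 * J * S ^ 4 := by ring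
  have h10 : S * (2 * η) * S ^ 4 = 2 * (η * S ^ 5) := by ring
  have h11 : (81 * J + 3) * S ^ 4 = 81 * J * S ^ 4 + 3 * S ^ 4 := by ring
  linarith

lemma close_aux {B κ R q : ℝ} (hκ : 0 < κ) (hR : 1 ≤ R) (hq : 0 < q) (hRq : R ^ 152 ≤ q)
    (h : 2 * (1 + B) / κ < R) : 1 / (κ * q) * ((1 + B) * R) ≤ 1 / (2 * R ^ 150) := by
  have hR0 : 0 < R := by linarith
  rw [div_mul_eq_mul_div, one_mul, div_le_div_iff₀ (by positivity) (by positivity), one_mul]
  have h6 : 2 * (1 + B) ≤ κ * R := by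
    rw [div_lt_iff₀ hκ] at h
    linarith
  calc (1 + B) * R * (2 * R ^ 150) = 2 * (1 + B) * R ^ 151 := by ring
    _ ≤ κ * R * R ^ 151 := mul_le_mul_of_nonneg_right h6 (by positivity)
    _ = κ * R ^ 152 := by ring
    _ ≤ κ * q := mul_le_mul_of_nonneg_left hRq hκ.le

/-- two different slopes cannot be bad for the same vector -/
lemma two_bad {c X G D R S L1 L2 : ℝ} (hc : 0 < c) (hDc : DioC c X G) (hR : 1 ≤ R) (hS : S = R ^ 31) (hD : 0 < D)
    (hbig : 2 * D / c ^ 2 < R) (hR5 : 1 / c < R) (hsep : c / (D * S ^ 250) ≤ |L1 - L2|) {w : Fin 4 → ℤ}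
    (h3 : R < ‖w‖) (h4 : ‖w‖ < S) (h5 : |lin L1 G w| ≤ 1 / ‖w‖ ^ 8500) (k5 : |lin L2 G w| ≤ 1 / ‖w‖ ^ 8500) :
    False := by
  have hR0 : 0 < R := by linarith
  have hn0 : 0 < ‖w‖ := hR0.trans h3
  have hS0 : 0 < S := hn0.trans h4
  have hw0 : w ≠ 0 := by
    rintro rfl
    simp at hn0
  by_cases hw13 : w 1 = 0 ∧ w 3 = 0
  · have h6 := lin_ge_of_coef_zero (L := L1) hDc hw0 hw13.1 hw13.2
    have h8 : 1 < c * ‖w‖ := by
      rw [div_lt_iff₀ hc] at hR5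
      have h9 : R * c < ‖w‖ * c := mul_lt_mul_of_pos_right h3 hc
      linarith
    have h7 := pow_aux2 hc (hR.trans h3.le) h8
    exact absurd (h6.trans h5) (not_le.2 h7)
  · have hor : w 1 ≠ 0 ∨ w 3 ≠ 0 := by
      by_contra h
      push Not at h
      exact hw13 h
    have h6 := coef_ge hc hDc hor
    have h7 : |lin L1 G w - lin L2 G w| ≤ 2 / ‖w‖ ^ 8500 := by
      refine (abs_sub _ _).trans ((add_le_add h5 k5).trans (le_of_eq ?_))
      generalize ‖w‖ ^ 8500 = z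
      ring
    rw [lin_sub, abs_mul] at h7
    have h8 : c / S ^ 24 ≤ |(w 1 : ℝ) + w 3 * G| := by
      refine le_trans ?_ h6
      exact div_le_div_of_nonneg_left hc.le (pow_pos hn0 24) (pow_le_pow_left₀ hn0.le h4.le 24)
    have h80 : 0 ≤ c / S ^ 24 := div_nonneg hc.le (pow_pos hS0 24).le
    have h9 := le_trans (mul_le_mul hsep h8 h80 (abs_nonneg _)) h7
    have h10 : (2 : ℝ) / ‖w‖ ^ 8500 ≤ 2 / R ^ 8500 :=
      div_le_div_of_nonneg_left (by norm_num) (pow_pos hR0 _) (pow_le_pow_left₀ hR0.le h3.le _)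
    exact absurd (h9.trans h10) (not_le.2 (pow_aux3 hR hS hc hD hbig))

/-- one step of the construction -/
theorem stage {X Y : ℝ} (hXY : X ≠ Y) {G : ℕ → ℝ} (hD : ∀ i, Dio X (G i)) (J : ℕ) {L M : ℝ} (hLM : L ≠ M) {T : ℕ}
    (hT : 2 ≤ T) (hP : ∀ i < J, ∀ w : Fin 4 → ℤ, (T : ℝ) ≤ ‖w‖ → 1 / ‖w‖ ^ 150 ≤ |lin L (G i) w|)
    {ε : ℝ} (hε : 0 < ε) (β : ℝ) :
    ∃ (S : ℕ) (a b : ℤ) (L' M' : ℝ), T < S ∧ b ≠ 0 ∧ L' = (a - (S : ℝ) ^ 5 * X) / b ∧
      M' = (a - (S : ℝ) ^ 5 * Y) / b ∧ |L' - L| < ε ∧ |M' - M| < ε ∧ L' ≠ β ∧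
      (∀ i ≤ J, ∀ w : Fin 4 → ℤ, (S : ℝ) ≤ ‖w‖ → 1 / ‖w‖ ^ 150 ≤ |lin L' (G i) w|) ∧
      (∀ i < J, ∀ w : Fin 4 → ℤ, (T : ℝ) ≤ ‖w‖ → 1 / ‖w‖ ^ 8500 < |lin L' (G i) w|) := by
  classical
  obtain ⟨c, hc, hDc⟩ := exists_const J hD
  obtain ⟨B, hB0, hB⟩ := exists_bound G J
  have hd : L - M ≠ 0 := sub_ne_zero.2 hLM
  set κ : ℝ := (Y - X) / (L - M) with hκ
  have hκ0 : κ ≠ 0 := div_ne_zero (sub_ne_zero.2 hXY.symm) hd
  have hκp : 0 < |κ| := abs_pos.2 hκ0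
  have hdp : 0 < |L - M| := abs_pos.2 hd
  -- the width of the range of `b`
  obtain ⟨η, hη0, hη1, hη2, hη3⟩ : ∃ η : ℝ, 0 < η ∧ η ≤ |κ| / 2 ∧ η ≤ 1 ∧ 4 * |L - M| * η ≤ ε * |κ| := by
    refine ⟨min (min (|κ| / 2) 1) (ε * |κ| / (4 * |L - M|)), by positivity, ?_, ?_, ?_⟩
    · exact (min_le_left _ _).trans (min_le_left _ _)
    · exact (min_le_left _ _).trans (min_le_right _ _)
    · have := min_le_right (min (|κ| / 2) 1) (ε * |κ| / (4 * |L - M|))
      rw [le_div_iff₀ (by positivity)] at this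
      linarith
  set C : ℝ := |κ| + 1 + |X| + |L| * (|κ| + 1) + 1 with hC
  have hC1 : 1 ≤ C := by
    have := abs_nonneg X
    have := abs_nonneg L
    have : 0 ≤ |L| * (|κ| + 1) := by positivity
    linarith
  -- the choice of `R`
  obtain ⟨R, hR⟩ := exists_nat_gt (max (max (max (T : ℝ) ((2 * C) ^ 24 * C / c)) (max (2 / (|κ| * ε))
    (2 * (1 + B) / |κ|))) (max (max (1 / c) (2 * ((2 * C ^ 2) ^ 24 * C ^ 2) / c ^ 2)) ((81 * J + 3) / (2 * η))))
  simp only [max_lt_iff] at hR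
  obtain ⟨⟨⟨hR1, hR2⟩, hR3, hR4⟩, ⟨hR5, hR6⟩, hR7⟩ := hR
  have hTR : T < R := by exact_mod_cast hR1
  have hR2' : (2 : ℝ) ≤ R := by exact_mod_cast (show 2 ≤ R by omega)
  have hR0 : (0 : ℝ) < R := by linarith
  have hRone : (1 : ℝ) ≤ R := by linarith
  set S : ℕ := R ^ 31 with hS
  have hSr : (S : ℝ) = (R : ℝ) ^ 31 := by rw [hS]; push_cast; rfl
  have hRS : (R : ℝ) ≤ S := by
    rw [hSr]
    calc (R : ℝ) = R ^ 1 := (pow_one _).symm
      _ ≤ R ^ 31 := pow_le_pow_right₀ hRone (by norm_num)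
  have hS1 : 1 ≤ S := Nat.one_le_pow _ _ (by omega)
  have hS1' : (1 : ℝ) ≤ S := by exact_mod_cast hS1
  have hRSn : R ≤ S := by exact_mod_cast hRS
  have hTS : T < S := lt_of_lt_of_le hTR hRSn
  set q : ℝ := (S : ℝ) ^ 5 with hq
  have hq0 : 0 < q := by positivity
  have hq1 : 1 ≤ q := one_le_pow₀ hS1'
  have hRq : (R : ℝ) ≤ q := by
    rw [hq]
    calc (R : ℝ) ≤ S := hRS
      _ = (S : ℝ) ^ 1 := (pow_one _).symm
      _ ≤ (S : ℝ) ^ 5 := pow_le_pow_right₀ hS1' (by norm_num)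
  have hR152 : (R : ℝ) ^ 152 ≤ q := by
    rw [hq, hSr, ← pow_mul]
    exact pow_le_pow_right₀ hRone (by norm_num)
  -- the candidates
  let A : ℤ → ℤ := fun b => round (q * X + L * b)
  let Lb : ℤ → ℝ := fun b => (A b - q * X) / b
  let Mb : ℤ → ℝ := fun b => (A b - q * Y) / b
  set K : Finset ℤ := Finset.Icc ⌈κ * q - η * q⌉ ⌊κ * q + η * q⌋ with hK
  have hround : ∀ b : ℤ, |(A b : ℝ) - (q * X + L * b)| ≤ 1 / 2 := by
    intro b
    have := abs_sub_round (q * X + L * b)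
    rw [abs_sub_comm]
    exact this
  have hbK : ∀ b ∈ K, |(b : ℝ) - κ * q| ≤ η * q := by
    intro b hb
    rw [hK, Finset.mem_Icc, Int.ceil_le, Int.le_floor] at hb
    rw [abs_le]
    constructor <;> linarith [hb.1, hb.2]
  have hblow : ∀ b ∈ K, |κ| * q / 2 ≤ |(b : ℝ)| := by
    intro b hb
    have h1 := hbK b hb
    have h2 : |κ * q| ≤ |(b : ℝ)| + |(b : ℝ) - κ * q| := by
      have := abs_sub_abs_le_abs_sub (κ * q) (b : ℝ)
      rw [abs_sub_comm] at this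
      linarith
    rw [abs_mul, abs_of_pos hq0] at h2
    have h3 : η * q ≤ |κ| / 2 * q := by gcongr
    linarith
  have hbpos : ∀ b ∈ K, 0 < |(b : ℝ)| := fun b hb => lt_of_lt_of_le (by positivity) (hblow b hb)
  have hb0 : ∀ b ∈ K, b ≠ 0 := by
    intro b hb h
    have := hbpos b hb
    rw [h] at this
    simp at this
  have hbup : ∀ b ∈ K, |(b : ℝ)| ≤ (|κ| + 1) * q := by
    intro b hb
    have h1 := hbK b hb
    have h2 : |(b : ℝ)| ≤ |κ * q| + |(b : ℝ) - κ * q| := by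
      have := abs_sub_abs_le_abs_sub (b : ℝ) (κ * q)
      linarith
    rw [abs_mul, abs_of_pos hq0] at h2
    have h3 : η * q ≤ 1 * q := by gcongr
    linarith
  have hbC : ∀ b ∈ K, |(b : ℝ)| ≤ C * q := by
    intro b hb
    refine (hbup b hb).trans ?_
    have := abs_nonneg X
    have : 0 ≤ |L| * (|κ| + 1) := by positivity
    gcongr
    rw [hC]
    linarith
  have haC : ∀ b ∈ K, |(A b : ℝ)| ≤ C * q := by
    intro b hb
    have h1 := hround b
    have h2 : |(A b : ℝ)| ≤ |q * X + L * b| + |(A b : ℝ) - (q * X + L * b)| := by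
      have := abs_sub_abs_le_abs_sub (A b : ℝ) (q * X + L * b)
      linarith
    have h3 : |q * X + L * b| ≤ q * |X| + |L| * ((|κ| + 1) * q) := by
      calc |q * X + L * b| ≤ |q * X| + |L * (b : ℝ)| := abs_add_le _ _
        _ = q * |X| + |L| * |(b : ℝ)| := by rw [abs_mul, abs_mul, abs_of_pos hq0]
        _ ≤ _ := by gcongr; exact hbup b hb
    have h4 : C * q = q * |X| + |L| * ((|κ| + 1) * q) + (|κ| + 1 + 1) * q := by rw [hC]; ring
    have h5 : (1 : ℝ) / 2 ≤ (|κ| + 1 + 1) * q := by nlinarith [mul_pos hκp hq0]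
    linarith
  -- closeness
  have hLclose : ∀ b ∈ K, |Lb b - L| ≤ 1 / (|κ| * q) := by
    intro b hb
    have hbr : (b : ℝ) ≠ 0 := by exact_mod_cast hb0 b hb
    have e : Lb b - L = ((A b : ℝ) - (q * X + L * b)) / b := by
      simp only [Lb]
      field_simp
      ring
    rw [e, abs_div, div_le_div_iff₀ (hbpos b hb) (by positivity)]
    have h1 := hround b
    have h2 := hblow b hb
    have h3 : |(A b : ℝ) - (q * X + L * b)| * (|κ| * q) ≤ 1 / 2 * (|κ| * q) := by gcongr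
    linarith
  have hqε : 1 / (|κ| * q) < ε / 2 := by
    rw [div_lt_div_iff₀ (by positivity) (by norm_num)]
    have h1 : 2 / (|κ| * ε) < q := lt_of_lt_of_le hR3 hRq
    rw [div_lt_iff₀ (by positivity)] at h1
    linarith
  have hMclose : ∀ b ∈ K, |Mb b - M| < ε := by
    intro b hb
    have hbr : (b : ℝ) ≠ 0 := by exact_mod_cast hb0 b hb
    have e0 : q * (X - Y) = -((L - M) * (κ * q)) := by
      rw [hκ]; field_simp; ring
    have e : Mb b - M = (((A b : ℝ) - (q * X + L * b)) + (L - M) * (b - κ * q)) / b := by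
      simp only [Mb]
      rw [eq_div_iff hbr, sub_mul, div_mul_cancel₀ _ hbr]
      linear_combination e0
    have h1 := hround b
    have h2 := hblow b hb
    have h3 := hbK b hb
    have h4 : |((A b : ℝ) - (q * X + L * b)) + (L - M) * (b - κ * q)| ≤ 1 / 2 + |L - M| * (η * q) := by
      refine (abs_add_le _ _).trans (add_le_add h1 ?_)
      rw [abs_mul]
      gcongr
    rw [e, abs_div, div_lt_iff₀ (hbpos b hb)]
    have h5 : ε * (|κ| * q / 2) ≤ ε * |(b : ℝ)| := by gcongr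
    have h6 : 4 * |L - M| * η * q ≤ ε * |κ| * q := by gcongr
    rw [div_lt_div_iff₀ (by positivity) (by norm_num)] at hqε
    refine lt_of_le_of_lt h4 (lt_of_lt_of_le ?_ h5)
    linarith
  -- the estimate for `‖w‖ ≤ R`
  have hsmall : ∀ b ∈ K, ∀ i < J, ∀ w : Fin 4 → ℤ, (T : ℝ) ≤ ‖w‖ → ‖w‖ ≤ R →
      1 / ‖w‖ ^ 8500 < |lin (Lb b) (G i) w| := by
    intro b hb i hi w hw hwR
    have hT' : (2 : ℝ) ≤ T := by exact_mod_cast hT
    have hn2 : 2 ≤ ‖w‖ := hT'.trans hw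
    have hn0 : 0 < ‖w‖ := by linarith
    have h1 := hP i hi w hw
    have h2 : |lin (Lb b) (G i) w - lin L (G i) w| ≤ 1 / (2 * ‖w‖ ^ 150) := by
      rw [lin_sub, abs_mul]
      have h3 := hLclose b hb
      have h4 := coef_le (G i) w
      have h5 : (1 + |G i|) * ‖w‖ ≤ (1 + B) * R := by
        have := hB i hi.le
        gcongr
      calc |Lb b - L| * |(w 1 : ℝ) + w 3 * G i| ≤ 1 / (|κ| * q) * ((1 + B) * R) := by
            gcongr
            exact h4.trans h5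
        _ ≤ 1 / (2 * (R : ℝ) ^ 150) := close_aux hκp hRone hq0 hR152 hR4
        _ ≤ 1 / (2 * ‖w‖ ^ 150) := by
            apply one_div_le_one_div_of_le (by positivity)
            gcongr
    have h8 : |lin L (G i) w| ≤ |lin (Lb b) (G i) w| + |lin (Lb b) (G i) w - lin L (G i) w| := by
      have := abs_sub_abs_le_abs_sub (lin L (G i) w) (lin (Lb b) (G i) w)
      rw [abs_sub_comm] at this
      linarith
    have h9 : (1 : ℝ) / ‖w‖ ^ 150 = 1 / (2 * ‖w‖ ^ 150) + 1 / (2 * ‖w‖ ^ 150) := by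
      field_simp
      norm_num
    have h10 := pow_aux1 hn2
    linarith
  -- the estimate for `‖w‖ ≥ S`
  have hlarge : ∀ b ∈ K, ∀ i ≤ J, ∀ w : Fin 4 → ℤ, (S : ℝ) ≤ ‖w‖ → 1 / ‖w‖ ^ 150 ≤ |lin (Lb b) (G i) w| := by
    intro b hb i hi w hw
    exact step_large hc (hDc i hi) hC1 hS1 (hb0 b hb) (haC b hb) (hbC b hb) (hR2.le.trans hRS) w hw
  -- pigeonhole
  obtain ⟨b, hbmem, hbβ, hbgood⟩ : ∃ b ∈ K, Lb b ≠ β ∧ ∀ i < J, ∀ w : Fin 4 → ℤ, (R : ℝ) < ‖w‖ → ‖w‖ < S →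
      1 / ‖w‖ ^ 8500 < |lin (Lb b) (G i) w| := by
    by_contra hcon
    push Not at hcon
    have hw : ∀ b : ℤ, ∃ t : Option (ℕ × (Fin 4 → ℤ)), b ∈ K → (t = none ∧ Lb b = β) ∨
        ∃ i w, t = some (i, w) ∧ i < J ∧ (R : ℝ) < ‖w‖ ∧ ‖w‖ < S ∧ |lin (Lb b) (G i) w| ≤ 1 / ‖w‖ ^ 8500 := by
      intro b
      by_cases hb : b ∈ K
      · by_cases hβ : Lb b = β
        · exact ⟨none, fun _ => Or.inl ⟨rfl, hβ⟩⟩
        · obtain ⟨i, hi, w, h1, h2, h3⟩ := hcon b hb hβ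
          exact ⟨some (i, w), fun _ => Or.inr ⟨i, w, rfl, hi, h1, h2, h3⟩⟩
      · exact ⟨none, fun h => absurd h hb⟩
    choose t ht using hw
    set U : Finset (Option (ℕ × (Fin 4 → ℤ))) :=
      insert none ((Finset.range J ×ˢ box S).image some) with hU
    have hcard : U.card < K.card := by
      have h1 : U.card ≤ J * (2 * S + 1) ^ 4 + 1 := by
        refine (Finset.card_insert_le _ _).trans ?_
        gcongr
        refine Finset.card_image_le.trans ?_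
        rw [Finset.card_product, Finset.card_range, card_box]
      have h2 := card_int (κ * q) (η * q)
      have h3 : ((J * (2 * S + 1) ^ 4 + 1 : ℕ) : ℝ) < K.card := by
        refine lt_of_lt_of_le ?_ h2
        push_cast
        exact count_aux (Nat.cast_nonneg J) hS1' hη0 (lt_of_lt_of_le hR7 hRS)
      have h4 : U.card ≤ J * (2 * S + 1) ^ 4 + 1 := h1
      have h5 : ((U.card : ℕ) : ℝ) < K.card := lt_of_le_of_lt (by exact_mod_cast h4) h3
      exact_mod_cast h5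
    have hmaps : ∀ b ∈ K, t b ∈ U := by
      intro b hb
      rcases ht b hb with ⟨h1, _⟩ | ⟨i, w, h1, h2, _, h4, _⟩
      · rw [h1, hU]
        exact Finset.mem_insert_self _ _
      · rw [h1, hU]
        apply Finset.mem_insert_of_mem
        apply Finset.mem_image_of_mem
        exact Finset.mk_mem_product (Finset.mem_range.2 h2) (mem_box h4.le)
    obtain ⟨b, hb, b', hb', hne, htt⟩ := Finset.exists_ne_map_eq_of_card_lt_of_maps_to hcard hmaps
    have hsep := slopes_sep (G := G 0) hc (hDc 0 (Nat.zero_le _)) hC1 hS1 (hb0 b hb) (hb0 b' hb') hne (haC b hb)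
      (hbC b hb) (haC b' hb') (hbC b' hb')
    change _ ≤ |Lb b - Lb b'| at hsep
    have hδpos : 0 < c / ((2 * C ^ 2) ^ 24 * C ^ 2 * (S : ℝ) ^ 250) := by positivity
    clear_value A
    rcases ht b hb with ⟨h1, h1'⟩ | ⟨i, w, h1, h2, h3, h4, h5⟩
    · rcases ht b' hb' with ⟨_, k1'⟩ | ⟨i', w', k1, _⟩
      · exact absurd (hsep.trans (by rw [h1', k1', sub_self, abs_zero])) (not_le.2 hδpos)
      · rw [h1, k1] at htt
        exact absurd htt (by simp)
    · rcases ht b' hb' with ⟨k1, _⟩ | ⟨i', w', k1, _, _, _, k5⟩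
      · rw [h1, k1] at htt
        exact absurd htt (by simp)
      · rw [h1, k1] at htt
        obtain ⟨rfl, rfl⟩ : i = i' ∧ w = w' := by simpa using htt
        exact two_bad hc (hDc i h2.le) hRone hSr (D := (2 * C ^ 2) ^ 24 * C ^ 2) (by positivity)
          hR6 hR5 hsep h3 h4 h5 k5
  have hLeq : Lb b = (A b - (S : ℝ) ^ 5 * X) / b := by simp only [Lb, q]
  have hMeq : Mb b = (A b - (S : ℝ) ^ 5 * Y) / b := by simp only [Mb, q]
  have hLc : |Lb b - L| < ε := lt_of_le_of_lt (hLclose b hbmem) (hqε.trans (by linarith))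
  have hfin : ∀ i < J, ∀ w : Fin 4 → ℤ, (T : ℝ) ≤ ‖w‖ → 1 / ‖w‖ ^ 8500 < |lin (Lb b) (G i) w| := by
    intro i hi w hw
    rcases le_or_gt ‖w‖ R with h1 | h1
    · exact hsmall b hbmem i hi w hw h1
    rcases lt_or_ge ‖w‖ S with h2 | h2
    · exact hbgood i hi w h1 h2
    · exact lt_of_lt_of_le (pow_aux0 (lt_of_le_of_lt hRone h1)) (hlarge b hbmem i hi.le w h2)
  exact ⟨S, A b, b, Lb b, Mb b, hTS, hb0 b hbmem, hLeq, hMeq, hLc, hMclose b hbmem, hbβ, hlarge b hbmem, hfin⟩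

end Pool.Agent.R353.LM
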