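import Mathlib
import Pool.Agent.R353.LM.Stm

/-!
# Part N of MP_4d0c5f_nt: nilpotency from shrinking radii of convergence
-/

set_option autoImplicit false

open MeasureTheory Topology Filter

namespace Pool.Agent.R353.LM

namespace N

/-- the functions with shrinking radii of convergence -/
noncomputable def fF (k : ℕ) (z : ℝ) : ℝ := 1 / (1 + ((k : ℝ) + 1) ^ 2 * z ^ 2)

/-- the polynomials -/
def gG (n : ℕ) (z : ℝ) : ℝ := z + z ^ (2 * n + 3)

/-- the Taylor coefficients of `fF k` -/
noncomputable def cF (k j : ℕ) : ℝ := if Even j then (-1) ^ (j / 2) * ((k : ℝ) + 1) ^ j else 0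

/-- the Taylor coefficients of `gG n` -/
def cG (n j : ℕ) : ℝ := (if j = 1 then 1 else 0) + (if j = 2 * n + 3 then 1 else 0)

theorem fF_den_pos (k : ℕ) (z : ℝ) : 0 < 1 + ((k : ℝ) + 1) ^ 2 * z ^ 2 := by positivity

theorem fF_analytic (k : ℕ) : AnalyticOnNhd ℝ (fF k) Set.univ := by
  intro z _
  unfold fF
  refine AnalyticAt.fun_div (by fun_prop) (by fun_prop) (fF_den_pos k z).ne'

theorem gG_analytic (n : ℕ) : AnalyticOnNhd ℝ (gG n) Set.univ := by
  intro z _
  unfold gG
  fun_prop

/-- Taylor coefficients from a convergent series. -/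
theorem taylor_coeff {f : ℝ → ℝ} {c : ℕ → ℝ} (hf : AnalyticAt ℝ f 0)
    (h : ∀ᶠ z in 𝓝 (0 : ℝ), HasSum (fun j => z ^ j * c j) (f z)) (j : ℕ) :
    iteratedDeriv j f 0 / (j.factorial : ℝ) = c j := by
  have h1 : HasFPowerSeriesAt f (FormalMultilinearSeries.ofScalars ℝ c) 0 := by
    rw [hasFPowerSeriesAt_iff]
    filter_upwards [h] with z hz
    simpa [FormalMultilinearSeries.coeff_ofScalars] using hz
  have h2 := hf.hasFPowerSeriesAt
  have h3 := h2.eq_formalMultilinearSeries h1
  have h4 := congrArg (fun p => FormalMultilinearSeries.coeff p j) h3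
  simpa [FormalMultilinearSeries.coeff_ofScalars] using h4

theorem coeff_F (k j : ℕ) : iteratedDeriv j (fF k) 0 / (j.factorial : ℝ) = cF k j := by
  refine taylor_coeff (fF_analytic k 0 (Set.mem_univ _)) ?_ j
  have hk : (0 : ℝ) < (k : ℝ) + 1 := by positivity
  have : ∀ᶠ z in 𝓝 (0 : ℝ), |z| < 1 / ((k : ℝ) + 1) := by
    have h := Metric.ball_mem_nhds (0 : ℝ) (show (0 : ℝ) < 1 / ((k : ℝ) + 1) by positivity)
    filter_upwards [h] with z hz
    simpa using hz
  filter_upwards [this] with z hz
  have hinj : Function.Injective (fun m : ℕ => 2 * m) := fun a b h => by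
    simp only at h
    omega
  rw [← hinj.hasSum_iff (f := fun j => z ^ j * cF k j)]
  · have h1 : |(-(((k : ℝ) + 1) * z) ^ 2)| < 1 := by
      rw [abs_neg, abs_pow, abs_mul, abs_of_pos hk]
      have : ((k : ℝ) + 1) * |z| < 1 := by
        rw [lt_div_iff₀ hk] at hz
        linarith
      exact pow_lt_one₀ (by positivity) this two_ne_zero
    have h2 := hasSum_geometric_of_abs_lt_one h1
    have h3 : (1 - (-(((k : ℝ) + 1) * z) ^ 2))⁻¹ = fF k z := by
      unfold fF
      rw [one_div]
      congr 1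
      ring
    rw [h3] at h2
    convert h2 using 1
    ext m
    simp only [Function.comp, cF]
    rw [if_pos (even_two_mul m), Nat.mul_div_cancel_left m two_pos, pow_mul, pow_mul]
    rw [← mul_pow, ← mul_pow]
    congr 1
    ring
  · intro j hj
    have : ¬ Even j := by
      rintro ⟨m, hm⟩
      exact hj ⟨m, by simp only; omega⟩
    simp [cF, this]

theorem coeff_G (n j : ℕ) : iteratedDeriv j (gG n) 0 / (j.factorial : ℝ) = cG n j := by
  refine taylor_coeff (gG_analytic n 0 (Set.mem_univ _)) ?_ j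
  refine Filter.Eventually.of_forall fun z => ?_
  have h1 := (hasSum_ite_eq 1 z).add (hasSum_ite_eq (2 * n + 3) (z ^ (2 * n + 3)))
  unfold gG
  convert h1 using 1
  ext j
  simp only [cG, mul_add]
  congr 1
  · split_ifs with h
    · rw [h]; simp
    · simp
  · split_ifs with h
    · rw [h]; simp
    · simp

theorem not_moebius_G (n : ℕ) : ¬ Moebius Set.univ (gG n) id := by
  rintro ⟨a, b, c, d, hcd, h⟩
  have hc : c = 0 := by
    by_contra hc
    refine (h (-d / c) (Set.mem_univ _)).1 ?_
    simp only [id]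
    field_simp
    ring
  subst hc
  have hd : d ≠ 0 := by
    rcases hcd with h | h
    · exact absurd rfl h
    · exact h
  have h0 := (h 0 (Set.mem_univ _)).2
  have h1 := (h 1 (Set.mem_univ _)).2
  have h2 := (h 2 (Set.mem_univ _)).2
  simp only [gG, id, zero_mul, zero_add, mul_zero, mul_one, one_pow] at h0 h1 h2
  rw [zero_pow (by omega), eq_comm, div_eq_zero_iff] at h0
  have hb : b = 0 := by tauto
  subst hb
  rw [eq_div_iff hd] at h1 h2
  have h3 : (2 : ℝ) ^ (2 * n + 3) * d = 2 * d := by linarith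
  have h4 := mul_right_cancel₀ hd h3
  have h5 : (2 : ℝ) ^ 3 ≤ 2 ^ (2 * n + 3) := pow_le_pow_right₀ (by norm_num) (by omega)
  norm_num at h5
  linarith

theorem gG_surj (n : ℕ) (y : ℝ) : ∃ z, gG n z = y := by
  have hcont : ContinuousOn (gG n) (Set.Icc (-|y|) |y|) := by
    unfold gG
    fun_prop
  have h1 := intermediate_value_Icc (by linarith [abs_nonneg y]) hcont
  have hodd : Odd (2 * n + 3) := ⟨n + 1, by ring⟩
  have h2 : y ∈ Set.Icc (gG n (-|y|)) (gG n |y|) := by
    unfold gG
    rw [hodd.neg_pow]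
    have : 0 ≤ |y| ^ (2 * n + 3) := by positivity
    constructor
    · linarith [neg_abs_le y]
    · linarith [le_abs_self y]
  obtain ⟨z, _, hz⟩ := h1 h2
  exact ⟨z, hz⟩

theorem not_moebius_F (n k : ℕ) : ¬ Moebius Set.univ (fF k) (gG n) := by
  rintro ⟨a, b, c, d, hcd, h⟩
  have hc : c = 0 := by
    by_contra hc
    obtain ⟨z, hz⟩ := gG_surj n (-d / c)
    refine (h z (Set.mem_univ _)).1 ?_
    rw [hz]
    field_simp
    ring
  subst hc
  have hd : d ≠ 0 := by
    rcases hcd with h | h
    · exact absurd rfl h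
    · exact h
  have h0 := (h 0 (Set.mem_univ _)).2
  have h1 := (h 1 (Set.mem_univ _)).2
  have h2 := (h (-1) (Set.mem_univ _)).2
  have hodd : Odd (2 * n + 3) := ⟨n + 1, by ring⟩
  have e0 : gG n 0 = 0 := by
    unfold gG
    rw [zero_pow (by omega)]
    ring
  have e1 : gG n 1 = 2 := by
    unfold gG
    rw [one_pow]
    norm_num
  have e2 : gG n (-1) = -2 := by
    unfold gG
    rw [hodd.neg_pow, one_pow]
    norm_num
  rw [e0] at h0
  rw [e1] at h1
  rw [e2] at h2
  have f12 : fF k (-1) = fF k 1 := by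
    unfold fF
    norm_num
  rw [f12, h1] at h2
  simp only [zero_mul, zero_add, mul_zero] at h0 h1 h2
  rw [div_left_inj' hd] at h2
  have ha : a = 0 := by linarith
  subst ha
  rw [zero_mul, zero_add, ← h0] at h1
  have hk : (0 : ℝ) < (k : ℝ) + 1 := by positivity
  unfold fF at h1
  have h3 : (0 : ℝ) < ((k : ℝ) + 1) ^ 2 := by positivity
  have h4 : 1 / (1 + ((k : ℝ) + 1) ^ 2 * 1 ^ 2) < 1 := by
    rw [div_lt_one (by positivity)]
    linarith
  rw [h1] at h4
  norm_num at h4

/-- Only nilpotent matrices are in the domain of all `fF k`. -/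
theorem nilp {n : ℕ} (A : Matrix (Fin n) (Fin n) ℝ) (h : ∀ k, ∃ B, IsValue (fF k) A B) : A ^ n = 0 := by
  classical
  set Ac : Matrix (Fin n) (Fin n) ℂ := A.map (algebraMap ℝ ℂ) with hAc
  have hroot : ∀ lam ∈ Ac.charpoly.roots, lam = 0 := by
    intro lam hlam
    by_contra hne
    have hroot : Ac.charpoly.eval lam = 0 := (Polynomial.mem_roots'.1 hlam).2
    rw [Matrix.eval_charpoly] at hroot
    obtain ⟨v, hv, hvz⟩ := Matrix.exists_mulVec_eq_zero_iff.2 hroot
    have hAv : Ac.mulVec v = lam • v := by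
      rw [Matrix.sub_mulVec, sub_eq_zero] at hvz
      rw [← hvz]
      simp [Matrix.scalar_apply]
    have hpow : ∀ m : ℕ, (Ac ^ m).mulVec v = lam ^ m • v := by
      intro m
      induction m with
      | zero => simp
      | succ m ih => rw [pow_succ, ← Matrix.mulVec_mulVec, hAv, Matrix.mulVec_smul, ih, smul_smul, pow_succ, mul_comm]
    obtain ⟨k, hk⟩ := exists_nat_gt (1 / ‖lam‖)
    obtain ⟨B, hB⟩ := h k
    have ht := hB.summable.tendsto_atTop_zero
    have ht2 : Tendsto (fun m : ℕ => (cF k (2 * m)) • A ^ (2 * m)) atTop (𝓝 0) := by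
      have := ht.comp (tendsto_id.const_mul_atTop' (r := 2) two_pos)
      refine this.congr fun m => ?_
      simp only [Function.comp, id, coeff_F]
    have hcont : Continuous fun M : Matrix (Fin n) (Fin n) ℝ => (M.map (algebraMap ℝ ℂ)).mulVec v := by
      refine Continuous.matrix_mulVec ?_ continuous_const
      exact continuous_id.matrix_map Complex.continuous_ofReal
    have ht3 := (hcont.tendsto 0).comp ht2
    have h0 : ((0 : Matrix (Fin n) (Fin n) ℝ).map (algebraMap ℝ ℂ)).mulVec v = 0 := by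
      simp
    rw [h0] at ht3
    have ht4 : Tendsto (fun m : ℕ => ((cF k (2 * m) : ℝ) : ℂ) • (lam ^ (2 * m) • v)) atTop (𝓝 0) := by
      refine ht3.congr fun m => ?_
      simp only [Function.comp]
      rw [← hpow]
      have : (cF k (2 * m) • A ^ (2 * m)).map (algebraMap ℝ ℂ) = ((cF k (2 * m) : ℝ) : ℂ) • Ac ^ (2 * m) := by
        rw [hAc, ← Matrix.map_pow]
        ext i j
        simp
      rw [this, Matrix.smul_mulVec]
    have ht5 := ht4.norm
    simp only [norm_zero, norm_smul, norm_pow] at ht5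
    have hvn : 0 < ‖v‖ := norm_pos_iff.2 hv
    have hbig : ∀ m : ℕ, ‖v‖ ≤ ‖((cF k (2 * m) : ℝ) : ℂ)‖ * (‖lam‖ ^ (2 * m) * ‖v‖) := by
      intro m
      rw [Complex.norm_real]
      simp only [cF, if_pos (even_two_mul m)]
      rw [norm_mul, norm_pow, norm_pow, norm_neg, norm_one, one_pow, one_mul, Real.norm_eq_abs,
        abs_of_pos (show (0 : ℝ) < (k : ℝ) + 1 by positivity), ← mul_assoc, ← mul_pow]
      have hl : 0 < ‖lam‖ := norm_pos_iff.2 hne
      have h1 : 1 ≤ ((k : ℝ) + 1) * ‖lam‖ := by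
        rw [div_lt_iff₀ hl] at hk
        nlinarith
      have h2 : 1 ≤ (((k : ℝ) + 1) * ‖lam‖) ^ (2 * m) := one_le_pow₀ h1
      nlinarith
    have := ge_of_tendsto' ht5 hbig
    linarith
  have hcp : Ac.charpoly = Polynomial.X ^ n := by
    have h1 := (IsAlgClosed.splits Ac.charpoly).eq_prod_roots_of_monic (Matrix.charpoly_monic _)
    have h2 : Ac.charpoly.roots = Multiset.replicate n 0 := by
      rw [Multiset.eq_replicate]
      refine ⟨?_, hroot⟩
      rw [← (IsAlgClosed.splits Ac.charpoly).natDegree_eq_card_roots, Matrix.charpoly_natDegree_eq_dim, Fintype.card_fin]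
    rw [h2] at h1
    simpa using h1
  have hCH := Matrix.aeval_self_charpoly Ac
  rw [hcp, map_pow, Polynomial.aeval_X, hAc, ← Matrix.map_pow] at hCH
  ext i j
  have := congrFun (congrFun hCH i) j
  simpa using this

end N

open N in
theorem n : St_N := by
  intro n
  refine ⟨fF, fun _ => gG n, fF_analytic, fun _ => gG_analytic n, fun _ => not_moebius_G n,
    fun k₁ _ => not_moebius_F n k₁, ?_⟩
  intro A hA k B hB
  have hnil := nilp A hA
  unfold IsValue at hB
  have h1 := (hasSum_ite_eq 1 A).add (hasSum_ite_eq (2 * n + 3) (A ^ (2 * n + 3)))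
  have h2 : (fun j : ℕ => (iteratedDeriv j (gG n) 0 / (j.factorial : ℝ)) • A ^ j) =
      fun j => (if j = 1 then A else 0) + (if j = 2 * n + 3 then A ^ (2 * n + 3) else 0) := by
    ext1 j
    rw [coeff_G, cG, add_smul]
    congr 1
    · split_ifs with h
      · rw [h]; simp
      · simp
    · split_ifs with h
      · rw [h]; simp
      · simp
  rw [h2] at hB
  have h3 := hB.unique h1
  have h4 : A ^ (2 * n + 3) = 0 := by
    rw [show 2 * n + 3 = n + (n + 3) by ring, pow_add, hnil, zero_mul]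
  rw [h3, h4, add_zero]

end Pool.Agent.R353.LM
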