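import Mathlib
import Pool.Agent.R353.LM.Stm
import Pool.Agent.R353.LM.N

/-!
# Part N of MP_4d0c5f_nt for convergence in the sense of partial sums (helper394, helper353)
-/

set_option autoImplicit false

open MeasureTheory Topology Filter

namespace Pool.Agent.R353.LM

/-- The partial sums of the Taylor series of `f` at `0`, evaluated at `A`, converge to `B`. -/
def IsLimit {n : ℕ} (f : ℝ → ℝ) (A B : Matrix (Fin n) (Fin n) ℝ) : Prop :=
  Tendsto (fun m : ℕ => ∑ j ∈ Finset.range m, (iteratedDeriv j f 0 / (j.factorial : ℝ)) • A ^ j) atTop (𝓝 B)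

theorem IsValue.isLimit {n : ℕ} {f : ℝ → ℝ} {A B : Matrix (Fin n) (Fin n) ℝ} (h : IsValue f A B) : IsLimit f A B :=
  HasSum.tendsto_sum_nat h

theorem IsLimit.term {n : ℕ} {f : ℝ → ℝ} {A B : Matrix (Fin n) (Fin n) ℝ} (h : IsLimit f A B) :
    Tendsto (fun j : ℕ => (iteratedDeriv j f 0 / (j.factorial : ℝ)) • A ^ j) atTop (𝓝 0) := by
  have h1 : Tendsto (fun m : ℕ => ∑ j ∈ Finset.range (m + 1), (iteratedDeriv j f 0 / (j.factorial : ℝ)) • A ^ j)
      atTop (𝓝 B) := h.comp (tendsto_add_atTop_nat 1)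
  have h2 := h1.sub h
  rw [sub_self] at h2
  refine h2.congr fun m => ?_
  rw [Finset.sum_range_succ]
  simp

namespace N

/-- Only nilpotent matrices are in the domain of all `fF k` (the argument of helper394 for `N.nilp`, for partial sums). -/
theorem nilp' {n : ℕ} (A : Matrix (Fin n) (Fin n) ℝ) (h : ∀ k, ∃ B, IsLimit (fF k) A B) : A ^ n = 0 := by
  classical
  set Ac : Matrix (Fin n) (Fin n) ℂ := A.map (algebraMap ℝ ℂ) with hAc
  have hroot : ∀ lam ∈ Ac.charpoly.roots, lam = 0 := by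
    intro lam hlam
    by_contra hne
    have hroot : Ac.charpoly.eval lam = 0 := (Polynomial.mem_roots'.1 hlam).2
    rw [Matrix.eval_charpoly] at hroot
    obtain ⟨v, hv, hvz⟩ := Matrix.exists_mulVec_eq_zero_iff.2 hroot
    have hAv : Ac.mulVec v = lam • v := by
      rw [Matrix.sub_mulVec, sub_eq_zero] at hvz
      rw [← hvz]
      simp [Matrix.scalar_apply]
    have hpow : ∀ m : ℕ, (Ac ^ m).mulVec v = lam ^ m • v := by
      intro m
      induction m with
      | zero => simp
      | succ m ih => rw [pow_succ, ← Matrix.mulVec_mulVec, hAv, Matrix.mulVec_smul, ih, smul_smul, pow_succ, mul_comm]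
    obtain ⟨k, hk⟩ := exists_nat_gt (1 / ‖lam‖)
    obtain ⟨B, hB⟩ := h k
    have ht := hB.term
    have ht2 : Tendsto (fun m : ℕ => (cF k (2 * m)) • A ^ (2 * m)) atTop (𝓝 0) := by
      have := ht.comp (tendsto_id.const_mul_atTop' (r := 2) two_pos)
      refine this.congr fun m => ?_
      simp only [Function.comp, id, coeff_F]
    have hcont : Continuous fun M : Matrix (Fin n) (Fin n) ℝ => (M.map (algebraMap ℝ ℂ)).mulVec v := by
      refine Continuous.matrix_mulVec ?_ continuous_const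
      exact continuous_id.matrix_map Complex.continuous_ofReal
    have ht3 := (hcont.tendsto 0).comp ht2
    have h0 : ((0 : Matrix (Fin n) (Fin n) ℝ).map (algebraMap ℝ ℂ)).mulVec v = 0 := by
      simp
    rw [h0] at ht3
    have ht4 : Tendsto (fun m : ℕ => ((cF k (2 * m) : ℝ) : ℂ) • (lam ^ (2 * m) • v)) atTop (𝓝 0) := by
      refine ht3.congr fun m => ?_
      simp only [Function.comp]
      rw [← hpow]
      have : (cF k (2 * m) • A ^ (2 * m)).map (algebraMap ℝ ℂ) = ((cF k (2 * m) : ℝ) : ℂ) • Ac ^ (2 * m) := by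
        rw [hAc, ← Matrix.map_pow]
        ext i j
        simp
      rw [this, Matrix.smul_mulVec]
    have ht5 := ht4.norm
    simp only [norm_zero, norm_smul, norm_pow] at ht5
    have hvn : 0 < ‖v‖ := norm_pos_iff.2 hv
    have hbig : ∀ m : ℕ, ‖v‖ ≤ ‖((cF k (2 * m) : ℝ) : ℂ)‖ * (‖lam‖ ^ (2 * m) * ‖v‖) := by
      intro m
      rw [Complex.norm_real]
      simp only [cF, if_pos (even_two_mul m)]
      rw [norm_mul, norm_pow, norm_pow, norm_neg, norm_one, one_pow, one_mul, Real.norm_eq_abs,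
        abs_of_pos (show (0 : ℝ) < (k : ℝ) + 1 by positivity), ← mul_assoc, ← mul_pow]
      have hl : 0 < ‖lam‖ := norm_pos_iff.2 hne
      have h1 : 1 ≤ ((k : ℝ) + 1) * ‖lam‖ := by
        rw [div_lt_iff₀ hl] at hk
        nlinarith
      have h2 : 1 ≤ (((k : ℝ) + 1) * ‖lam‖) ^ (2 * m) := one_le_pow₀ h1
      nlinarith
    have := ge_of_tendsto' ht5 hbig
    linarith
  have hcp : Ac.charpoly = Polynomial.X ^ n := by
    have h1 := (IsAlgClosed.splits Ac.charpoly).eq_prod_roots_of_monic (Matrix.charpoly_monic _)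
    have h2 : Ac.charpoly.roots = Multiset.replicate n 0 := by
      rw [Multiset.eq_replicate]
      refine ⟨?_, hroot⟩
      rw [← (IsAlgClosed.splits Ac.charpoly).natDegree_eq_card_roots, Matrix.charpoly_natDegree_eq_dim, Fintype.card_fin]
    rw [h2] at h1
    simpa using h1
  have hCH := Matrix.aeval_self_charpoly Ac
  rw [hcp, map_pow, Polynomial.aeval_X, hAc, ← Matrix.map_pow] at hCH
  ext i j
  have := congrFun (congrFun hCH i) j
  simpa using this

end N

open N in
theorem n2 (n : ℕ) : ∃ f g : ℕ → ℝ → ℝ, (∀ k, AnalyticOnNhd ℝ (f k) Set.univ) ∧ (∀ k, AnalyticOnNhd ℝ (g k) Set.univ) ∧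
    (∀ k, ¬ Moebius Set.univ (g k) id) ∧ (∀ k₁ k₂, ¬ Moebius Set.univ (f k₁) (g k₂)) ∧
    ∀ A : Matrix (Fin n) (Fin n) ℝ, (∀ k, ∃ B, IsLimit (f k) A B) → ∀ k B, IsLimit (g k) A B → B = A := by
  refine ⟨fF, fun _ => gG n, fF_analytic, fun _ => gG_analytic n, fun _ => not_moebius_G n,
    fun k₁ _ => not_moebius_F n k₁, ?_⟩
  intro A hA k B hB
  have hnil := nilp' A hA
  have h1 := (hasSum_ite_eq 1 A).add (hasSum_ite_eq (2 * n + 3) (A ^ (2 * n + 3)))
  have h2 : (fun j : ℕ => (iteratedDeriv j (gG n) 0 / (j.factorial : ℝ)) • A ^ j) =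
      fun j => (if j = 1 then A else 0) + (if j = 2 * n + 3 then A ^ (2 * n + 3) else 0) := by
    ext1 j
    rw [coeff_G, cG, add_smul]
    congr 1
    · split_ifs with h
      · rw [h]; simp
      · simp
    · split_ifs with h
      · rw [h]; simp
      · simp
  rw [← h2] at h1
  have h3 := tendsto_nhds_unique hB h1.tendsto_sum_nat
  have h4 : A ^ (2 * n + 3) = 0 := by
    rw [show 2 * n + 3 = n + (n + 3) by ring, pow_add, hnil, zero_mul]
  rw [h3, h4, add_zero]

end Pool.Agent.R353.LM
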